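import Pool.Agent.Lib.MP_fe8c60_co.Sh.St

/-! Assembly of the stations of all blocks and of the left-over vertices. -/

set_option autoImplicit false

namespace Pool.Agent.Lib.MP_fe8c60_co.Sh

open Finset

namespace Asm
variable {n : ℕ}

theorem pv_union (A B : Finset (Sta n)) (v : Fin n) : pv (A ∪ B) v ≤ pv A v + pv B v := by
  unfold pv
  rw [filter_union]
  exact card_union_le _ _

theorem cv_union (A B : Finset (Sta n)) (v : Fin n) : cv (A ∪ B) v ≤ cv A v + cv B v := by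
  unfold cv
  rw [filter_union]
  exact card_union_le _ _

theorem pv_bi {ι : Type} (s : Finset ι) (f : ι → Finset (Sta n)) (v : Fin n) :
    pv (s.biUnion f) v ≤ ∑ x ∈ s, pv (f x) v := by
  unfold pv
  rw [filter_biUnion]
  exact card_biUnion_le

theorem cv_bi {ι : Type} (s : Finset ι) (f : ι → Finset (Sta n)) (v : Fin n) :
    cv (s.biUnion f) v ≤ ∑ x ∈ s, cv (f x) v := by
  unfold cv
  rw [filter_biUnion]
  exact card_biUnion_le

theorem pack (𝒬 : Finset (Finset (Fin n))) (f : Finset (Fin n) → Finset (Fin n))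
    (W : Finset (Fin n)) (m : ℕ) (hd : ∀ Q ∈ 𝒬, ∀ Q' ∈ 𝒬, Q ≠ Q' → Disjoint Q Q')
    (hf : ∀ Q ∈ 𝒬, f Q ⊆ Q ∧ f Q ⊆ W ∧ m ≤ (f Q).card) : 𝒬.card * m ≤ W.card := by
  have h1 : (𝒬.biUnion f).card = ∑ Q ∈ 𝒬, (f Q).card := by
    apply card_biUnion
    intro Q hQ Q' hQ' hne
    exact (hd Q hQ Q' hQ' hne).mono (hf Q hQ).1 (hf Q' hQ').1
  have h2 : 𝒬.biUnion f ⊆ W := biUnion_subset.2 fun Q hQ => (hf Q hQ).2.1
  have h3 : 𝒬.card • m ≤ ∑ Q ∈ 𝒬, (f Q).card :=
    card_nsmul_le_sum _ _ _ fun Q hQ => (hf Q hQ).2.2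
  have h4 := card_le_card h2
  rw [smul_eq_mul] at h3
  omega

theorem sum_fib {k : ℕ} (cls : Fin n → Fin k) : ∑ i, (fib cls i).card = n := by
  have := card_eq_sum_card_fiberwise (f := cls) (s := univ) (t := univ) (fun _ _ => by simp)
  simpa [fib] using this.symm

theorem nb_mono (G : SimpleGraph (Fin n)) (b : Fin n) {U V : Finset (Fin n)} (h : U ⊆ V) :
    nb G b U ⊆ nb G b V := by
  classical
  unfold nb
  exact filter_subset_filter _ h

theorem nn_mono (G : SimpleGraph (Fin n)) (b : Fin n) {U V : Finset (Fin n)} (h : U ⊆ V) :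
    nn G b U ⊆ nn G b V := by
  classical
  unfold nn
  exact filter_subset_filter _ h

theorem nb_sub (G : SimpleGraph (Fin n)) (b : Fin n) (U : Finset (Fin n)) : nb G b U ⊆ U := by
  classical
  unfold nb
  exact filter_subset _ _

theorem nn_sub (G : SimpleGraph (Fin n)) (b : Fin n) (U : Finset (Fin n)) : nn G b U ⊆ U := by
  classical
  unfold nn
  exact filter_subset _ _

theorem mem_nb (G : SimpleGraph (Fin n)) (b x : Fin n) (U : Finset (Fin n)) :
    x ∈ nb G b U ↔ x ∈ U ∧ G.Adj b x := by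
  classical
  unfold nb
  exact mem_filter

/-- the real-number count -/
theorem real_count {k : ℕ} (K g r : ℕ) (η : ℝ) (hK : 1 ≤ K) (hg : 1 ≤ g) (hr : 1 ≤ r)
    (J : Finset (Fin k)) (d : Fin k → Prop) [DecidablePred d] (c q w f m : Fin k → ℕ)
    (hc : ∀ i, c i ≤ q i + K * w i) (hc0 : ∀ i, ¬d i → c i = 0)
    (hq : ∀ i, q i * (K * g) ≤ f i) (hf : ∑ i, f i = n) (hwq : ∀ i, w i ≤ q i)
    (hw : ∀ i, w i * r ≤ m i)
    (hJ : (∑ i ∈ J, (f i : ℝ)) ≤ (1 / 4 + η) * n)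
    (hJ' : ∑ i ∈ univ.filter (fun i => i ∉ J ∧ d i), (m i : ℝ) ≤ η * n) :
    ((∑ i, c i : ℕ) : ℝ) ≤ n / (K * g) + K * (η * n / r) + (1 / 4 + η) * n / g := by
  have hK' : (0 : ℝ) < K := by exact_mod_cast hK
  have hg' : (0 : ℝ) < g := by exact_mod_cast hg
  have hr' : (0 : ℝ) < r := by exact_mod_cast hr
  have hq' : ∀ i, (q i : ℝ) ≤ f i / (K * g) := fun i => by
    rw [le_div_iff₀ (by positivity)]
    exact_mod_cast hq i
  have hw' : ∀ i, (w i : ℝ) ≤ m i / r := fun i => by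
    rw [le_div_iff₀ hr']
    exact_mod_cast hw i
  have key : ∀ i, (c i : ℝ) ≤ f i / (K * g) + K * ((if i ∉ J ∧ d i then (m i : ℝ) else 0) / r) +
      (if i ∈ J then (f i : ℝ) else 0) / g := fun i => by
    have h1 : (c i : ℝ) ≤ q i + K * w i := by exact_mod_cast hc i
    have h2 : (w i : ℝ) ≤ q i := by exact_mod_cast hwq i
    have h3 := hq' i
    have h4 := hw' i
    by_cases hi : i ∈ J
    · have h5 : (K : ℝ) * w i ≤ K * (f i / (K * g)) :=
        mul_le_mul_of_nonneg_left (h2.trans h3) hK'.le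
      have h6 : (K : ℝ) * (f i / (K * g)) = f i / g := by field_simp
      simp only [hi, not_true_eq_false, false_and, if_false, if_true, zero_div, mul_zero]
      linarith
    · by_cases hd : d i
      · have h5 : (K : ℝ) * w i ≤ K * (m i / r) := mul_le_mul_of_nonneg_left h4 hK'.le
        simp only [hi, hd, not_false_eq_true, and_self, if_false, if_true, zero_div]
        linarith
      · rw [hc0 i hd]
        simp only [hi, hd, and_false, if_false, zero_div, Nat.cast_zero]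
        positivity
  push_cast
  refine (sum_le_sum fun i _ => key i).trans ?_
  rw [sum_add_distrib, sum_add_distrib, ← sum_div, ← mul_sum, ← sum_div, ← sum_div,
    ← sum_filter, ← sum_filter]
  have e1 : (∑ i, (f i : ℝ)) = n := by exact_mod_cast hf
  have e2 : univ.filter (fun i => i ∈ J) = J := by ext i; simp
  rw [e1, e2]
  gcongr

end Asm

open Asm in
theorem asm_st (hP : PackSt) (hR : RamSt) (hB : BlockSt) (hL : LeftSt) : AsmSt := by
  classical
  intro n G k K g r t η hG hS hK hg hr ht hbin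
  obtain ⟨cls, D, hD, hJ⟩ := hS
  have hL1 : 1 ≤ K * g := Nat.mul_pos hK hg
  choose 𝒬 h1 h2 h3 using fun i : Fin k => hP.1 n G (fib cls i) (K * g) hL1
  obtain ⟨𝒮L, hLc, -, hLp, hLv, hLcov⟩ :=
    hL n G (univ.biUnion fun i => fib cls i \ (𝒬 i).biUnion id) t hG ht
  choose! 𝒮B hBc hBs hBp hBv hBcov using fun (i : Fin k) (Q : Finset (Fin n)) (hQ : Q ∈ 𝒬 i) =>
    hB n G Q (univ.filter fun b => D (cls b) i = true) K g r t hG (h1 i Q hQ).2.1
      (h1 i Q hQ).2.2 ht hbin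
  refine ⟨𝒮L ∪ univ.biUnion fun i => (𝒬 i).biUnion (𝒮B i), ?_, ?_, ?_, ?_⟩
  · intro s hs
    rcases mem_union.1 hs with h | h
    · exact hLc s h
    · obtain ⟨i, -, h⟩ := mem_biUnion.1 h
      obtain ⟨Q, hQ, h⟩ := mem_biUnion.1 h
      exact hBc i Q hQ s h
  · have hl : ∀ a b, Cv 𝒮L a b →
        Cv (𝒮L ∪ univ.biUnion fun i => (𝒬 i).biUnion (𝒮B i)) a b := by
      rintro a b ⟨s, hs, h⟩
      exact ⟨s, mem_union_left _ hs, h⟩
    have hb : ∀ a b, G.Adj a b → D (cls b) (cls a) = true →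
        Cv (𝒮L ∪ univ.biUnion fun i => (𝒬 i).biUnion (𝒮B i)) a b := by
      intro a b hab hd
      by_cases ha : a ∈ (𝒬 (cls a)).biUnion id
      · obtain ⟨Q, hQ, haQ⟩ := mem_biUnion.1 ha
        obtain ⟨s, hs, h⟩ := hBcov (cls a) Q hQ a haQ b (by simpa using hd) hab
        exact ⟨s, mem_union_right _ (mem_biUnion.2 ⟨cls a, mem_univ _,
          mem_biUnion.2 ⟨Q, hQ, hs⟩⟩), h⟩
      · exact hl a b (hLcov a (mem_biUnion.2 ⟨cls a, mem_univ _,
          mem_sdiff.2 ⟨by simp [fib], ha⟩⟩) b hab)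
    intro u v huv
    rcases hD (cls u) (cls v) with h | h
    · exact Or.inr (hb v u huv.symm h)
    · exact Or.inl (hb u v huv h)
  · intro v
    have hz : ∀ i, ∀ Q ∈ 𝒬 i, v ∉ Q → pv (𝒮B i Q) v = 0 := by
      intro i Q hQ hv
      unfold pv
      rw [card_eq_zero, filter_eq_empty_iff]
      exact fun s hs h => hv ((hBs i Q hQ s hs).1 h)
    have hsum : (∑ i, ∑ Q ∈ 𝒬 i, pv (𝒮B i Q) v) * t ≤ 2 * (n + 2 ^ g * t ^ 3) := by
      rw [sum_eq_single (cls v)]
      · by_cases hv : ∃ Q ∈ 𝒬 (cls v), v ∈ Q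
        · obtain ⟨Q, hQ, hvQ⟩ := hv
          rw [sum_eq_single Q]
          · exact hBp _ Q hQ v
          · intro Q' hQ' hne
            exact hz _ Q' hQ' fun h => disjoint_left.1 (h2 _ Q' hQ' Q hQ hne) h hvQ
          · exact fun h => absurd hQ h
        · rw [sum_eq_zero fun Q hQ => hz _ Q hQ fun h => hv ⟨Q, hQ, h⟩]
          simp
      · intro i _ hne
        refine sum_eq_zero fun Q hQ => hz i Q hQ fun h => hne ?_
        have := (h1 i Q hQ).1 h
        simp only [fib, mem_filter] at this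
        exact this.2.symm
      · exact fun h => absurd (mem_univ _) h
    have hle : pv (𝒮L ∪ univ.biUnion fun i => (𝒬 i).biUnion (𝒮B i)) v ≤
        pv 𝒮L v + ∑ i, ∑ Q ∈ 𝒬 i, pv (𝒮B i Q) v :=
      (pv_union _ _ v).trans (Nat.add_le_add_left
        ((pv_bi _ _ v).trans (sum_le_sum fun i _ => pv_bi _ _ v)) _)
    have h4 := hLp v
    have h5 : t ^ 3 ≤ 2 ^ g * t ^ 3 := Nat.le_mul_of_pos_left _ (by positivity)
    have h6 := Nat.mul_le_mul_right t hle
    rw [add_mul] at h6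
    omega
  · intro v
    obtain ⟨J, hJ1, hJ2⟩ := hJ v
    have hle : cv (𝒮L ∪ univ.biUnion fun i => (𝒬 i).biUnion (𝒮B i)) v ≤
        cv 𝒮L v + ∑ i, ∑ Q ∈ 𝒬 i, cv (𝒮B i Q) v :=
      (cv_union _ _ v).trans (Nat.add_le_add_left
        ((cv_bi _ _ v).trans (sum_le_sum fun i _ => cv_bi _ _ v)) _)
    have hleft : cv 𝒮L v ≤ k * (K * g) ^ 2 := by
      refine (hLv v).trans ?_
      have hsub : nb G v (univ.biUnion fun i => fib cls i \ (𝒬 i).biUnion id) ⊆
          univ.biUnion fun i => nb G v (fib cls i \ (𝒬 i).biUnion id) := by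
        intro x hx
        obtain ⟨hx, hvx⟩ := (mem_nb G v x _).1 hx
        obtain ⟨i, -, hi⟩ := mem_biUnion.1 hx
        exact mem_biUnion.2 ⟨i, mem_univ _, (mem_nb G v x _).2 ⟨hi, hvx⟩⟩
      refine (card_le_card hsub).trans (card_biUnion_le.trans ?_)
      refine (sum_le_card_nsmul _ _ ((K * g) ^ 2) fun i _ => ?_).trans (by simp)
      exact (hR n G v _ (K * g) hG (fun b hb => ((mem_nb G v b _).1 hb).2) hL1).1
        fun Q hQ => h3 i Q (hQ.trans (nb_sub G v _))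
    have hmain := Asm.real_count K g r η hK hg hr J (fun i => D (cls v) i = true)
      (fun i => ∑ Q ∈ 𝒬 i, cv (𝒮B i Q) v) (fun i => (𝒬 i).card)
      (fun i => ((𝒬 i).filter fun Q => ¬((nb G v Q).card ≤ r ∨ (nn G v Q).card ≤ r)).card)
      (fun i => (fib cls i).card)
      (fun i => min (nb G v (fib cls i)).card (nn G v (fib cls i)).card) ?_ ?_ ?_ (sum_fib cls)
      (fun i => card_filter_le _ _) ?_ hJ1 hJ2
    · have h7 : (cv 𝒮L v : ℝ) ≤ k * ((K : ℝ) * g) ^ 2 := by exact_mod_cast hleft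
      have h8 : ((cv (𝒮L ∪ univ.biUnion fun i => (𝒬 i).biUnion (𝒮B i)) v : ℕ) : ℝ) ≤
          (cv 𝒮L v : ℝ) + ((∑ i, ∑ Q ∈ 𝒬 i, cv (𝒮B i Q) v : ℕ) : ℝ) := by exact_mod_cast hle
      linarith
    · intro i
      rw [card_filter, mul_sum, card_eq_sum_ones, ← sum_add_distrib]
      refine sum_le_sum fun Q hQ => (hBv i Q hQ v).trans ?_
      by_cases h : (nb G v Q).card ≤ r ∨ (nn G v Q).card ≤ r
      · simp [h]
      · simp [h]
    · intro i hi
      refine sum_eq_zero fun Q hQ => ?_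
      unfold cv
      rw [card_eq_zero, filter_eq_empty_iff]
      exact fun s hs h => hi (mem_filter.1 ((hBs i Q hQ s hs).2 h)).2
    · intro i
      exact pack (𝒬 i) id _ _ (h2 i) fun Q hQ =>
        ⟨Subset.refl _, (h1 i Q hQ).1, (h1 i Q hQ).2.2.ge⟩
    · intro i
      have hd : ∀ Q ∈ (𝒬 i).filter fun Q => ¬((nb G v Q).card ≤ r ∨ (nn G v Q).card ≤ r),
          ∀ Q' ∈ (𝒬 i).filter fun Q => ¬((nb G v Q).card ≤ r ∨ (nn G v Q).card ≤ r),
          Q ≠ Q' → Disjoint Q Q' := fun Q hQ Q' hQ' =>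
        h2 i Q (mem_filter.1 hQ).1 Q' (mem_filter.1 hQ').1
      have a1 := pack _ (nb G v) (nb G v (fib cls i)) r hd fun Q hQ => by
        obtain ⟨hQ, h⟩ := mem_filter.1 hQ
        exact ⟨nb_sub G v Q, nb_mono G v (h1 i Q hQ).1, by omega⟩
      have a2 := pack _ (nn G v) (nn G v (fib cls i)) r hd fun Q hQ => by
        obtain ⟨hQ, h⟩ := mem_filter.1 hQ
        exact ⟨nn_sub G v Q, nn_mono G v (h1 i Q hQ).1, by omega⟩
      exact le_min a1 a2

end Pool.Agent.Lib.MP_fe8c60_co.Sh
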