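import Pool.Agent.Lib.MP_fe8c60_co.Sh.St

/-! A bound for the tail of the binomial sum. -/

set_option autoImplicit false

namespace Pool.Agent.Lib.MP_fe8c60_co.Sh

open Finset

namespace Bin

theorem tail (m r : ℕ) (x : ℝ) (h0 : 0 ≤ x) (h1 : x ≤ 1) :
    (∑ j ∈ range (r + 1), (m.choose j : ℝ)) * x ^ r ≤ (x + 1) ^ m := by
  rw [add_pow, sum_mul]
  have a : ∑ j ∈ range (r + 1), (m.choose j : ℝ) * x ^ r ≤
      ∑ j ∈ range (r + 1), (m.choose j : ℝ) * x ^ j :=
    sum_le_sum fun j hj => mul_le_mul_of_nonneg_left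
      (pow_le_pow_of_le_one h0 h1 (Nat.lt_succ_iff.1 (mem_range.1 hj))) (Nat.cast_nonneg _)
  have b : ∑ j ∈ range (r + 1), (m.choose j : ℝ) * x ^ j ≤
      ∑ j ∈ range (r + 1 + (m + 1)), (m.choose j : ℝ) * x ^ j :=
    sum_le_sum_of_subset_of_nonneg (range_mono (by omega)) fun j _ _ => by positivity
  have c : ∑ j ∈ range (m + 1), (m.choose j : ℝ) * x ^ j =
      ∑ j ∈ range (r + 1 + (m + 1)), (m.choose j : ℝ) * x ^ j :=
    sum_subset (range_mono (by omega)) fun j _ hj => by
      rw [Nat.choose_eq_zero_of_lt (by simpa using hj)]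
      simp
  refine a.trans (b.trans (c.symm.trans_le (le_of_eq (sum_congr rfl fun j _ => ?_))))
  rw [one_pow, mul_one, mul_comm]

end Bin

theorem bin_st : BinSt := by
  intro K hK
  have hK' : (1 : ℝ) ≤ K := by exact_mod_cast hK
  refine ⟨1 / (16 * K), by positivity, 4, fun g hg r hr => ?_⟩
  have hg' : (4 : ℝ) ≤ g := by exact_mod_cast hg
  have hx : (0 : ℝ) < 1 / (4 * K) := by positivity
  have t := Bin.tail (K * g) r (1 / (4 * K)) hx.le (by
    rw [div_le_one (by positivity)]; linarith)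
  have u : ((1 : ℝ) / (4 * K) + 1) ^ (K * g) ≤ Real.exp (g / 4) := by
    refine (pow_le_pow_left₀ (by positivity) (Real.add_one_le_exp _) _).trans (le_of_eq ?_)
    rw [← Real.exp_nat_mul]
    congr 1
    push_cast
    field_simp
  have v : ((4 : ℝ) * K) ^ r ≤ Real.exp (g / 4) := by
    have a : (4 : ℝ) * K ≤ Real.exp (4 * K) := by linarith [Real.add_one_le_exp ((4 : ℝ) * K)]
    refine (pow_le_pow_left₀ (by positivity) a _).trans ?_
    rw [← Real.exp_nat_mul]
    refine Real.exp_le_exp.2 ?_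
    have b : (r : ℝ) * (4 * K) ≤ 1 / (16 * K) * g * (4 * K) :=
      mul_le_mul_of_nonneg_right hr (by positivity)
    refine b.trans (le_of_eq ?_)
    field_simp
    ring
  have w : (∑ j ∈ range (r + 1), ((K * g).choose j : ℝ)) ≤ Real.exp (g / 2) := by
    have a : (∑ j ∈ range (r + 1), ((K * g).choose j : ℝ)) =
        (∑ j ∈ range (r + 1), ((K * g).choose j : ℝ)) * (1 / (4 * K)) ^ r * (4 * K) ^ r := by
      rw [mul_assoc, ← mul_pow, one_div, inv_mul_cancel₀ (by positivity), one_pow, mul_one]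
    rw [a, show (g : ℝ) / 2 = g / 4 + g / 4 by ring, Real.exp_add]
    exact mul_le_mul (t.trans u) v (by positivity) (by positivity)
  have z : 2 * Real.exp ((g : ℝ) / 2) ≤ 2 ^ g := by
    have l := Real.log_two_gt_d9
    have a : (2 : ℝ) ^ g = Real.exp (g * Real.log 2) := by
      rw [Real.exp_nat_mul, Real.exp_log (by norm_num)]
    have b : 2 * Real.exp ((g : ℝ) / 2) = Real.exp (Real.log 2 + g / 2) := by
      rw [Real.exp_add, Real.exp_log (by norm_num)]
    rw [a, b]
    refine Real.exp_le_exp.2 ?_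
    nlinarith
  have f : (2 : ℝ) * (∑ j ∈ range (r + 1), ((K * g).choose j : ℝ)) ≤ 2 ^ g := by linarith
  exact_mod_cast f

end Pool.Agent.Lib.MP_fe8c60_co.Sh
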