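import Pool.Agent.Lib.MP_fe8c60_co.Sh.St

/-! Stations for one clique block. -/

set_option autoImplicit false

namespace Pool.Agent.Lib.MP_fe8c60_co.Sh

open Finset

namespace Block

variable {n : ℕ}

/-- the small subsets of `Q` -/
def sm (Q : Finset (Fin n)) (r : ℕ) : Finset (Finset (Fin n)) :=
  (range (r + 1)).biUnion fun j => powersetCard j Q

theorem card_sm (Q : Finset (Fin n)) (r : ℕ) :
    (sm Q r).card ≤ ∑ j ∈ range (r + 1), Q.card.choose j := by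
  refine card_biUnion_le.trans (le_of_eq (sum_congr rfl fun j _ => ?_))
  rw [card_powersetCard]

theorem mem_sm (Q S : Finset (Fin n)) (r : ℕ) (h : S ⊆ Q) (hc : S.card ≤ r) : S ∈ sm Q r :=
  mem_biUnion.2 ⟨S.card, mem_range.2 (Nat.lt_succ_of_le hc), mem_powersetCard.2 ⟨h, rfl⟩⟩

theorem nb_sub (G : SimpleGraph (Fin n)) (b : Fin n) (Q : Finset (Fin n)) : nb G b Q ⊆ Q := by
  classical
  intro x hx
  unfold nb at hx
  exact (mem_filter.1 hx).1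

theorem nn_sub (G : SimpleGraph (Fin n)) (b : Fin n) (Q : Finset (Fin n)) : nn G b Q ⊆ Q := by
  classical
  intro x hx
  unfold nn at hx
  exact (mem_filter.1 hx).1

theorem sdiff_nn (G : SimpleGraph (Fin n)) (b : Fin n) (Q : Finset (Fin n)) :
    Q \ nn G b Q = nb G b Q := by
  classical
  ext x
  unfold nn nb
  simp only [mem_sdiff, mem_filter]
  tauto

end Block

theorem block_st (hP : PackSt) (hG : GroupSt) : BlockSt := by
  classical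
  intro n G Q B K g r t hCF hQ hc ht hbin
  obtain ⟨𝒢, h𝒢c, h𝒢s, h𝒢x, h𝒢d⟩ := hP.2 n Q K g hc
  set B1 := B.filter fun v => (nb G v Q).card ≤ r ∨ (nn G v Q).card ≤ r with hB1
  set B2 := B.filter fun v => ¬((nb G v Q).card ≤ r ∨ (nn G v Q).card ≤ r) with hB2
  set 𝒯 := Block.sm Q r ∪ (Block.sm Q r).image fun S => Q \ S with h𝒯
  have h𝒯c : 𝒯.card ≤ 2 ^ g := by
    have h1 := Block.card_sm Q r
    have h2 : 𝒯.card ≤ (Block.sm Q r).card + (Block.sm Q r).card :=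
      (card_union_le _ _).trans (Nat.add_le_add_left card_image_le _)
    rw [hc] at h1
    omega
  have hmem : ∀ b ∈ B1, nb G b Q ∈ 𝒯 := by
    intro b hb
    rcases (mem_filter.1 hb).2 with h | h
    · exact mem_union_left _ (Block.mem_sm Q _ r (Block.nb_sub G b Q) h)
    · exact mem_union_right _
        (mem_image.2 ⟨_, Block.mem_sm Q _ r (Block.nn_sub G b Q) h, Block.sdiff_nn G b Q⟩)
  obtain ⟨𝒮1, a1, a2, a3, a4, a5⟩ := hG n G Q B1 𝒯 t hCF hQ hmem ht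
  have hall : ∀ Γ : Finset (Fin n), ∃ 𝒮 : Finset (Sta n), Γ ∈ 𝒢 →
      (Cliq G 𝒮 ∧ (∀ s ∈ 𝒮, s.1 ⊆ Γ ∧ s.2 ⊆ B2) ∧ 𝒮.card * t ≤ n + 2 ^ g * t ^ 3 ∧
        (∀ v, cv 𝒮 v ≤ 1) ∧ ∀ a ∈ Γ, ∀ b ∈ B2, G.Adj a b → Cv 𝒮 a b) := by
    intro Γ
    by_cases hΓ : Γ ∈ 𝒢
    · have hcl : G.IsClique (Γ : Set (Fin n)) := hQ.subset (coe_subset.2 (h𝒢s Γ hΓ).1)
      obtain ⟨𝒮, b1, b2, b3, b4, b5⟩ := hG n G Γ B2 Γ.powerset t hCF hcl
        (fun b _ => mem_powerset.2 (Block.nb_sub G b Γ)) ht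
      refine ⟨𝒮, fun _ => ⟨b1, b2, b3.trans ?_, b4, b5⟩⟩
      rw [card_powerset]
      exact Nat.add_le_add_left (Nat.mul_le_mul_right _
        (Nat.pow_le_pow_right (by norm_num) (h𝒢s Γ hΓ).2)) _
    · exact ⟨∅, fun h => absurd h hΓ⟩
  choose F hF using hall
  have a3' : 𝒮1.card * t ≤ n + 2 ^ g * t ^ 3 :=
    a3.trans (Nat.add_le_add_left (Nat.mul_le_mul_right _ h𝒯c) _)
  refine ⟨𝒮1 ∪ 𝒢.biUnion F, ?_, ?_, ?_, ?_, ?_⟩
  · intro s hs
    rcases mem_union.1 hs with h | h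
    · exact a1 s h
    · obtain ⟨Γ, hΓ, h⟩ := mem_biUnion.1 h
      exact (hF Γ hΓ).1 s h
  · intro s hs
    rcases mem_union.1 hs with h | h
    · exact ⟨(a2 s h).1, (a2 s h).2.trans (filter_subset _ _)⟩
    · obtain ⟨Γ, hΓ, h⟩ := mem_biUnion.1 h
      exact ⟨((hF Γ hΓ).2.1 s h).1.trans (h𝒢s Γ hΓ).1,
        ((hF Γ hΓ).2.1 s h).2.trans (filter_subset _ _)⟩
  · intro v
    by_cases hv : ∃ Γ ∈ 𝒢, v ∈ Γ
    · obtain ⟨Γ0, hΓ0, hv0⟩ := hv
      have hsub : ((𝒮1 ∪ 𝒢.biUnion F).filter fun s => v ∈ s.1) ⊆ 𝒮1 ∪ F Γ0 := by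
        intro s hs
        obtain ⟨hs, hvs⟩ := mem_filter.1 hs
        rcases mem_union.1 hs with h | h
        · exact mem_union_left _ h
        · obtain ⟨Γ, hΓ, h⟩ := mem_biUnion.1 h
          have hvΓ : v ∈ Γ := ((hF Γ hΓ).2.1 s h).1 hvs
          have e : Γ = Γ0 := by
            by_contra hne
            exact disjoint_left.1 (h𝒢d Γ hΓ Γ0 hΓ0 hne) hvΓ hv0
          exact mem_union_right _ (e ▸ h)
      have h1 : pv (𝒮1 ∪ 𝒢.biUnion F) v ≤ 𝒮1.card + (F Γ0).card :=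
        (card_le_card hsub).trans (card_union_le _ _)
      have h2 := (hF Γ0 hΓ0).2.2.1
      calc pv (𝒮1 ∪ 𝒢.biUnion F) v * t ≤ (𝒮1.card + (F Γ0).card) * t :=
            Nat.mul_le_mul_right _ h1
        _ = 𝒮1.card * t + (F Γ0).card * t := add_mul _ _ _
        _ ≤ 2 * (n + 2 ^ g * t ^ 3) := by omega
    · have hsub : ((𝒮1 ∪ 𝒢.biUnion F).filter fun s => v ∈ s.1) ⊆ 𝒮1 := by
        intro s hs
        obtain ⟨hs, hvs⟩ := mem_filter.1 hs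
        rcases mem_union.1 hs with h | h
        · exact h
        · obtain ⟨Γ, hΓ, h⟩ := mem_biUnion.1 h
          exact absurd ⟨Γ, hΓ, ((hF Γ hΓ).2.1 s h).1 hvs⟩ hv
      have h1 : pv (𝒮1 ∪ 𝒢.biUnion F) v ≤ 𝒮1.card := card_le_card hsub
      calc pv (𝒮1 ∪ 𝒢.biUnion F) v * t ≤ 𝒮1.card * t := Nat.mul_le_mul_right _ h1
        _ ≤ 2 * (n + 2 ^ g * t ^ 3) := by omega
  · intro v
    split_ifs with hv
    · have hsub : ((𝒮1 ∪ 𝒢.biUnion F).filter fun s => v ∈ s.2) ⊆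
          𝒮1.filter fun s => v ∈ s.2 := by
        intro s hs
        obtain ⟨hs, hvs⟩ := mem_filter.1 hs
        rcases mem_union.1 hs with h | h
        · exact mem_filter.2 ⟨h, hvs⟩
        · obtain ⟨Γ, hΓ, h⟩ := mem_biUnion.1 h
          exact absurd hv (mem_filter.1 (((hF Γ hΓ).2.1 s h).2 hvs)).2
      exact (card_le_card hsub).trans (a4 v)
    · have hsub : ((𝒮1 ∪ 𝒢.biUnion F).filter fun s => v ∈ s.2) ⊆
          𝒢.biUnion fun Γ => (F Γ).filter fun s => v ∈ s.2 := by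
        intro s hs
        obtain ⟨hs, hvs⟩ := mem_filter.1 hs
        rcases mem_union.1 hs with h | h
        · exact absurd (mem_filter.1 ((a2 s h).2 hvs)).2 hv
        · obtain ⟨Γ, hΓ, h⟩ := mem_biUnion.1 h
          exact mem_biUnion.2 ⟨Γ, hΓ, mem_filter.2 ⟨h, hvs⟩⟩
      refine (card_le_card hsub).trans (card_biUnion_le.trans ?_)
      calc ∑ Γ ∈ 𝒢, ((F Γ).filter fun s => v ∈ s.2).card ≤ ∑ _Γ ∈ 𝒢, 1 :=
            sum_le_sum fun Γ hΓ => (hF Γ hΓ).2.2.2.1 v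
        _ = 𝒢.card := by simp
        _ ≤ K := h𝒢c
  · intro a ha b hb hab
    by_cases hv : (nb G b Q).card ≤ r ∨ (nn G b Q).card ≤ r
    · obtain ⟨s, hs, h⟩ := a5 a ha b (mem_filter.2 ⟨hb, hv⟩) hab
      exact ⟨s, mem_union_left _ hs, h⟩
    · obtain ⟨Γ, hΓ, haΓ⟩ := h𝒢x a ha
      obtain ⟨s, hs, h⟩ := (hF Γ hΓ).2.2.2.2 a haΓ b (mem_filter.2 ⟨hb, hv⟩) hab
      exact ⟨s, mem_union_right _ (mem_biUnion.2 ⟨Γ, hΓ, hs⟩), h⟩

end Pool.Agent.Lib.MP_fe8c60_co.Sh
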