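import Pool.Agent.Lib.MP_fe8c60_co.Sh.St

/-! Claw-free graphs: the embedding form and the elementary form agree. -/

set_option autoImplicit false

namespace Pool.Agent.Lib.MP_fe8c60_co.Sh

theorem bridge_st : BridgeSt := by
  intro n G
  constructor
  · intro h a x y z hx hy hz hxy hxz hyz
    by_contra hc
    have c1 : ¬G.Adj x y := fun e => hc (Or.inl e)
    have c2 : ¬G.Adj x z := fun e => hc (Or.inr (Or.inl e))
    have c3 : ¬G.Adj y z := fun e => hc (Or.inr (Or.inr e))
    have d1 : ¬G.Adj y x := fun e => c1 e.symm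
    have d2 : ¬G.Adj z x := fun e => c2 e.symm
    have d3 : ¬G.Adj z y := fun e => c3 e.symm
    have e1 := hx.ne
    have e2 := hy.ne
    have e3 := hz.ne
    have f1 := hx.symm
    have f2 := hy.symm
    have f3 := hz.symm
    apply h.false
    refine ⟨⟨Sum.elim (fun _ => a) ![x, y, z], ?_⟩, ?_⟩
    · rintro (u | u) (v | v) e
      · rw [Subsingleton.elim u v]
      · fin_cases v <;> simp_all
      · fin_cases u <;> simp_all
      · fin_cases u <;> fin_cases v <;> simp_all
    · rintro (u | u) (v | v)
      · simp
      · fin_cases v <;> simp [hx, hy, hz]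
      · fin_cases u <;> simp [f1, f2, f3]
      · fin_cases u <;> fin_cases v <;> simp [c1, c2, c3, d1, d2, d3]
  · intro h
    refine ⟨fun f => ?_⟩
    have k := h (f (.inl 0)) (f (.inr 0)) (f (.inr 1)) (f (.inr 2))
      (f.map_adj_iff.2 (by simp)) (f.map_adj_iff.2 (by simp)) (f.map_adj_iff.2 (by simp))
      (fun e => absurd (f.injective e) (by simp)) (fun e => absurd (f.injective e) (by simp))
      (fun e => absurd (f.injective e) (by simp))
    rcases k with k | k | k <;> simpa using f.map_adj_iff.1 k

end Pool.Agent.Lib.MP_fe8c60_co.Sh
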