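import Pool.Agent.Lib.MP_fe8c60_co.Sh.St

set_option autoImplicit false

namespace Pool.Agent.Lib.MP_fe8c60_co.Sh

open Finset

namespace Det

variable {n N : ℕ}

theorem hit_mono (l : Fin N → Fin n) {e e' : Fin N → ℕ} {i : Fin N} (h : e i ≤ e' i) :
    hit l e i ⊆ hit l e' i := by
  refine image_subset_image fun j hj => ?_
  rw [mem_filter] at hj ⊢
  exact ⟨hj.1, hj.2.1, hj.2.2.1.trans h, hj.2.2.2⟩

theorem hit_eq (l : Fin N → Fin n) {e e' : Fin N → ℕ} {i : Fin N}
    (h : (hit l e i).card = (hit l e' i).card) : hit l e i = hit l e' i := by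
  rcases le_total (e i) (e' i) with k | k
  · exact eq_of_subset_of_card_le (hit_mono l k) h.ge
  · exact (eq_of_subset_of_card_le (hit_mono l k) h.le).symm

theorem not_sA {v : Fin n} (h : v ∈ sB n) : v ∉ sA n := by
  simp only [sA, sB, mem_filter, mem_univ, true_and] at h ⊢
  exact h

theorem sub {F F' : Finset (Fin n × Fin n)} {l : Fin N → Fin n} {e e' : Fin N → ℕ}
    (hF : F ⊆ sA n ×ˢ sB n) (hF' : F' ⊆ sA n ×ˢ sB n) (h : Ev (cob F) l e) (h' : Ev (cob F') l e')
    (hh : ∀ i, hit l e i = hit l e' i) : F ⊆ F' := by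
  rintro ⟨u, v⟩ huv
  obtain ⟨hu, hv⟩ := mem_product.1 (hF huv)
  have hv' : v ∉ sA n := not_sA hv
  have hu' : u ∈ sA n := hu
  have hne : u ≠ v := fun k => hv' (k ▸ hu')
  obtain ⟨i, j, hij, hj, hl⟩ := (h.1 u v hne).1 ⟨hne, Or.inr (Or.inl huv)⟩
  have hm : l j ∈ hit l e i := by
    refine mem_image_of_mem l (mem_filter.2 ⟨mem_univ _, hij, hj, ?_⟩)
    rcases hl with ⟨a, b⟩ | ⟨a, b⟩ <;> rw [a, b] <;> tauto
  rw [hh i] at hm
  obtain ⟨j', hj', e1⟩ := mem_image.1 hm
  obtain ⟨-, k1, k2, -⟩ := mem_filter.1 hj'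
  have ha : (cob F').Adj u v := (h'.1 u v hne).2 ⟨i, j', k1, k2, by rw [e1]; exact hl⟩
  rcases ha.2 with k | k | k
  · exact absurd (k.1 hu') hv'
  · exact k
  · exact absurd (mem_product.1 (hF' k)).1 hv'

theorem cf (F : Finset (Fin n × Fin n)) : CF (cob F) := by
  intro a x y z _ _ _ hxy hxz hyz
  by_cases h1 : (x ∈ sA n ↔ y ∈ sA n)
  · exact Or.inl ⟨hxy, Or.inl h1⟩
  by_cases h2 : (x ∈ sA n ↔ z ∈ sA n)
  · exact Or.inr (Or.inl ⟨hxz, Or.inl h2⟩)
  exact Or.inr (Or.inr ⟨hyz, Or.inl (by tauto)⟩)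

theorem small (n w : ℕ) : (univ.filter fun x : Fin (n + 1) => (x : ℕ) ≤ w).card ≤ w + 1 := by
  rw [← card_range (w + 1)]
  refine card_le_card_of_injOn (fun x => (x : ℕ)) (fun x hx => ?_) fun x _ y _ e => Fin.ext e
  simp only [coe_filter, mem_univ, true_and, Set.mem_ofPred_eq] at hx
  simpa using Nat.lt_succ_of_le hx

theorem box (n N w : ℕ) (S : Finset (Fin N)) :
    (Fintype.piFinset fun i : Fin N => if i ∈ S then (univ : Finset (Fin (n + 1)))
      else univ.filter fun x : Fin (n + 1) => (x : ℕ) ≤ w).card ≤ (w + 1) ^ N * (n + 1) ^ S.card := by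
  rw [Fintype.card_piFinset]
  have h1 : (n + 1) ^ S.card = ∏ i : Fin N, if i ∈ S then n + 1 else 1 := by
    rw [prod_ite_mem, univ_inter, prod_const]
  have h2 : (w + 1) ^ N = ∏ _i : Fin N, (w + 1) := by
    rw [prod_const, card_univ, Fintype.card_fin]
  rw [h1, h2, ← prod_mul_distrib]
  refine prod_le_prod' fun i _ => ?_
  split_ifs
  · rw [card_univ, Fintype.card_fin]
    exact Nat.le_mul_of_pos_left _ (Nat.succ_pos w)
  · rw [mul_one]; exact small n w

theorem count (n N w lam : ℕ) : (univ.filter fun c : Fin N → Fin (n + 1) =>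
    (univ.filter fun i => w < (c i : ℕ)).card ≤ lam).card ≤ 2 ^ N * (w + 1) ^ N * (n + 1) ^ lam := by
  have h1 : (univ.filter fun c : Fin N → Fin (n + 1) =>
      (univ.filter fun i => w < (c i : ℕ)).card ≤ lam) ⊆
      (univ.filter fun S : Finset (Fin N) => S.card ≤ lam).biUnion fun S =>
        Fintype.piFinset fun i : Fin N => if i ∈ S then (univ : Finset (Fin (n + 1)))
          else univ.filter fun x : Fin (n + 1) => (x : ℕ) ≤ w := by
    intro c hc
    refine mem_biUnion.2 ⟨univ.filter fun i => w < (c i : ℕ),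
      mem_filter.2 ⟨mem_univ _, (mem_filter.1 hc).2⟩, Fintype.mem_piFinset.2 fun i => ?_⟩
    split_ifs with h
    · exact mem_univ _
    · simpa using h
  refine (card_le_card h1).trans ((card_biUnion_le_card_mul _ _ ((w + 1) ^ N * (n + 1) ^ lam)
    fun S hS => (box n N w S).trans (Nat.mul_le_mul_left _
      (Nat.pow_le_pow_right (Nat.succ_pos n) (mem_filter.1 hS).2))).trans ?_)
  rw [mul_assoc]
  refine Nat.mul_le_mul_right _ ((card_filter_le _ _).trans ?_)
  rw [card_univ, Fintype.card_finset, Fintype.card_fin]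

end Det

theorem det_st : DetSt :=
  ⟨fun _ _ _ _ l _ _ hF hF' h h' hc => Subset.antisymm
      (Det.sub hF hF' h h' fun i => Det.hit_eq l (hc i))
      (Det.sub hF' hF h' h fun i => (Det.hit_eq l (hc i)).symm),
    fun _ F => Det.cf F, Det.count⟩

end Pool.Agent.Lib.MP_fe8c60_co.Sh
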