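import Pool.Agent.Lib.MP_fe8c60_co.Sh.St

set_option autoImplicit false

namespace Pool.Agent.Lib.MP_fe8c60_co.Sh

open Finset

namespace Evx

variable {V M : Type} [LinearOrder M] [DecidableEq V]

/-- the labelled intervals of `T` are nonempty and have the unions `U` -/
def Rep (U : V → M → Prop) (T : Finset (V × M × M)) : Prop :=
  (∀ t ∈ T, t.2.1 ≤ t.2.2) ∧ ∀ v x, U v x ↔ ∃ t ∈ T, t.1 = v ∧ t.2.1 ≤ x ∧ x ≤ t.2.2

theorem merge (U : V → M → Prop) : ∀ (m : ℕ) (T : Finset (V × M × M)), T.card ≤ m → Rep U T →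
    ∃ T' : Finset (V × M × M), T'.card ≤ m ∧ Rep U T' ∧
      ∀ t ∈ T', ∀ t' ∈ T', t.1 = t'.1 → ∀ x, t.2.1 ≤ x → x ≤ t.2.2 → t'.2.1 ≤ x → x ≤ t'.2.2 →
        t = t' := by
  intro m
  induction m with
  | zero =>
    intro T hT hR
    refine ⟨T, hT, hR, fun t ht => ?_⟩
    rw [card_eq_zero.1 (Nat.le_zero.1 hT)] at ht
    simp at ht
  | succ m ih =>
    intro T hT hR
    by_cases h : ∀ t ∈ T, ∀ t' ∈ T, t.1 = t'.1 → ∀ x, t.2.1 ≤ x → x ≤ t.2.2 → t'.2.1 ≤ x →
        x ≤ t'.2.2 → t = t'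
    · exact ⟨T, hT, hR, h⟩
    push Not at h
    obtain ⟨t, ht, t', ht', hl, x, h1, h2, h3, h4, hne⟩ := h
    have hc : (insert (t.1, min t.2.1 t'.2.1, max t.2.2 t'.2.2) ((T.erase t).erase t')).card ≤ m := by
      have a1 := card_insert_le (t.1, min t.2.1 t'.2.1, max t.2.2 t'.2.2) ((T.erase t).erase t')
      have a2 := card_erase_of_mem (mem_erase.2 ⟨hne.symm, ht'⟩ : t' ∈ T.erase t)
      have a3 := card_erase_of_mem ht
      have a4 : 1 < T.card := one_lt_card.2 ⟨t, ht, t', ht', hne⟩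
      omega
    suffices hR' : Rep U (insert (t.1, min t.2.1 t'.2.1, max t.2.2 t'.2.2)
        ((T.erase t).erase t')) by
      obtain ⟨T', c1, c2, c3⟩ := ih _ hc hR'
      exact ⟨T', c1.trans (Nat.le_succ m), c2, c3⟩
    refine ⟨?_, ?_⟩
    · intro s hs
      rcases mem_insert.1 hs with rfl | hs
      · exact (min_le_left _ _).trans ((h1.trans h2).trans (le_max_left _ _))
      · exact hR.1 s (mem_of_mem_erase (mem_of_mem_erase hs))
    · intro v y
      rw [hR.2]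
      constructor
      · rintro ⟨s, hs, e, k1, k2⟩
        by_cases e1 : s = t
        · subst e1
          exact ⟨_, mem_insert_self _ _, e, (min_le_left _ _).trans k1, k2.trans (le_max_left _ _)⟩
        by_cases e2 : s = t'
        · subst e2
          exact ⟨_, mem_insert_self _ _, hl.trans e, (min_le_right _ _).trans k1,
            k2.trans (le_max_right _ _)⟩
        exact ⟨s, mem_insert_of_mem (mem_erase.2 ⟨e2, mem_erase.2 ⟨e1, hs⟩⟩), e, k1, k2⟩
      · rintro ⟨s, hs, e, k1, k2⟩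
        rcases mem_insert.1 hs with rfl | hs
        · simp only at e k1 k2
          rcases le_total y x with hy | hy
          · rcases min_le_iff.1 k1 with k | k
            · exact ⟨t, ht, e, k, hy.trans h2⟩
            · exact ⟨t', ht', hl.symm.trans e, k, hy.trans h4⟩
          · rcases le_max_iff.1 k2 with k | k
            · exact ⟨t, ht, e, h1.trans hy, k⟩
            · exact ⟨t', ht', hl.symm.trans e, h3.trans hy, k⟩
        · exact ⟨s, mem_of_mem_erase (mem_of_mem_erase hs), e, k1, k2⟩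

omit [DecidableEq V] in
theorem enum (T : Finset (V × M × M)) : ∃ f : Fin T.card → V × M × M, Function.Injective f ∧
    (∀ i, f i ∈ T) ∧ (∀ t ∈ T, ∃ i, f i = t) ∧ Monotone fun i => (f i).2.1 := by
  let g : Fin T.card → V × M × M := fun i => (T.equivFin.symm i : V × M × M)
  let σ := Tuple.sort fun i => (g i).2.1
  refine ⟨fun i => g (σ i), ?_, fun i => (T.equivFin.symm (σ i)).2, fun t ht => ?_,
    Tuple.monotone_sort fun i => (g i).2.1⟩
  · intro i j h
    exact σ.injective (T.equivFin.symm.injective (Subtype.ext h))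
  · refine ⟨σ.symm (T.equivFin ⟨t, ht⟩), ?_⟩
    simp [g]

end Evx

theorem ev_st : EvSt := by
  classical
  rintro n G k ⟨s, t, P, hb, hP⟩
  choose lo hi hc using fun v => cover (P v) (hb v)
  let U : Fin n → L → Prop := fun v x => ∃ e ∈ (P v).edges, key e = x
  have h0 : Evx.Rep U (((univ : Finset (Fin n × Fin (k + 1))).image
      fun z => (z.1, lo z.1 z.2, hi z.1 z.2)).filter fun t => t.2.1 ≤ t.2.2) := by
    refine ⟨fun t ht => (mem_filter.1 ht).2, fun v x => ?_⟩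
    refine (hc v x).trans ⟨?_, ?_⟩
    · rintro ⟨j, h1, h2⟩
      exact ⟨(v, lo v j, hi v j), mem_filter.2 ⟨mem_image.2 ⟨(v, j), mem_univ _, rfl⟩,
        h1.trans h2⟩, rfl, h1, h2⟩
    · rintro ⟨t, ht, e, h1, h2⟩
      obtain ⟨⟨w, j⟩, -, rfl⟩ := mem_image.1 (mem_filter.1 ht).1
      simp only at e h1 h2
      subst e
      exact ⟨j, h1, h2⟩
  obtain ⟨T, hT, hR, hD⟩ := Evx.merge U (n * (k + 1)) _
    ((card_filter_le _ _).trans (card_image_le.trans (by simp))) h0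
  obtain ⟨f, fi, fm, fs, fo⟩ := Evx.enum T
  let e : Fin T.card → ℕ := fun i =>
    (univ.filter fun j => (f j).2.1 ≤ (f i).2.2).sup fun j => (j : ℕ)
  have he : ∀ i j : Fin T.card, (j : ℕ) ≤ e i ↔ (f j).2.1 ≤ (f i).2.2 := by
    intro i j
    constructor
    · intro h
      obtain ⟨j0, h1, h2⟩ := exists_mem_eq_sup
        (univ.filter fun j => (f j).2.1 ≤ (f i).2.2) ⟨i, by simpa using hR.1 _ (fm i)⟩
        fun j => (j : ℕ)
      have h3 : j ≤ j0 := by
        have : (j : ℕ) ≤ j0 := h.trans_eq h2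
        exact this
      exact (fo h3).trans (mem_filter.1 h1).2
    · intro h
      exact le_sup (f := fun j : Fin T.card => (j : ℕ)) (mem_filter.2 ⟨mem_univ _, h⟩)
  have hU : ∀ u v, u ≠ v → (G.Adj u v ↔ ∃ x, U u x ∧ U v x) := by
    intro u v huv
    rw [hP u v huv]
    constructor
    · rintro ⟨a, h1, h2⟩
      exact ⟨key a, ⟨a, h1, rfl⟩, ⟨a, h2, rfl⟩⟩
    · rintro ⟨x, ⟨a, h1, rfl⟩, ⟨b, h2, h3⟩⟩
      have := key_inj ((P v).edges_subset_edgeSet h2) ((P u).edges_subset_edgeSet h1) h3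
      exact ⟨a, h1, this ▸ h2⟩
  have hx : ∀ i j : Fin T.card, i < j → (j : ℕ) ≤ e i →
      U (f i).1 (f j).2.1 ∧ U (f j).1 (f j).2.1 := by
    intro i j hij h
    exact ⟨(hR.2 _ _).2 ⟨f i, fm i, rfl, fo hij.le, (he i j).1 h⟩,
      (hR.2 _ _).2 ⟨f j, fm j, rfl, le_rfl, hR.1 _ (fm j)⟩⟩
  refine ⟨T.card, fun i => (f i).1, e, hT, fun u v huv => ?_, fun i j hij h hl => ?_⟩
  · rw [hU u v huv]
    constructor
    · rintro ⟨x, h1, h2⟩
      obtain ⟨a, ha, a1, a2, a3⟩ := (hR.2 _ _).1 h1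
      obtain ⟨b, hb', b1, b2, b3⟩ := (hR.2 _ _).1 h2
      obtain ⟨i, rfl⟩ := fs a ha
      obtain ⟨j, rfl⟩ := fs b hb'
      rcases lt_trichotomy i j with h | h | h
      · exact ⟨i, j, h, (he i j).2 (b2.trans a3), Or.inl ⟨a1, b1⟩⟩
      · subst h
        exact absurd (a1.symm.trans b1) huv
      · exact ⟨j, i, h, (he j i).2 (a2.trans b3), Or.inr ⟨b1, a1⟩⟩
    · rintro ⟨i, j, hij, h, ⟨rfl, rfl⟩ | ⟨rfl, rfl⟩⟩
      · exact ⟨_, hx i j hij h⟩
      · exact ⟨_, (hx i j hij h).symm⟩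
  · exact hij.ne (fi (hD _ (fm i) _ (fm j) hl (f j).2.1 (fo hij.le) ((he i j).1 h) le_rfl
      (hR.1 _ (fm j))))

end Pool.Agent.Lib.MP_fe8c60_co.Sh
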