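import Pool.Agent.Lib.MP_fe8c60_co.Sh.St

/-! The upper bound from its parts and the limit from both bounds. -/

set_option autoImplicit false

namespace Pool.Agent.Lib.MP_fe8c60_co.Sh

open Finset Filter

theorem upper_st (hAlt : AltSt) (hAsm : AsmSt) (hBin : BinSt) (hS : StructSt) (hN : UpNumSt) :
    UpperSt := by
  intro ε hε
  obtain ⟨K, hK, h1⟩ := hN ε hε
  obtain ⟨θ, hθ, g0, hb⟩ := hBin K hK
  obtain ⟨η, hη, h2⟩ := h1 θ hθ
  obtain ⟨k, n1, hs⟩ := hS η hη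
  obtain ⟨n2, h3⟩ := h2 k g0
  refine ⟨max n1 n2, fun n hn G hG => ?_⟩
  obtain ⟨g, r, t, a1, a2, a3, a4, a5, a6⟩ := h3 n ((le_max_right _ _).trans hn)
  obtain ⟨𝒮, b1, b2, b3, b4⟩ := hAsm n G k K g r t η hG (hs n ((le_max_left _ _).trans hn) G hG)
    hK a2 a3 a5 (hb g a1 r a4)
  have ht : (0 : ℝ) < t := by exact_mod_cast a5
  have key : ∀ v, ((cv 𝒮 v + 3 * pv 𝒮 v : ℕ) : ℝ) ≤ (1 / 4 + ε) * n / Real.logb 2 n := by
    intro v
    have c1 : (pv 𝒮 v : ℝ) * t ≤ 3 * (n + 2 ^ g * (t : ℝ) ^ 3) := by exact_mod_cast b3 v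
    have c2 : 3 * (pv 𝒮 v : ℝ) ≤ 9 * (n + 2 ^ g * (t : ℝ) ^ 3) / t := by
      rw [le_div_iff₀ ht]
      linarith
    have c3 := b4 v
    push_cast
    linarith
  by_cases h0 : 0 ≤ (1 / 4 + ε) * n / Real.logb 2 n
  · refine ⟨⌊(1 / 4 + ε) * n / Real.logb 2 n⌋₊, Nat.floor_le h0, hAlt n G _ 𝒮 b1 b2 fun v => ?_⟩
    exact (Nat.le_floor (key v)).trans (Nat.le_succ _)
  · exfalso
    apply h0
    have : 0 ≤ Real.logb 2 (n : ℝ) := by
      rcases Nat.eq_zero_or_pos n with h | h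
      · simp [h]
      · exact Real.logb_nonneg (by norm_num) (by exact_mod_cast h)
    positivity

theorem path_walk {V : Type} {G : SimpleGraph V} {k : ℕ} (h : HasPathEPG G k) : HasEPG G k := by
  obtain ⟨s, t, P, h1, h2⟩ := h
  exact ⟨s, t, P, fun v => (h1 v).2, h2⟩

theorem walk_mono {V : Type} {G : SimpleGraph V} {k k' : ℕ} (h : HasEPG G k) (hk : k ≤ k') :
    HasEPG G k' := by
  obtain ⟨s, t, P, h1, h2⟩ := h
  exact ⟨s, t, P, fun v => (h1 v).trans hk, h2⟩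

theorem final_st (hB : BridgeSt) (hG : GeoSt) (hU : UpperSt) (hD : DetSt) (hL : LowAsmSt)
    (hN : LowNumSt) : FinalSt := by
  unfold FinalSt
  rw [Metric.tendsto_atTop]
  intro ε hε
  obtain ⟨n1, h1⟩ := hU (ε / 2) (by positivity)
  obtain ⟨n2, h2⟩ := hN (ε / 2) (by positivity)
  refine ⟨max (max n1 n2) 2, fun n hn => ?_⟩
  have hn1 : n1 ≤ n := ((le_max_left _ _).trans (le_max_left _ _)).trans hn
  have hn2 : n2 ≤ n := ((le_max_right _ _).trans (le_max_left _ _)).trans hn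
  have hn3 : 2 ≤ n := (le_max_right _ _).trans hn
  have hnR : (2 : ℝ) ≤ n := by exact_mod_cast hn3
  have hlog : 0 < Real.logb 2 (n : ℝ) := Real.logb_pos (by norm_num) (by linarith)
  have hq : 0 < (n : ℝ) / Real.logb 2 n := by positivity
  have hfin : {b | ∃ G : SimpleGraph (Fin n), ClawFree G ∧ bendNumber G = b}.Finite :=
    (Set.finite_range fun G : SimpleGraph (Fin n) => bendNumber G).subset
      fun b ⟨G, _, h⟩ => ⟨G, h⟩
  have hcob : ∀ F : Finset (Fin n × Fin n), ClawFree (cob F) := fun F => (hB n _).2 (hD.2.1 n F)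
  have hne : {b | ∃ G : SimpleGraph (Fin n), ClawFree G ∧ bendNumber G = b}.Nonempty :=
    ⟨_, cob ∅, hcob ∅, rfl⟩
  have hup : (maxBend n : ℝ) ≤ (1 / 4 + ε / 2) * n / Real.logb 2 n := by
    obtain ⟨G, c1, c2⟩ := Nat.sSup_mem hne hfin.bddAbove
    obtain ⟨k, c3, c4⟩ := h1 n hn1 G ((hB n G).1 c1)
    have c5 : bendNumber G ≤ k := Nat.sInf_le (hG n G k c4)
    have c6 : maxBend n = bendNumber G := c2.symm
    rw [c6]
    exact le_trans (by exact_mod_cast c5) c3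
  have hlo : (1 / 4 - ε / 2) * n / Real.logb 2 n ≤ (maxBend n : ℝ) := by
    obtain ⟨s, q, d1, d2, d3, d4⟩ := h2 n hn2
    refine d4 (maxBend n) (hL n (maxBend n) s q (by omega) d1 d2 d3 fun F _ => ?_)
    obtain ⟨k, -, c4⟩ := h1 n hn1 (cob F) (hD.2.1 n F)
    have c5 : HasPathEPG (cob F) (bendNumber (cob F)) :=
      Nat.sInf_mem (s := {k | HasPathEPG (cob F) k}) ⟨k, hG n _ k c4⟩
    exact walk_mono (path_walk c5) (le_csSup hfin.bddAbove ⟨cob F, hcob F, rfl⟩)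
  rw [mul_div_assoc] at hup hlo
  rw [Real.dist_eq, abs_lt]
  have e1 : (maxBend n : ℝ) / (n / Real.logb 2 n) ≤ 1 / 4 + ε / 2 := by rwa [div_le_iff₀ hq]
  have e2 : 1 / 4 - ε / 2 ≤ (maxBend n : ℝ) / (n / Real.logb 2 n) := by rwa [le_div_iff₀ hq]
  constructor <;> linarith

end Pool.Agent.Lib.MP_fe8c60_co.Sh
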