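import Pool.Agent.Lib.MP_fe8c60_co.Sh.St

/-! At least half of the cross-edge sets contain no `s × s` box. -/

set_option autoImplicit false

namespace Pool.Agent.Lib.MP_fe8c60_co.Sh

open Finset

namespace Free

theorem card_sA (n : ℕ) : (sA n).card = n / 2 := by
  unfold sA
  rw [Fin.card_filter_val_lt]
  omega

theorem card_sB (n : ℕ) : (sB n).card = n - n / 2 := by
  have h := card_filter_add_card_filter_not (s := (univ : Finset (Fin n)))
    (fun v : Fin n => (v : ℕ) < n / 2)
  have h2 := card_sA n
  unfold sA at h2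
  unfold sB
  rw [card_univ, Fintype.card_fin] at h
  omega

theorem sup_card {α : Type} [DecidableEq α] (U W : Finset α) :
    (U.powerset.filter fun F => W ⊆ F).card * 2 ^ W.card ≤ 2 ^ U.card := by
  by_cases hW : W ⊆ U
  · have h1 : (U.powerset.filter fun F => W ⊆ F) = Icc W U := by
      ext F
      simp only [mem_filter, mem_powerset, mem_Icc]
      tauto
    rw [h1, card_Icc_finset hW, ← pow_add, Nat.sub_add_cancel (card_le_card hW)]
  · have h1 : (U.powerset.filter fun F => W ⊆ F) = ∅ := by
      apply filter_eq_empty_iff.2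
      intro F hF hWF
      exact hW (hWF.trans (mem_powerset.1 hF))
    rw [h1]
    simp

end Free

theorem free_st : FreeSt := by
  classical
  intro n s h
  set U : Finset (Fin n × Fin n) := sA n ×ˢ sB n with hU
  have hUc : U.card = n / 2 * (n - n / 2) := by
    rw [hU, card_product, Free.card_sA, Free.card_sB]
  set P : Finset (Finset (Fin n) × Finset (Fin n)) :=
    powersetCard s (univ : Finset (Fin n)) ×ˢ powersetCard s (univ : Finset (Fin n)) with hP
  have hPc : P.card ≤ n ^ (2 * s) := by
    rw [hP, card_product, card_powersetCard, card_univ, Fintype.card_fin, two_mul, pow_add]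
    exact Nat.mul_le_mul (Nat.choose_le_pow n s) (Nat.choose_le_pow n s)
  have hsub : (U.powerset.filter fun F => ¬KFree F s) ⊆
      P.biUnion fun p => U.powerset.filter fun F => p.1 ×ˢ p.2 ⊆ F := by
    intro F hF
    rw [mem_filter] at hF
    obtain ⟨hFU, hK⟩ := hF
    unfold KFree at hK
    push Not at hK
    obtain ⟨S, T, hS, hT, hST⟩ := hK
    refine mem_biUnion.2 ⟨(S, T), ?_, mem_filter.2 ⟨hFU, hST⟩⟩
    rw [hP, mem_product, mem_powersetCard, mem_powersetCard]
    exact ⟨⟨subset_univ _, hS⟩, ⟨subset_univ _, hT⟩⟩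
  have hbad : (U.powerset.filter fun F => ¬KFree F s).card * 2 ^ (s * s) ≤
      n ^ (2 * s) * 2 ^ U.card := by
    calc (U.powerset.filter fun F => ¬KFree F s).card * 2 ^ (s * s)
        ≤ (∑ p ∈ P, (U.powerset.filter fun F => p.1 ×ˢ p.2 ⊆ F).card) * 2 ^ (s * s) :=
          Nat.mul_le_mul_right _ ((card_le_card hsub).trans card_biUnion_le)
      _ = ∑ p ∈ P, (U.powerset.filter fun F => p.1 ×ˢ p.2 ⊆ F).card * 2 ^ (s * s) := by
          rw [sum_mul]
      _ ≤ ∑ _p ∈ P, 2 ^ U.card := by
          apply sum_le_sum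
          intro p hp
          rw [hP, mem_product, mem_powersetCard, mem_powersetCard] at hp
          have := Free.sup_card U (p.1 ×ˢ p.2)
          rwa [card_product, hp.1.2, hp.2.2] at this
      _ = P.card * 2 ^ U.card := by rw [sum_const, smul_eq_mul]
      _ ≤ n ^ (2 * s) * 2 ^ U.card := Nat.mul_le_mul_right _ hPc
  have h2 : 2 * (U.powerset.filter fun F => ¬KFree F s).card ≤ 2 ^ U.card := by
    have h3 : (2 * (U.powerset.filter fun F => ¬KFree F s).card) * 2 ^ (s * s) ≤
        2 ^ U.card * 2 ^ (s * s) := by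
      calc (2 * (U.powerset.filter fun F => ¬KFree F s).card) * 2 ^ (s * s)
          = 2 * ((U.powerset.filter fun F => ¬KFree F s).card * 2 ^ (s * s)) := by ring
        _ ≤ 2 * (n ^ (2 * s) * 2 ^ U.card) := Nat.mul_le_mul_left _ hbad
        _ = (2 * n ^ (2 * s)) * 2 ^ U.card := by ring
        _ ≤ 2 ^ (s * s) * 2 ^ U.card := Nat.mul_le_mul_right _ h
        _ = 2 ^ U.card * 2 ^ (s * s) := by ring
    exact Nat.le_of_mul_le_mul_right h3 (by positivity)
  have h4 := card_filter_add_card_filter_not (s := U.powerset) (fun F => KFree F s)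
  rw [card_powerset] at h4
  rw [← hUc]
  omega

end Pool.Agent.Lib.MP_fe8c60_co.Sh
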