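import Pool.Agent.Lib.MP_fe8c60_co.Sh.St

set_option autoImplicit false

namespace Pool.Agent.Lib.MP_fe8c60_co.Sh

namespace Geo

open SimpleGraph

/-- the point with parameter `z` on line `i` (horizontal if `b`, vertical otherwise) -/
def pt (b : Bool) (i z : ℤ) : ℤ × ℤ := if b then (z, i) else (i, z)

/-- the unit edge at parameter `z` on line `i` -/
def ed (b : Bool) (i z : ℤ) : Sym2 (ℤ × ℤ) := s(pt b i z, pt b i (z + 1))

/-- consecutive members of `U` have different orientations -/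
def Alt (o : ℤ → Bool) (U : Finset ℤ) : Prop :=
  ∀ i ∈ U, ∀ j ∈ U, i < j → (∀ k ∈ U, ¬ (i < k ∧ k < j)) → o i ≠ o j

lemma adj_pt (b : Bool) (i z : ℤ) : grid.Adj (pt b i z) (pt b i (z + 1)) := by
  cases b <;> simp [pt, grid]

lemma ed_inj {b b' : Bool} {i i' z z' : ℤ} (h : ed b i z = ed b' i' z') : b = b' ∧ i = i' := by
  cases b <;> cases b' <;> simp [ed, pt] at h ⊢ <;> omega

def GoodW (p q : ℤ × ℤ) (k : ℕ) (S T : Sym2 (ℤ × ℤ) → Prop) : Prop :=
  ∃ (h : grid.Adj p q) (t : ℤ × ℤ) (Q : grid.Walk q t), Q.IsPath ∧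
    (∀ r ∈ Q.support, p.1 + p.2 < r.1 + r.2) ∧ bends (Walk.cons h Q) ≤ k ∧
    (∀ e ∈ (Walk.cons h Q).edges, S e) ∧ ∀ e, T e → e ∈ (Walk.cons h Q).edges

lemma GoodW.mono {p q : ℤ × ℤ} {k k' : ℕ} {S T T' : Sym2 (ℤ × ℤ) → Prop} (g : GoodW p q k S T)
    (hk : k ≤ k') (hT : ∀ e, T' e → T e ∨ e = s(p, q)) : GoodW p q k' S T' := by
  obtain ⟨h, t, Q, h1, h2, h3, h4, h5⟩ := g
  refine ⟨h, t, Q, h1, h2, h3.trans hk, h4, fun e he => ?_⟩
  rcases hT e he with h6 | rfl
  · exact h5 e h6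
  · simp

lemma GoodW.step {p q r : ℤ × ℤ} {k : ℕ} {S T : Sym2 (ℤ × ℤ) → Prop} (g : GoodW q r k S T)
    (h : grid.Adj p q) (hs : p.1 + p.2 < q.1 + q.2) (hS : S s(p, q)) :
    GoodW p q (k + if (p.2 = q.2 ↔ q.2 = r.2) then 0 else 1) S (fun e => T e ∨ e = s(q, r)) := by
  obtain ⟨h', t, Q, h1, h2, h3, h4, h5⟩ := g
  refine ⟨h, t, Walk.cons h' Q, ?_, ?_, ?_, ?_, ?_⟩
  · rw [Walk.cons_isPath_iff]
    exact ⟨h1, fun hq => lt_irrefl _ (h2 q hq)⟩
  · intro x hx
    rw [Walk.support_cons, List.mem_cons] at hx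
    rcases hx with rfl | hx
    · exact hs
    · exact hs.trans (h2 x hx)
  · rw [bends_cons_cons]
    omega
  · intro e he
    rw [Walk.edges_cons, List.mem_cons] at he
    rcases he with rfl | he
    · exact hS
    · exact h4 e he
  · intro e he
    rw [Walk.edges_cons]
    refine List.mem_cons_of_mem _ ?_
    rcases he with he | rfl
    · exact h5 e he
    · simp

lemma GoodW.back {b : Bool} {i y : ℤ} {k : ℕ} {S T : Sym2 (ℤ × ℤ) → Prop}
    (g : GoodW (pt b i y) (pt b i (y + 1)) k S T) (hS : ∀ w, S (ed b i w)) (m : ℕ) :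
    GoodW (pt b i (y - m)) (pt b i (y - m + 1)) k S
      (fun e => T e ∨ ∃ w, y - m ≤ w ∧ w ≤ y ∧ e = ed b i w) := by
  induction m with
  | zero =>
    simp only [Nat.cast_zero, sub_zero]
    refine g.mono le_rfl fun e he => ?_
    rcases he with he | ⟨w, h1, h2, rfl⟩
    · exact Or.inl he
    · obtain rfl : w = y := le_antisymm h2 h1
      exact Or.inr rfl
  | succ m ih =>
    have e1 : y - ((m + 1 : ℕ) : ℤ) + 1 = y - m := by push_cast; ring
    have ha := adj_pt b i (y - ((m + 1 : ℕ) : ℤ))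
    have hs := hS (y - ((m + 1 : ℕ) : ℤ))
    unfold ed at hs
    rw [e1] at ha hs ⊢
    refine (ih.step ha ?_ hs).mono ?_ fun e he => ?_
    · cases b <;> simp [pt]
    · have : ((pt b i (y - ((m + 1 : ℕ) : ℤ))).2 = (pt b i (y - m)).2 ↔
          (pt b i (y - m)).2 = (pt b i (y - m + 1)).2) := by
        cases b <;> simp [pt]
      rw [if_pos this]
      exact le_rfl
    · rcases he with he | ⟨w, h1, h2, rfl⟩
      · exact Or.inl (Or.inl (Or.inl he))
      · by_cases hw : y - m ≤ w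
        · exact Or.inl (Or.inl (Or.inr ⟨w, hw, h2, rfl⟩))
        · obtain rfl : w = y - ((m + 1 : ℕ) : ℤ) := by push_cast at h1 ⊢; omega
          refine Or.inr ?_
          unfold ed
          rw [e1]

lemma GoodW.back' {b : Bool} {i y z : ℤ} {k : ℕ} {S T : Sym2 (ℤ × ℤ) → Prop}
    (g : GoodW (pt b i y) (pt b i (y + 1)) k S T) (hS : ∀ w, S (ed b i w)) (hz : z ≤ y) :
    GoodW (pt b i z) (pt b i (z + 1)) k S
      (fun e => T e ∨ ∃ w, z ≤ w ∧ w ≤ y ∧ e = ed b i w) := by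
  have := g.back hS (y - z).toNat
  have e1 : y - (((y - z).toNat : ℕ) : ℤ) = z := by omega
  rwa [e1] at this

lemma stair_aux (o : ℤ → Bool) (S : Sym2 (ℤ × ℤ) → Prop) (c : ℕ) :
    ∀ (U : Finset ℤ) (i : ℤ), U.card = c + 1 → i ∈ U → (∀ j ∈ U, i ≤ j) → Alt o U →
      (∀ j ∈ U, ∀ w, S (ed (o j) j w)) → ∀ z ≤ i,
        GoodW (pt (o i) i z) (pt (o i) i (z + 1)) c S (fun e => ∃ j ∈ U, e = ed (o j) j j) := by
  induction c with
  | zero =>
    intro U i hc hi _ _ hS z hz
    obtain ⟨a, rfl⟩ := Finset.card_eq_one.1 hc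
    obtain rfl : i = a := Finset.mem_singleton.1 hi
    have g : GoodW (pt (o i) i i) (pt (o i) i (i + 1)) 0 S (fun _ => False) := by
      refine ⟨adj_pt _ _ _, _, Walk.nil, Walk.IsPath.nil, ?_, ?_, ?_, fun _ h => h.elim⟩
      · intro r hr
        rw [Walk.support_nil, List.mem_singleton] at hr
        subst hr
        cases o i <;> simp [pt]
      · simp [bends]
      · intro e he
        simp only [Walk.edges_cons, Walk.edges_nil, List.mem_singleton] at he
        subst he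
        exact hS i hi i
    refine (g.back' (hS i hi) hz).mono le_rfl fun e he => ?_
    obtain ⟨j, hj, rfl⟩ := he
    obtain rfl : j = i := Finset.mem_singleton.1 hj
    exact Or.inl (Or.inr ⟨j, hz, le_rfl, rfl⟩)
  | succ c ih =>
    intro U i hc hi hmin hA hS z hz
    have hc' : (U.erase i).card = c + 1 := by rw [Finset.card_erase_of_mem hi, hc]; rfl
    have hne : (U.erase i).Nonempty := Finset.card_pos.1 (by omega)
    obtain ⟨j, hj, hjmin⟩ := Finset.exists_min_image (U.erase i) id hne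
    have hjU := Finset.mem_of_mem_erase hj
    have hij : i < j := lt_of_le_of_ne (hmin j hjU) (Finset.ne_of_mem_erase hj).symm
    have ho : o i ≠ o j := hA i hi j hjU hij fun k hk hk' =>
      absurd (hjmin k (Finset.mem_erase.2 ⟨hk'.1.ne', hk⟩)) (not_le.2 hk'.2)
    have hA' : Alt o (U.erase i) := by
      intro a ha b hb hab hk
      refine hA a (Finset.mem_of_mem_erase ha) b (Finset.mem_of_mem_erase hb) hab fun k hkU hk' => ?_
      refine hk k (Finset.mem_erase.2 ⟨?_, hkU⟩) hk'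
      rintro rfl
      exact absurd (hmin a (Finset.mem_of_mem_erase ha)) (not_le.2 hk'.1)
    have g := ih (U.erase i) j hc' hj hjmin hA'
      (fun a ha => hS a (Finset.mem_of_mem_erase ha)) i hij.le
    have e1 : pt (o j) j i = pt (o i) i (j - 1 + 1) := by
      revert ho
      cases o i <;> cases o j <;> simp [pt]
    rw [e1] at g
    have g2 := (g.step (adj_pt (o i) i (j - 1)) (by cases o i <;> simp [pt]) (hS i hi (j - 1))).mono
      (k' := c + 1) (T' := fun e => ∃ a ∈ U.erase i, e = ed (o a) a a)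
      (by split_ifs <;> omega) (fun e he => Or.inl (Or.inl he))
    refine (g2.back' (hS i hi) (by omega : z ≤ j - 1)).mono le_rfl fun e he => ?_
    obtain ⟨a, ha, rfl⟩ := he
    by_cases hai : a = i
    · subst hai
      exact Or.inl (Or.inr ⟨a, hz, by omega, rfl⟩)
    · exact Or.inl (Or.inl ⟨a, Finset.mem_erase.2 ⟨hai, ha⟩, rfl⟩)

/-- A finite alternating set of lines carries a staircase path with fewer bends than lines, which
runs on these lines only and uses the diagonal edge of each. -/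
theorem stair (o : ℤ → Bool) (U : Finset ℤ) (hU : U.Nonempty) (hA : Alt o U) :
    ∃ (s t : ℤ × ℤ) (P : grid.Walk s t), P.IsPath ∧ bends P + 1 ≤ U.card ∧
      (∀ e ∈ P.edges, ∃ j ∈ U, ∃ w, e = ed (o j) j w) ∧ ∀ j ∈ U, ed (o j) j j ∈ P.edges := by
  obtain ⟨i, hi, hmin⟩ := Finset.exists_min_image U id hU
  obtain ⟨c, hc⟩ : ∃ c, U.card = c + 1 := ⟨U.card - 1, by have := hU.card_pos; omega⟩
  obtain ⟨h, t, Q, h1, h2, h3, h4, h5⟩ :=
    stair_aux o (fun e => ∃ j ∈ U, ∃ w, e = ed (o j) j w) c U i hc hi hmin hA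
      (fun j hj w => ⟨j, hj, w, rfl⟩) i le_rfl
  refine ⟨_, t, Walk.cons h Q, ?_, by omega, h4, fun j hj => h5 _ ⟨j, hj, rfl⟩⟩
  rw [Walk.cons_isPath_iff]
  exact ⟨h1, fun hq => lt_irrefl _ (h2 _ hq)⟩

lemma chain_alt (l : List ℕ) (h : l.IsChain (fun a b => a < b ∧ a % 2 ≠ b % 2)) :
    (∀ a, l.head? = some a → ∀ x ∈ l, a ≤ x) ∧
      ∀ i ∈ l, ∀ j ∈ l, i < j → (∀ k ∈ l, ¬ (i < k ∧ k < j)) → i % 2 ≠ j % 2 := by
  induction l with
  | nil => simp
  | cons a l ih =>
    cases l with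
    | nil =>
      refine ⟨by simp, fun i hi j hj hij _ => ?_⟩
      simp only [List.mem_singleton] at hi hj
      omega
    | cons b l =>
      rw [List.isChain_cons_cons] at h
      obtain ⟨h1, h2⟩ := ih h.2
      have h3 := h1 b rfl
      have h4 := h.1.1
      refine ⟨fun a' ha' x hx => ?_, fun i hi j hj hij hk => ?_⟩
      · obtain rfl : a = a' := by simpa using ha'
        rcases List.mem_cons.1 hx with rfl | hx
        · exact le_rfl
        · exact h4.le.trans (h3 x hx)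
      · rcases List.mem_cons.1 hi with hi' | hi'
        · rcases List.mem_cons.1 hj with hj' | hj'
          · omega
          · have h5 := h3 j hj'
            have h6 := hk b (by simp)
            have h7 := h.1.2
            have h8 : j = b := by omega
            omega
        · rcases List.mem_cons.1 hj with hj' | hj'
          · have := h3 i hi'
            omega
          · exact h2 i hi' j hj' hij fun k hk' => hk k (List.mem_cons_of_mem _ hk')

/-- even lines are horizontal -/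
def par (i : ℤ) : Bool := decide (i % 2 = 0)

lemma walk_of_list (l : List ℕ) (k : ℕ) (h : l.IsChain (fun a b => a < b ∧ a % 2 ≠ b % 2))
    (hk : l.length ≤ k + 1) :
    ∃ (s t : ℤ × ℤ) (P : grid.Walk s t), P.IsPath ∧ bends P ≤ k ∧
      (∀ e ∈ P.edges, ∃ j ∈ l, ∃ w, e = ed (par j) j w) ∧ ∀ j ∈ l, ed (par j) j j ∈ P.edges := by
  rcases eq_or_ne l [] with rfl | hl
  · exact ⟨(0, 0), (0, 0), Walk.nil, Walk.IsPath.nil, by simp [bends], by simp, by simp⟩
  have hmem : ∀ z : ℤ, z ∈ l.toFinset.image (fun a : ℕ => (a : ℤ)) ↔ ∃ a ∈ l, (a : ℤ) = z := by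
    intro z
    simp
  obtain ⟨a, ha⟩ := List.exists_mem_of_ne_nil l hl
  obtain ⟨s, t, P, h1, h2, h3, h4⟩ := stair par (l.toFinset.image (fun a : ℕ => (a : ℤ)))
    ⟨a, (hmem _).2 ⟨a, ha, rfl⟩⟩ (by
      intro i hi j hj hij hk'
      obtain ⟨i', hi', rfl⟩ := (hmem _).1 hi
      obtain ⟨j', hj', rfl⟩ := (hmem _).1 hj
      have := (chain_alt l h).2 i' hi' j' hj' (by exact_mod_cast hij) fun k hkl hk2 =>
        hk' k ((hmem _).2 ⟨k, hkl, rfl⟩) ⟨by exact_mod_cast hk2.1, by exact_mod_cast hk2.2⟩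
      simp only [par, ne_eq, decide_eq_decide]
      omega)
  refine ⟨s, t, P, h1, ?_, fun e he => ?_, fun j hj => h4 _ ((hmem _).2 ⟨j, hj, rfl⟩)⟩
  · have h5 := Finset.card_image_le (s := l.toFinset) (f := fun a : ℕ => (a : ℤ))
    have h6 := List.toFinset_card_le l
    omega
  · obtain ⟨j, hj, w, rfl⟩ := h3 e he
    obtain ⟨j', hj', rfl⟩ := (hmem _).1 hj
    exact ⟨j', hj', w, rfl⟩

end Geo

theorem geo_st : GeoSt := by
  rintro n G k ⟨S, hS, hG⟩
  choose s t P h1 h2 h3 h4 using fun v => Geo.walk_of_list (S v) k (hS v).1 (hS v).2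
  refine ⟨s, t, P, fun v => ⟨h1 v, h2 v⟩, fun u v huv => ?_⟩
  rw [hG u v huv]
  constructor
  · rintro ⟨j, hu, hv⟩
    exact ⟨_, h4 u j hu, h4 v j hv⟩
  · rintro ⟨e, hu, hv⟩
    obtain ⟨j, hj, w, rfl⟩ := h3 u e hu
    obtain ⟨j', hj', w', he⟩ := h3 v _ hv
    have h5 : j = j' := by exact_mod_cast (Geo.ed_inj he).2
    exact ⟨j, hj, h5 ▸ hj'⟩

end Pool.Agent.Lib.MP_fe8c60_co.Sh
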