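import Pool.Agent.Lib.MP_fe8c60_co.Sh.St

/-! Stations for the left-over vertices. -/

set_option autoImplicit false

namespace Pool.Agent.Lib.MP_fe8c60_co.Sh

open Finset

theorem left_st (hG : GroupSt) : LeftSt := by
  classical
  intro n G R t hCF ht
  have hmem : ∀ b x U, x ∈ nb G b U ↔ x ∈ U ∧ G.Adj b x := by
    intro b x U; simp [nb]
  have hK : ∀ a : Fin n, ∃ 𝒮 : Finset (Sta n), Cliq G 𝒮 ∧
      (∀ s ∈ 𝒮, s.1 ⊆ {a} ∧ s.2 ⊆ nb G a univ) ∧ 𝒮.card * t ≤ n + t ^ 3 ∧ (∀ v, cv 𝒮 v ≤ 1) ∧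
      ∀ b, G.Adj a b → Cv 𝒮 a b := by
    intro a
    obtain ⟨𝒮, h1, h2, h3, h4, h5⟩ := hG n G {a} (nb G a univ) {{a}} t hCF (by simp) (by
      intro b hb
      rw [mem_singleton]
      ext x
      rw [hmem, mem_singleton]
      exact ⟨fun h => h.1, fun h => ⟨h, h ▸ ((hmem a b _).1 hb).2.symm⟩⟩) ht
    refine ⟨𝒮, h1, h2, by simpa using h3, h4, fun b hb => ?_⟩
    exact h5 a (mem_singleton_self a) b ((hmem a b _).2 ⟨mem_univ _, hb⟩) hb
  choose K hK using hK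
  refine ⟨R.biUnion K, ?_, ?_, ?_, ?_, ?_⟩
  · intro s hs
    obtain ⟨a, _, h⟩ := mem_biUnion.1 hs
    exact (hK a).1 s h
  · intro s hs x hx
    obtain ⟨a, ha, h⟩ := mem_biUnion.1 hs
    have := mem_singleton.1 (((hK a).2.1 s h).1 hx)
    exact this ▸ ha
  · intro v
    refine le_trans (Nat.mul_le_mul_right _ (card_le_card ?_)) (hK v).2.2.1
    intro s hs
    obtain ⟨hs, hv⟩ := mem_filter.1 hs
    obtain ⟨a, _, h⟩ := mem_biUnion.1 hs
    have := mem_singleton.1 (((hK a).2.1 s h).1 hv)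
    exact this ▸ h
  · intro v
    have hsub : (R.biUnion K).filter (fun s => v ∈ s.2) ⊆
        (nb G v R).biUnion fun a => (K a).filter fun s => v ∈ s.2 := by
      intro s hs
      obtain ⟨hs, hv⟩ := mem_filter.1 hs
      obtain ⟨a, ha, h⟩ := mem_biUnion.1 hs
      have h1 := ((hmem a v _).1 (((hK a).2.1 s h).2 hv)).2
      exact mem_biUnion.2 ⟨a, (hmem v a _).2 ⟨ha, h1.symm⟩, mem_filter.2 ⟨h, hv⟩⟩
    calc cv (R.biUnion K) v ≤ _ := card_le_card hsub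
      _ ≤ ∑ a ∈ nb G v R, ((K a).filter fun s => v ∈ s.2).card := card_biUnion_le
      _ ≤ ∑ _a ∈ nb G v R, 1 := sum_le_sum fun a _ => (hK a).2.2.2.1 v
      _ = (nb G v R).card := by simp
  · intro a ha b hab
    obtain ⟨s, hs, h⟩ := (hK a).2.2.2.2 b hab
    exact ⟨s, mem_biUnion.2 ⟨a, ha, hs⟩, h⟩

end Pool.Agent.Lib.MP_fe8c60_co.Sh
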