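import Pool.Agent.Lib.MP_fe8c60_co.Sh.St

set_option autoImplicit false

namespace Pool.Agent.Lib.MP_fe8c60_co.Sh

open Finset

namespace Longx

variable {n N : ℕ}

/-- long events of one block and one side are fewer than `s` -/
theorem block {s q : ℕ} {F : Finset (Fin n × Fin n)} {l : Fin N → Fin n} {e : Fin N → ℕ}
    (hF : F ⊆ sA n ×ˢ sB n) (hK : KFree F s) (hs : 1 ≤ s) (hq : s ≤ q) (hE : Ev (cob F) l e)
    (b : ℕ) (side : Prop) (I : Finset (Fin N)) (h1 : ∀ i ∈ I, 2 * q < (hit l e i).card)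
    (h2 : ∀ i ∈ I, (i : ℕ) / q = b) (h3 : ∀ i ∈ I, (l i ∈ sA n ↔ side)) : I.card ≤ s := by
  classical
  by_contra hc
  obtain ⟨J, hJ, cJ⟩ := exists_subset_card_eq (not_le.1 hc).le
  have hq0 : 0 < q := by omega
  have lo : ∀ i ∈ I, b * q ≤ (i : ℕ) := fun i hi => by
    rw [← h2 i hi]; exact Nat.div_mul_le_self _ _
  have up : ∀ i ∈ I, (i : ℕ) < b * q + q := fun i hi => by
    rw [← h2 i hi]; exact Nat.lt_div_mul_add hq0
  -- late labels
  have late : ∀ i ∈ I, q < ((univ.filter fun j : Fin N => b * q + q ≤ (j : ℕ) ∧ (j : ℕ) ≤ e i ∧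
      ¬(l i ∈ sA n ↔ l j ∈ sA n)).image l).card := by
    intro i hi
    have h4 : hit l e i ⊆ ((univ.filter fun j : Fin N => b * q + q ≤ (j : ℕ) ∧ (j : ℕ) ≤ e i ∧
        ¬(l i ∈ sA n ↔ l j ∈ sA n)).image l) ∪
        (univ.filter fun j : Fin N => (j : ℕ) ∈ Ico (b * q) (b * q + q)).image l := by
      intro v hv
      obtain ⟨j, hj, rfl⟩ := mem_image.1 hv
      obtain ⟨j1, j2, j3⟩ := (mem_filter.1 hj).2
      by_cases k : b * q + q ≤ (j : ℕ)
      · exact mem_union_left _ (mem_image_of_mem _ (mem_filter.2 ⟨mem_univ _, k, j2, j3⟩))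
      · refine mem_union_right _ (mem_image_of_mem _ (mem_filter.2 ⟨mem_univ _, mem_Ico.2 ?_⟩))
        have := lo i hi
        have : (i : ℕ) < j := j1
        omega
    have h5 : (univ.filter fun j : Fin N => (j : ℕ) ∈ Ico (b * q) (b * q + q)).card ≤ q := by
      have := card_le_card_of_injOn (s := univ.filter fun j : Fin N =>
        (j : ℕ) ∈ Ico (b * q) (b * q + q)) (t := Ico (b * q) (b * q + q)) (fun j => (j : ℕ))
        (fun j hj => (mem_filter.1 hj).2) (fun j _ j' _ h => Fin.ext h)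
      simpa using this
    have h6 := (card_le_card h4).trans ((card_union_le _ _).trans
      (Nat.add_le_add_left (card_image_le.trans h5) _))
    have := h1 i hi
    omega
  have far : ∀ i ∈ I, b * q + q ≤ e i := by
    intro i hi
    obtain ⟨v, hv⟩ := card_pos.1 (lt_of_le_of_lt (Nat.zero_le _) (late i hi))
    obtain ⟨j, hj, -⟩ := mem_image.1 hv
    exact (mem_filter.1 hj).2.1.trans (mem_filter.1 hj).2.2.1
  have inj : Set.InjOn l J := by
    intro i hi j hj h
    by_contra hne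
    rcases lt_or_gt_of_ne hne with k | k
    · exact hE.2 i j k ((up j (hJ hj)).le.trans (far i (hJ hi))) h
    · exact hE.2 j i k ((up i (hJ hi)).le.trans (far j (hJ hj))) h.symm
  obtain ⟨i0, hi0, hmin⟩ := exists_min_image J e (card_pos.1 (by omega))
  obtain ⟨T, hT, cT⟩ := exists_subset_card_eq (hq.trans (late i0 (hJ hi0)).le)
  have cS : (J.image l).card = s := by rw [card_image_of_injOn inj, cJ]
  have adj : ∀ u ∈ J.image l, ∀ v ∈ T, (u ∈ sA n ↔ side) ∧ ¬(u ∈ sA n ↔ v ∈ sA n) ∧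
      ((u, v) ∈ F ∨ (v, u) ∈ F) := by
    intro u hu v hv
    obtain ⟨i, hi, rfl⟩ := mem_image.1 hu
    obtain ⟨j, hj, rfl⟩ := mem_image.1 (hT hv)
    obtain ⟨j1, j2, j3⟩ := (mem_filter.1 hj).2
    have k1 : ¬(l i ∈ sA n ↔ l j ∈ sA n) := fun k =>
      j3 (((h3 i0 (hJ hi0)).trans (h3 i (hJ hi)).symm).trans k)
    have k2 : l i ≠ l j := fun k => k1 (by rw [k])
    have k3 : (cob F).Adj (l i) (l j) := (hE.1 _ _ k2).2 ⟨i, j,
      Fin.lt_def.2 (Nat.lt_of_lt_of_le (up i (hJ hi)) j1), j2.trans (hmin i hi), Or.inl ⟨rfl, rfl⟩⟩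
    exact ⟨h3 i (hJ hi), k1, k3.2.resolve_left k1⟩
  by_cases hs' : side
  · refine hK _ T cS cT fun z hz => ?_
    obtain ⟨a1, a2, a3⟩ := adj z.1 (mem_product.1 hz).1 z.2 (mem_product.1 hz).2
    exact a3.resolve_right fun k =>
      a2 ⟨fun _ => (mem_product.1 (hF k)).1, fun _ => a1.2 hs'⟩
  · refine hK T _ cT cS fun z hz => ?_
    obtain ⟨a1, -, a3⟩ := adj z.2 (mem_product.1 hz).2 z.1 (mem_product.1 hz).1
    exact a3.resolve_left fun k => hs' (a1.1 (mem_product.1 (hF k)).1)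

end Longx

theorem long_st : LongSt := by
  classical
  intro n N s q F l e hF hK hs hq hE
  have h : ∀ side : Prop, (univ.filter fun i => 2 * q < (hit l e i).card ∧
      (l i ∈ sA n ↔ side)).card ≤ s * (N / q + 1) := by
    intro side
    have := card_le_mul_card_image_of_maps_to (s := univ.filter fun i =>
      2 * q < (hit l e i).card ∧ (l i ∈ sA n ↔ side)) (t := range (N / q + 1))
      (f := fun i : Fin N => (i : ℕ) / q)
      (fun i _ => mem_range.2 (Nat.lt_succ_of_le (Nat.div_le_div_right i.2.le))) s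
      (fun b _ => Longx.block hF hK hs hq hE b side _
        (fun i hi => (mem_filter.1 (mem_filter.1 hi).1).2.1) (fun i hi => (mem_filter.1 hi).2)
        (fun i hi => (mem_filter.1 (mem_filter.1 hi).1).2.2))
    rwa [card_range] at this
  have h1 : (univ.filter fun i => 2 * q < (hit l e i).card) ⊆
      (univ.filter fun i => 2 * q < (hit l e i).card ∧ (l i ∈ sA n ↔ True)) ∪
      (univ.filter fun i => 2 * q < (hit l e i).card ∧ (l i ∈ sA n ↔ False)) := by
    intro i hi
    have k := (mem_filter.1 hi).2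
    by_cases a : l i ∈ sA n
    · exact mem_union_left _ (mem_filter.2 ⟨mem_univ _, k, by simp [a]⟩)
    · exact mem_union_right _ (mem_filter.2 ⟨mem_univ _, k, by simp [a]⟩)
  have h2 := (card_le_card h1).trans (card_union_le _ _)
  have h3 := h True
  have h4 := h False
  rw [mul_assoc, two_mul (s * (N / q + 1))]
  refine h2.trans ?_
  exact Nat.add_le_add (by convert h3) (by convert h4)

end Pool.Agent.Lib.MP_fe8c60_co.Sh
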