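import Pool.Agent.Lib.MP_fe8c60_co.Sh.St

/-! The count of representable co-bipartite graphs. -/

set_option autoImplicit false

namespace Pool.Agent.Lib.MP_fe8c60_co.Sh

open Finset

theorem lowAsm_st (hEv : EvSt) (hLong : LongSt) (hDet : DetSt) (hFree : FreeSt) : LowAsmSt := by
  classical
  intro n k s q hn hs hq hp hall
  refine (hFree n s hp).trans (Nat.mul_le_mul_left 2 ?_)
  set M := n * (k + 1) with hM
  set 𝓕 := (sA n ×ˢ sB n).powerset.filter fun F => KFree F s with h𝓕
  let T : ℕ → Finset (Finset (Fin n × Fin n)) := fun N =>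
    𝓕.filter fun F => ∃ (l : Fin N → Fin n) (e : Fin N → ℕ), Ev (cob F) l e
  have hsub : 𝓕 ⊆ (range (M + 1)).biUnion T := by
    intro F hF
    obtain ⟨N, l, e, h1, h2⟩ := hEv n (cob F) k (hall F (mem_powerset.1 (mem_filter.1 hF).1))
    exact mem_biUnion.2 ⟨N, mem_range.2 (by omega), mem_filter.2 ⟨hF, l, e, h2⟩⟩
  have hT : ∀ N ∈ range (M + 1), (T N).card ≤
      n ^ M * 2 ^ M * (2 * q + 1) ^ M * (n + 1) ^ (2 * s * (M / q + 1)) := by
    intro N hN
    have hNM : N ≤ M := by have := mem_range.1 hN; omega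
    have hex : ∀ F : T N, ∃ (l : Fin N → Fin n) (e : Fin N → ℕ), Ev (cob F.1) l e :=
      fun F => (mem_filter.1 F.2).2
    choose l e hle using hex
    have hc : ∀ (F : T N) (i : Fin N), (hit (l F) (e F) i).card < n + 1 := fun F i =>
      Nat.lt_succ_of_le ((card_le_univ _).trans (by simp))
    have hF : ∀ F : T N, F.1 ⊆ sA n ×ˢ sB n ∧ KFree F.1 s := fun F =>
      ⟨mem_powerset.1 (mem_filter.1 (mem_filter.1 F.2).1).1, (mem_filter.1 (mem_filter.1 F.2).1).2⟩
    let C : Finset (Fin N → Fin (n + 1)) := univ.filter fun c =>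
      (univ.filter fun i => 2 * q < (c i : ℕ)).card ≤ 2 * s * (M / q + 1)
    let f : T N → (Fin N → Fin n) × (Fin N → Fin (n + 1)) := fun F => (l F, fun i => ⟨_, hc F i⟩)
    have h1 : (univ : Finset (T N)).card ≤ ((univ : Finset (Fin N → Fin n)) ×ˢ C).card := by
      refine card_le_card_of_injOn f (fun F _ => ?_) fun F _ F' _ h => ?_
      · refine mem_coe.2 (mem_product.2 ⟨mem_univ _, mem_filter.2 ⟨mem_univ _, ?_⟩⟩)
        refine (hLong n N s q F.1 (l F) (e F) (hF F).1 (hF F).2 hs hq (hle F)).trans ?_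
        exact Nat.mul_le_mul_left _ (Nat.succ_le_succ (Nat.div_le_div_right hNM))
      · have a1 : l F = l F' := congrArg Prod.fst h
        have a2 : ∀ i, (hit (l F) (e F) i).card = (hit (l F') (e F') i).card := fun i =>
          congrArg Fin.val (congrFun (congrArg Prod.snd h) i)
        have a3 := hle F'
        rw [← a1] at a2 a3
        exact Subtype.ext (hDet.1 n N F.1 F'.1 (l F) (e F) (e F') (hF F).1 (hF F').1 (hle F) a3 a2)
    rw [card_univ, Fintype.card_coe, card_product, card_univ, Fintype.card_fun, Fintype.card_fin,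
      Fintype.card_fin] at h1
    refine h1.trans ?_
    have h2 := hDet.2.2 n N (2 * q) (2 * s * (M / q + 1))
    calc n ^ N * C.card ≤ n ^ M * (2 ^ N * (2 * q + 1) ^ N * (n + 1) ^ (2 * s * (M / q + 1))) :=
          Nat.mul_le_mul (Nat.pow_le_pow_right hn hNM) h2
      _ ≤ n ^ M * (2 ^ M * (2 * q + 1) ^ M * (n + 1) ^ (2 * s * (M / q + 1))) := by
          gcongr <;> omega
      _ = _ := by ring
  refine (card_le_card hsub).trans ((card_biUnion_le_card_mul _ _ _ hT).trans (le_of_eq ?_))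
  rw [card_range]
  ring

end Pool.Agent.Lib.MP_fe8c60_co.Sh
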