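import Pool.Agent.Lib.MP_fe8c60_co.Sh.St

set_option autoImplicit false

namespace Pool.Agent.Lib.MP_fe8c60_co.Sh

open Filter

namespace LowNum

lemma sq_le (A : ℕ) : ∃ u0 : ℕ, ∀ u ≥ u0, A * u ^ 2 ≤ 2 ^ u := by
  have h := (tendsto_pow_const_div_const_pow_of_one_lt 2 (r := 2) one_lt_two).eventually
    (gt_mem_nhds (show (0 : ℝ) < 1 / (A + 1) by positivity))
  obtain ⟨u0, h⟩ := eventually_atTop.1 h
  refine ⟨u0, fun u hu => ?_⟩
  have k := h u hu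
  rw [div_lt_div_iff₀ (by positivity) (by positivity)] at k
  have : (A : ℝ) * u ^ 2 ≤ 2 ^ u := by nlinarith [sq_nonneg (u : ℝ)]
  exact_mod_cast this

lemma ev (T : ℕ) (hT : 1 ≤ T) : ∃ g0 : ℕ, ∀ g ≥ g0, 2 * (2 * g + 3) ^ 2 + 1 ≤ 2 ^ (g / T) := by
  obtain ⟨u0, h⟩ := sq_le (99 * T ^ 2)
  refine ⟨T * (u0 + 1), fun g hg => ?_⟩
  have h1 : u0 + 1 ≤ g / T := (Nat.le_div_iff_mul_le hT).2 (by rwa [mul_comm])
  refine le_trans ?_ (h _ (by omega))
  have h2 : g < T * (g / T + 1) := Nat.lt_mul_div_succ g hT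
  set u := g / T
  have h3 : T ≤ T * u := Nat.le_mul_of_pos_right _ (by omega)
  have h4 : 2 * g + 3 ≤ 7 * (T * u) := by nlinarith
  have h5 := Nat.pow_le_pow_left h4 2
  have h6 : 1 ≤ (T * u) ^ 2 := Nat.one_le_pow _ _ (by omega)
  nlinarith

lemma expo (n M g d a : ℕ) (h1 : n + 1 ≤ 2 ^ (g + 1)) (h2 : 2 * (2 * g + 3) ^ 2 + 1 ≤ 2 ^ d)
    (h : 2 ^ a ≤ 2 * ((M + 1) * n ^ M * 2 ^ M * (2 * (2 * g + 3) ^ 2 + 1) ^ M *
      (n + 1) ^ (2 * (2 * g + 3) * (M / (2 * g + 3) ^ 2 + 1)))) :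
    a ≤ 1 + (2 * g + 3) ^ 2 + M * (g + d + 4) := by
  set s := 2 * g + 3 with hs
  have a1 : M + 1 ≤ 2 ^ M := Nat.lt_two_pow_self
  have a2 : n ^ M ≤ 2 ^ ((g + 1) * M) := by
    rw [pow_mul]; exact Nat.pow_le_pow_left (by omega) _
  have a3 : (2 * s ^ 2 + 1) ^ M ≤ 2 ^ (d * M) := by
    rw [pow_mul]; exact Nat.pow_le_pow_left h2 _
  have a4 : (n + 1) ^ (2 * s * (M / s ^ 2 + 1)) ≤ 2 ^ (M + s ^ 2) := by
    refine (Nat.pow_le_pow_left h1 _).trans ?_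
    rw [← pow_mul]
    refine Nat.pow_le_pow_right two_pos ?_
    have b1 : s ^ 2 * (M / s ^ 2) ≤ M := Nat.mul_div_le _ _
    have b2 : (g + 1) * (2 * s) ≤ s ^ 2 := by rw [hs]; nlinarith
    have b3 := Nat.mul_le_mul_right (M / s ^ 2 + 1) b2
    nlinarith
  have a5 : 2 ^ a ≤ 2 * (2 ^ M * 2 ^ ((g + 1) * M) * 2 ^ M * 2 ^ (d * M) * 2 ^ (M + s ^ 2)) := by
    refine h.trans ?_
    gcongr
  rw [← pow_add, ← pow_add, ← pow_add, ← pow_add, ← pow_succ'] at a5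
  have := (Nat.pow_le_pow_iff_right one_lt_two).1 a5
  nlinarith

end LowNum

theorem lownum_st : LowNumSt := by
  intro ε hε
  obtain ⟨T, hT⟩ := exists_nat_ge (6 / ε)
  have T1 : 1 ≤ T := by
    have : (0 : ℝ) < T := lt_of_lt_of_le (by positivity) hT
    exact_mod_cast this
  rw [div_le_iff₀ hε] at hT
  obtain ⟨g0, h0⟩ := LowNum.ev T T1
  refine ⟨2 ^ (g0 + T), fun n hn => ?_⟩
  have n0 : n ≠ 0 := by
    have := Nat.two_pow_pos (g0 + T)
    omega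
  have g1 : g0 + T ≤ Nat.log 2 n := (Nat.le_log_iff_pow_le one_lt_two n0).2 hn
  have g2 : n + 1 ≤ 2 ^ (Nat.log 2 n + 1) := Nat.lt_pow_succ_log_self one_lt_two n
  have g3 : 2 ^ Nat.log 2 n ≤ n := Nat.pow_log_le_self 2 n0
  have g4 : (Nat.log 2 n : ℝ) ≤ Real.logb 2 n := by
    have := Real.natLog_le_logb n 2
    exact_mod_cast this
  have g5 : Real.logb 2 n ≤ Nat.log 2 n + 1 := by
    rw [Real.logb_le_iff_le_rpow one_lt_two (by positivity)]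
    have : (n : ℝ) ≤ 2 ^ (Nat.log 2 n + 1) := by exact_mod_cast (Nat.le_succ n).trans g2
    rw [← Real.rpow_natCast] at this
    exact_mod_cast this
  set g := Nat.log 2 n
  set L := Real.logb 2 n
  have h1 := h0 g (by omega)
  refine ⟨2 * g + 3, (2 * g + 3) ^ 2, by omega, by nlinarith, ?_, fun k hk => ?_⟩
  · refine (Nat.mul_le_mul_left 2 (Nat.pow_le_pow_left ((Nat.le_succ n).trans g2) _)).trans ?_
    rw [← pow_mul, ← pow_succ']
    exact Nat.pow_le_pow_right two_pos (by nlinarith)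
  · have e := LowNum.expo n _ g _ _ g2 h1 hk
    have h2 : 2 * (2 * g + 3) ^ 2 + 1 ≤ n :=
      h1.trans ((Nat.pow_le_pow_right two_pos (Nat.div_le_self _ _)).trans g3)
    have h3 : n ^ 2 ≤ 4 * (n / 2 * (n - n / 2)) + 1 := by
      rcases Nat.even_or_odd' n with ⟨m, rfl | rfl⟩
      · rw [show 2 * m / 2 = m by omega, show 2 * m - m = m by omega]; nlinarith
      · rw [show (2 * m + 1) / 2 = m by omega, show 2 * m + 1 - m = m + 1 by omega]; nlinarith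
    have h4 : n ≤ 2 + 4 * ((k + 1) * (g + g / T + 4)) + 1 := by
      refine Nat.le_of_mul_le_mul_left ?_ (Nat.pos_of_ne_zero n0)
      nlinarith [Nat.zero_le g]
    have h5 : T * (g / T) ≤ g := Nat.mul_div_le _ _
    set d := g / T
    have r4 : (n : ℝ) ≤ 2 + 4 * ((k + 1) * (g + d + 4)) + 1 := by exact_mod_cast h4
    have r5 : (T : ℝ) * d ≤ g := by exact_mod_cast h5
    have r2 : 2 * (2 * (g : ℝ) + 3) ^ 2 + 1 ≤ n := by exact_mod_cast h2
    have r1 : (T : ℝ) ≤ g := by exact_mod_cast (by omega : T ≤ g)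
    have t1 : (1 : ℝ) ≤ T := by exact_mod_cast T1
    have d0 : (0 : ℝ) ≤ d := Nat.cast_nonneg _
    have k0 : (0 : ℝ) ≤ k := Nat.cast_nonneg _
    have s1 : 6 ≤ ε * g := by nlinarith
    have s2 : 6 * (d : ℝ) ≤ ε * g := by nlinarith
    have s3 : (g : ℝ) + d + 4 ≤ (1 + ε) * L := by nlinarith
    have s4 : 8 * L ≤ ε * n := by
      have : ε * (2 * (2 * (g : ℝ) + 3) ^ 2 + 1) ≤ ε * n := by gcongr
      nlinarith
    have L1 : 1 ≤ L := by linarith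
    rw [div_le_iff₀ (by linarith)]
    by_contra q
    push Not at q
    have s5 : ((k : ℝ) + 1) * (g + d + 4) ≤ (k + 1) * ((1 + ε) * L) := by gcongr
    have s6 : (1 + ε) * (k * L) ≤ (1 + ε) * ((1 / 4 - ε) * n) := by gcongr
    have s7 : (1 + ε) * (8 * L) ≤ (1 + ε) * (ε * n) := by gcongr
    have s8 : 0 ≤ ε * (ε * n) := by positivity
    nlinarith

end Pool.Agent.Lib.MP_fe8c60_co.Sh
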