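import Pool.Agent.Lib.MP_fe8c60_co.Sh.St

/-! Orientation of a triangle-free graph together with a sparse set of pairs. -/

set_option autoImplicit false

namespace Pool.Agent.Lib.MP_fe8c60_co.Sh

open Finset

namespace Ori

variable {ι : Type} [Fintype ι] [DecidableEq ι]

open Classical in
/-- neighbours -/
noncomputable def N (M : SimpleGraph ι) (a : ι) : Finset ι := univ.filter fun b => M.Adj a b

omit [DecidableEq ι] in
theorem mem_N (M : SimpleGraph ι) (a b : ι) : b ∈ N M a ↔ M.Adj a b := by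
  classical
  unfold N
  simp

theorem deg_add (M : SimpleGraph ι) (hM : M.CliqueFree 3) (a b : ι) (h : M.Adj a b) :
    (N M a).card + (N M b).card ≤ Fintype.card ι := by
  have hd : Disjoint (N M a) (N M b) := by
    refine disjoint_left.2 fun c h1 h2 => ?_
    exact hM {a, b, c}
      (SimpleGraph.is3Clique_triple_iff.2 ⟨h, (mem_N M a c).1 h1, (mem_N M b c).1 h2⟩)
  rw [← card_union_of_disjoint hd]
  exact card_le_univ _

/-- the share of the edge `a b` carried by `a` -/
noncomputable def w (M : SimpleGraph ι) (a b : ι) : ℝ :=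
  ((N M b).card : ℝ) / ((N M a).card + (N M b).card)

omit [DecidableEq ι] in
theorem w_nonneg (M : SimpleGraph ι) (a b : ι) : 0 ≤ w M a b := by
  unfold w
  positivity

theorem deg_pos (M : SimpleGraph ι) (a b : ι) (h : M.Adj a b) : (0 : ℝ) < (N M a).card := by
  exact_mod_cast card_pos.2 ⟨b, (mem_N M a b).2 h⟩

theorem w_add (M : SimpleGraph ι) (a b : ι) (h : M.Adj a b) : w M a b + w M b a = 1 := by
  have h1 := deg_pos M a b h
  have h2 := deg_pos M b a h.symm
  unfold w
  field_simp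
  ring

theorem w_sum (M : SimpleGraph ι) (hM : M.CliqueFree 3) (a : ι) :
    ∑ b ∈ N M a, w M a b ≤ (Fintype.card ι : ℝ) / 4 := by
  have hk : (0 : ℝ) < Fintype.card ι := by
    exact_mod_cast Fintype.card_pos_iff.2 ⟨a⟩
  have h1 : ∀ b ∈ N M a, w M a b ≤ 1 - ((N M a).card : ℝ) / Fintype.card ι := by
    intro b hb
    have h := (mem_N M a b).1 hb
    have h1 := deg_pos M a b h
    have h2 := deg_pos M b a h.symm
    have h3 : ((N M a).card : ℝ) + (N M b).card ≤ Fintype.card ι := by
      exact_mod_cast deg_add M hM a b h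
    have h4 : ((N M a).card : ℝ) / Fintype.card ι ≤ w M b a := by
      unfold w
      exact div_le_div_of_nonneg_left h1.le (by positivity) (by linarith)
    have := w_add M a b h
    linarith
  refine (sum_le_card_nsmul _ _ _ h1).trans ?_
  rw [nsmul_eq_mul]
  have e : ((N M a).card : ℝ) * (1 - ((N M a).card : ℝ) / Fintype.card ι) =
      ((N M a).card * Fintype.card ι - (N M a).card ^ 2) / Fintype.card ι := by
    field_simp
  rw [e, div_le_iff₀ hk]
  nlinarith [sq_nonneg ((Fintype.card ι : ℝ) - 2 * (N M a).card)]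

theorem key (M : SimpleGraph ι) (hM : M.CliqueFree 3) (f : ι → ℕ) (A : Finset (ι × ι))
    (S : Finset ι) (hA : ∀ p ∈ A, M.Adj p.1 p.2 ∧ f p.1 < f p.2)
    (hS : ∀ p ∈ A, p.1 ∈ S ∧ p.2 ∈ S) : (A.card : ℝ) ≤ S.card * ((Fintype.card ι : ℝ) / 4) := by
  have e1 : (A.card : ℝ) = ∑ p ∈ A, w M p.1 p.2 + ∑ p ∈ A, w M p.2 p.1 := by
    rw [← sum_add_distrib, sum_congr rfl fun p hp => w_add M p.1 p.2 (hA p hp).1]
    simp
  have e2 : ∑ p ∈ A, w M p.2 p.1 = ∑ p ∈ A.image Prod.swap, w M p.1 p.2 := by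
    rw [sum_image fun x _ y _ h => Prod.swap_injective h]
    rfl
  have hd : Disjoint A (A.image Prod.swap) := by
    refine disjoint_left.2 fun p h1 h2 => ?_
    obtain ⟨q, hq, rfl⟩ := mem_image.1 h2
    have a1 := (hA q hq).2
    have a2 := (hA _ h1).2
    simp only [Prod.fst_swap, Prod.snd_swap] at a2
    omega
  have hsub : A ∪ A.image Prod.swap ⊆ S.biUnion fun a => (N M a).image fun b => (a, b) := by
    intro p hp
    rcases mem_union.1 hp with h | h
    · exact mem_biUnion.2 ⟨p.1, (hS p h).1,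
        mem_image.2 ⟨p.2, (mem_N M _ _).2 (hA p h).1, rfl⟩⟩
    · obtain ⟨q, hq, rfl⟩ := mem_image.1 h
      exact mem_biUnion.2 ⟨q.2, (hS q hq).2,
        mem_image.2 ⟨q.1, (mem_N M _ _).2 (hA q hq).1.symm, rfl⟩⟩
  have hpd : (S : Set ι).PairwiseDisjoint fun a => (N M a).image fun b => (a, b) := by
    intro a _ a' _ hne
    refine disjoint_left.2 fun p h1 h2 => ?_
    obtain ⟨b, _, rfl⟩ := mem_image.1 h1
    obtain ⟨b', _, h⟩ := mem_image.1 h2
    exact hne (congrArg Prod.fst h).symm
  rw [e1, e2, ← sum_union hd]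
  refine (sum_le_sum_of_subset_of_nonneg hsub fun p _ _ => w_nonneg M p.1 p.2).trans ?_
  rw [sum_biUnion hpd]
  have h3 : ∀ a ∈ S, ∑ p ∈ (N M a).image (fun b => (a, b)), w M p.1 p.2 ≤
      (Fintype.card ι : ℝ) / 4 := by
    intro a _
    rw [sum_image fun x _ y _ h => (Prod.mk.inj h).2]
    exact w_sum M hM a
  refine (sum_le_card_nsmul _ _ _ h3).trans ?_
  rw [nsmul_eq_mul]

theorem part1 (M : SimpleGraph ι) (hM : M.CliqueFree 3) :
    ∃ O : ι → Finset ι, (∀ i j, M.Adj i j → j ∈ O i ∨ i ∈ O j) ∧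
      ∀ i, (O i).card ≤ Fintype.card ι / 4 + 1 := by
  classical
  let f : ι → ℕ := fun i => (Fintype.equivFin ι i : ℕ)
  have hf : Function.Injective f := fun a b h =>
    (Fintype.equivFin ι).injective (Fin.ext h)
  set d := Fintype.card ι / 4 + 1 with hd
  let E := {p : ι × ι // M.Adj p.1 p.2 ∧ f p.1 < f p.2}
  let t : E → Finset (ι × ℕ) := fun e => ({e.1.1, e.1.2} : Finset ι) ×ˢ range d
  have hall : ∀ s : Finset E, s.card ≤ (s.biUnion t).card := by
    intro s
    set S : Finset ι := s.biUnion fun e => ({e.1.1, e.1.2} : Finset ι) with hS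
    have h1 : S ×ˢ range d ⊆ s.biUnion t := by
      intro x hx
      obtain ⟨h1, h2⟩ := mem_product.1 hx
      obtain ⟨e, he, h1⟩ := mem_biUnion.1 h1
      exact mem_biUnion.2 ⟨e, he, mem_product.2 ⟨h1, h2⟩⟩
    have h2 := key M hM f (s.image Subtype.val) S
      (fun p hp => by obtain ⟨e, _, rfl⟩ := mem_image.1 hp; exact e.2)
      (fun p hp => by
        obtain ⟨e, he, rfl⟩ := mem_image.1 hp
        exact ⟨mem_biUnion.2 ⟨e, he, by simp⟩, mem_biUnion.2 ⟨e, he, by simp⟩⟩)
    rw [card_image_of_injective _ Subtype.val_injective] at h2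
    have h3 : (Fintype.card ι : ℝ) / 4 ≤ d := by
      have : Fintype.card ι ≤ 4 * d := by omega
      have : (Fintype.card ι : ℝ) ≤ 4 * d := by exact_mod_cast this
      linarith
    have h4 : (s.card : ℝ) ≤ S.card * d :=
      h2.trans (mul_le_mul_of_nonneg_left h3 (Nat.cast_nonneg _))
    have h5 : s.card ≤ S.card * d := by exact_mod_cast h4
    refine h5.trans (le_trans (le_of_eq ?_) (card_le_card h1))
    rw [card_product, card_range]
  obtain ⟨φ, hφ, hφt⟩ := (all_card_le_biUnion_card_iff_exists_injective t).1 hall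
  refine ⟨fun i => (univ.filter fun e : E => (φ e).1 = i).image
    fun e => if e.1.1 = i then e.1.2 else e.1.1, ?_, ?_⟩
  · have main : ∀ i j, M.Adj i j → f i < f j →
        j ∈ (univ.filter fun e : E => (φ e).1 = i).image
          (fun e => if e.1.1 = i then e.1.2 else e.1.1) ∨
        i ∈ (univ.filter fun e : E => (φ e).1 = j).image
          (fun e => if e.1.1 = j then e.1.2 else e.1.1) := by
      intro i j h hlt
      let e : E := ⟨(i, j), h, hlt⟩
      have h1 := (mem_product.1 (hφt e)).1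
      rcases mem_insert.1 h1 with h2 | h2
      · exact Or.inl (mem_image.2 ⟨e, mem_filter.2 ⟨mem_univ _, h2⟩, if_pos rfl⟩)
      · exact Or.inr (mem_image.2 ⟨e, mem_filter.2 ⟨mem_univ _, mem_singleton.1 h2⟩,
          if_neg h.ne⟩)
    intro i j h
    rcases lt_or_gt_of_ne (fun e => h.ne (hf e)) with h1 | h1
    · exact main i j h h1
    · exact (main j i h.symm h1).symm
  · intro i
    refine card_image_le.trans ?_
    rw [← card_range d]
    refine card_le_card_of_injOn (fun e => (φ e).2) ?_ ?_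
    · intro e _
      exact mem_coe.2 (mem_product.1 (hφt e)).2
    · intro e he e' he' h
      have a1 := (mem_filter.1 (mem_coe.1 he)).2
      have a2 := (mem_filter.1 (mem_coe.1 he')).2
      exact hφ (Prod.ext (a1.trans a2.symm) h)

theorem part2 (I : Finset (ι × ι)) (σ : ℝ) (hσ : 0 < σ)
    (hI : (I.card : ℝ) ≤ σ ^ 2 * (Fintype.card ι : ℝ) ^ 2) :
    ∃ O : ι → Finset ι, (∀ i j, (i, j) ∈ I → j ∈ O i ∨ i ∈ O j) ∧
      ∀ i, ((O i).card : ℝ) ≤ 2 * σ * Fintype.card ι := by
  classical
  let P : ι → Finset ι := fun i =>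
    (I.filter fun p => p.1 = i).image Prod.snd ∪ (I.filter fun p => p.2 = i).image Prod.fst
  let H : Finset ι := univ.filter fun i => ¬((P i).card : ℝ) ≤ 2 * σ * Fintype.card ι
  have hP : ∑ i, (P i).card ≤ 2 * I.card := by
    have h1 : I.card = ∑ i, (I.filter fun p => p.1 = i).card :=
      card_eq_sum_card_fiberwise (f := Prod.fst) (t := univ) fun _ _ => mem_coe.2 (mem_univ _)
    have h2 : I.card = ∑ i, (I.filter fun p => p.2 = i).card :=
      card_eq_sum_card_fiberwise (f := Prod.snd) (t := univ) fun _ _ => mem_coe.2 (mem_univ _)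
    calc ∑ i, (P i).card ≤ ∑ i, ((I.filter fun p => p.1 = i).card +
            (I.filter fun p => p.2 = i).card) :=
          sum_le_sum fun i _ => (card_union_le _ _).trans (Nat.add_le_add card_image_le card_image_le)
      _ = 2 * I.card := by rw [sum_add_distrib, ← h1, ← h2, two_mul]
  refine ⟨fun i => if ((P i).card : ℝ) ≤ 2 * σ * Fintype.card ι then P i else H, ?_, ?_⟩
  · intro i j h
    by_cases hi : ((P i).card : ℝ) ≤ 2 * σ * Fintype.card ι
    · left
      simp only [if_pos hi]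
      exact mem_union_left _ (mem_image.2 ⟨(i, j), mem_filter.2 ⟨h, rfl⟩, rfl⟩)
    · by_cases hj : ((P j).card : ℝ) ≤ 2 * σ * Fintype.card ι
      · right
        simp only [if_pos hj]
        exact mem_union_right _ (mem_image.2 ⟨(i, j), mem_filter.2 ⟨h, rfl⟩, rfl⟩)
      · left
        simp only [if_neg hi]
        exact mem_filter.2 ⟨mem_univ _, hj⟩
  · intro i
    by_cases hi : ((P i).card : ℝ) ≤ 2 * σ * Fintype.card ι
    · simp only [if_pos hi]
      exact hi
    · simp only [if_neg hi]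
      have hk : (0 : ℝ) < Fintype.card ι := by
        exact_mod_cast Fintype.card_pos_iff.2 ⟨i⟩
      have h1 : (H.card : ℝ) * (2 * σ * Fintype.card ι) ≤ ∑ j ∈ H, ((P j).card : ℝ) := by
        rw [← nsmul_eq_mul]
        exact card_nsmul_le_sum _ _ _ fun j hj => (not_le.1 (mem_filter.1 hj).2).le
      have h2 : ∑ j ∈ H, ((P j).card : ℝ) ≤ ∑ j, ((P j).card : ℝ) :=
        sum_le_sum_of_subset_of_nonneg (subset_univ _) fun _ _ _ => Nat.cast_nonneg _
      have h3 : ∑ j, ((P j).card : ℝ) ≤ 2 * I.card := by exact_mod_cast hP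
      have h4 : 0 < 2 * σ * Fintype.card ι := by positivity
      have h5 : (H.card : ℝ) * (2 * σ * Fintype.card ι) ≤
          (2 * σ * Fintype.card ι) * (2 * σ * Fintype.card ι) := by
        have : 0 ≤ σ ^ 2 * (Fintype.card ι : ℝ) ^ 2 := by positivity
        nlinarith
      exact le_of_mul_le_mul_right h5 h4

end Ori

theorem ori_st : OriSt := by
  intro ι _ _ M I σ hM hσ hI
  obtain ⟨O1, a1, a2⟩ := Ori.part1 M hM
  obtain ⟨O2, b1, b2⟩ := Ori.part2 I σ hσ hI
  refine ⟨fun i => O1 i ∪ O2 i, ?_, ?_⟩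
  · intro i j h
    rcases h with h | h
    · exact (a1 i j h).imp (mem_union_left _) (mem_union_left _)
    · exact (b1 i j h).imp (mem_union_right _) (mem_union_right _)
  · intro i
    have h1 : ((O1 i ∪ O2 i).card : ℝ) ≤ (O1 i).card + (O2 i).card := by
      exact_mod_cast card_union_le _ _
    have h2 : ((O1 i).card : ℝ) ≤ ((Fintype.card ι / 4 : ℕ) : ℝ) + 1 := by exact_mod_cast a2 i
    have h3 : ((Fintype.card ι / 4 : ℕ) : ℝ) ≤ (Fintype.card ι : ℝ) / 4 := by
      exact_mod_cast Nat.cast_div_le (α := ℝ) (m := Fintype.card ι) (n := 4)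
    have h4 := b2 i
    linarith

end Pool.Agent.Lib.MP_fe8c60_co.Sh
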