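import Pool.Agent.Lib.MP_fe8c60_co.Sh.St

set_option autoImplicit false

namespace Pool.Agent.Lib.MP_fe8c60_co.Sh

open Finset

theorem Pack.one (n : ℕ) (G : SimpleGraph (Fin n)) (L : ℕ) (hL : 1 ≤ L) :
    ∀ (m : ℕ) (U : Finset (Fin n)), U.card ≤ m →
    ∃ 𝒬 : Finset (Finset (Fin n)), (∀ Q ∈ 𝒬, Q ⊆ U ∧ G.IsClique (Q : Set (Fin n)) ∧ Q.card = L) ∧
      (∀ Q ∈ 𝒬, ∀ Q' ∈ 𝒬, Q ≠ Q' → Disjoint Q Q') ∧
      ∀ Q ⊆ U \ 𝒬.biUnion id, G.IsClique (Q : Set (Fin n)) → Q.card ≠ L := by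
  intro m
  induction m with
  | zero =>
    intro U hU
    refine ⟨∅, by simp, by simp, fun Q hQ _ h => ?_⟩
    have := (card_le_card (hQ.trans sdiff_subset)).trans hU
    omega
  | succ m ih =>
    intro U hU
    by_cases hex : ∃ Q ⊆ U, G.IsClique (Q : Set (Fin n)) ∧ Q.card = L
    · obtain ⟨Q0, h0U, h0c, h0L⟩ := hex
      have hc : (U \ Q0).card ≤ m := by
        rw [card_sdiff_of_subset h0U]
        omega
      obtain ⟨𝒬, h1, h2, h3⟩ := ih (U \ Q0) hc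
      have hd : ∀ Q ∈ 𝒬, Disjoint Q0 Q := fun Q hQ =>
        (disjoint_sdiff (s := Q0) (t := U)).mono_right (h1 Q hQ).1
      refine ⟨insert Q0 𝒬, ?_, ?_, ?_⟩
      · intro Q hQ
        rcases mem_insert.1 hQ with rfl | hQ
        · exact ⟨h0U, h0c, h0L⟩
        · exact ⟨(h1 Q hQ).1.trans sdiff_subset, (h1 Q hQ).2⟩
      · intro Q hQ Q' hQ' hne
        rcases mem_insert.1 hQ with e | hq
        · rcases mem_insert.1 hQ' with e' | hq'
          · exact absurd (e.trans e'.symm) hne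
          · exact e ▸ hd _ hq'
        · rcases mem_insert.1 hQ' with e' | hq'
          · exact e' ▸ (hd _ hq).symm
          · exact h2 _ hq _ hq' hne
      · intro Q hQ
        apply h3
        intro x hx
        have := hQ hx
        simp only [biUnion_insert, id, mem_sdiff, mem_union, not_or] at this ⊢
        exact ⟨⟨this.1, this.2.1⟩, this.2.2⟩
    · refine ⟨∅, by simp, by simp, fun Q hQ hc h => hex ⟨Q, hQ.trans sdiff_subset, hc, h⟩⟩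

theorem Pack.two (n g : ℕ) : ∀ (K : ℕ) (Q : Finset (Fin n)), Q.card = K * g →
    ∃ 𝒢 : Finset (Finset (Fin n)), 𝒢.card ≤ K ∧ (∀ Γ ∈ 𝒢, Γ ⊆ Q ∧ Γ.card ≤ g) ∧
      (∀ x ∈ Q, ∃ Γ ∈ 𝒢, x ∈ Γ) ∧ ∀ Γ ∈ 𝒢, ∀ Γ' ∈ 𝒢, Γ ≠ Γ' → Disjoint Γ Γ' := by
  intro K
  induction K with
  | zero =>
    intro Q hQ
    have : Q = ∅ := card_eq_zero.1 (by simpa using hQ)
    subst this
    exact ⟨∅, by simp, by simp, by simp, by simp⟩
  | succ K ih =>
    intro Q hQ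
    obtain ⟨Γ0, h0Q, h0g⟩ := exists_subset_card_eq (s := Q) (n := g) (by rw [hQ]; nlinarith)
    have hc : (Q \ Γ0).card = K * g := by
      rw [card_sdiff_of_subset h0Q, hQ, h0g, add_mul, one_mul, Nat.add_sub_cancel]
    obtain ⟨𝒢, h1, h2, h3, h4⟩ := ih (Q \ Γ0) hc
    have hd : ∀ Γ ∈ 𝒢, Disjoint Γ0 Γ := fun Γ hΓ =>
      (disjoint_sdiff (s := Γ0) (t := Q)).mono_right (h2 Γ hΓ).1
    refine ⟨insert Γ0 𝒢, (card_insert_le _ _).trans (by omega), ?_, ?_, ?_⟩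
    · intro Γ hΓ
      rcases mem_insert.1 hΓ with rfl | hΓ
      · exact ⟨h0Q, h0g.le⟩
      · exact ⟨(h2 Γ hΓ).1.trans sdiff_subset, (h2 Γ hΓ).2⟩
    · intro x hx
      by_cases hx0 : x ∈ Γ0
      · exact ⟨Γ0, mem_insert_self _ _, hx0⟩
      · obtain ⟨Γ, hΓ, hxΓ⟩ := h3 x (mem_sdiff.2 ⟨hx, hx0⟩)
        exact ⟨Γ, mem_insert_of_mem hΓ, hxΓ⟩
    · intro Γ hΓ Γ' hΓ' hne
      rcases mem_insert.1 hΓ with e | hq
      · rcases mem_insert.1 hΓ' with e' | hq'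
        · exact absurd (e.trans e'.symm) hne
        · exact e ▸ hd _ hq'
      · rcases mem_insert.1 hΓ' with e' | hq'
        · exact e' ▸ (hd _ hq).symm
        · exact h4 _ hq _ hq' hne

theorem pack_st : PackSt :=
  ⟨fun n G U L hL => Pack.one n G L hL U.card U le_rfl, fun n Q K g h => Pack.two n g K Q h⟩

end Pool.Agent.Lib.MP_fe8c60_co.Sh
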