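import Pool.Agent.Lib.MP_fe8c60_co.Sh.St

/-! The regular partition with its orientation. -/

set_option autoImplicit false

namespace Pool.Agent.Lib.MP_fe8c60_co.Sh

open Finset

namespace Pre

open Classical in
theorem sum_nb {n : ℕ} (G : SimpleGraph (Fin n)) (U W : Finset (Fin n)) :
    ∑ b ∈ W, ((nb G b U).card : ℝ) = (G.edgeDensity W U : ℝ) * (W.card * U.card) := by
  have h1 : (G.interedges W U).card = ∑ b ∈ W, (nb G b U).card := by
    rw [SimpleGraph.interedges_def, card_filter, sum_product]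
    refine sum_congr rfl fun b _ => ?_
    rw [nb, card_filter]
  have h2 : (G.interedges W U).card ≤ W.card * U.card := G.card_interedges_le_mul W U
  rw [SimpleGraph.edgeDensity_def, ← Nat.cast_sum, ← h1]
  rcases Nat.eq_zero_or_pos (W.card * U.card) with h | h
  · have h3 : (G.interedges W U).card = 0 := by omega
    rw [h3]
    simp
  · have h3 : ((W.card : ℝ) * U.card) ≠ 0 := by exact_mod_cast h.ne'
    push_cast
    rw [div_mul_cancel₀ _ h3]

theorem nb_nn {n : ℕ} (G : SimpleGraph (Fin n)) (b : Fin n) (U : Finset (Fin n)) :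
    ((nn G b U).card : ℝ) = U.card - (nb G b U).card := by
  classical
  have := card_filter_add_card_filter_not (s := U) (fun x => G.Adj b x)
  have h : (nb G b U).card + (nn G b U).card = U.card := by
    unfold nb nn
    convert this
  rw [← h]
  push_cast
  ring

end Pre

theorem pre_st (hTri : TriSt) (hOri : OriSt) : PreSt := by
  classical
  intro δ σ l hδ hδ2 hσ
  have hε : 0 < min (δ ^ 2 / 16) (σ ^ 2) := by positivity
  refine ⟨SzemerediRegularity.bound (min (δ ^ 2 / 16) (σ ^ 2)) l, fun n hn G hG => ?_⟩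
  obtain ⟨P, h1, h2, h3, h4⟩ := szemeredi_regularity G hε (l := l) (by simpa using hn)
  let e : P.parts ≃ Fin P.parts.card := P.parts.equivFin
  let U : Fin P.parts.card → Finset (Fin n) := fun i => (e.symm i).1
  have hU : ∀ i, U i ∈ P.parts := fun i => (e.symm i).2
  have hinj : Function.Injective U := fun i j h => e.symm.injective (Subtype.ext h)
  let part : Fin n → Fin P.parts.card := fun v => e ⟨P.part v, P.part_mem.2 (mem_univ v)⟩
  have hfib : ∀ i, fib part i = U i := by
    intro i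
    ext v
    simp only [fib, mem_filter, mem_univ, true_and, part]
    rw [← Equiv.eq_symm_apply, Subtype.ext_iff]
    exact P.part_eq_iff_mem (hU i)
  have hdis : ∀ i j, i ≠ j → Disjoint (U i) (U j) := fun i j h =>
    P.disjoint (hU i) (hU j) fun h' => h (hinj h')
  let M : SimpleGraph (Fin P.parts.card) :=
    { Adj := fun i j => i ≠ j ∧ G.IsUniform (δ ^ 2 / 16) (U i) (U j) ∧
        δ ≤ (G.edgeDensity (U i) (U j) : ℝ) ∧ (G.edgeDensity (U i) (U j) : ℝ) ≤ 1 - δ
      symm := ⟨fun i j h => ⟨h.1.symm, h.2.1.symm, by rw [G.edgeDensity_comm]; exact h.2.2⟩⟩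
      loopless := ⟨fun i h => h.1 rfl⟩ }
  have hM : M.CliqueFree 3 := by
    intro s hs
    obtain ⟨a, b, c, hab, hac, hbc, -⟩ := SimpleGraph.is3Clique_iff.1 hs
    exact hTri δ hδ hδ2 n G (U a) (U b) (U c) hG (P.nonempty_of_mem_parts (hU a))
      (P.nonempty_of_mem_parts (hU b)) (P.nonempty_of_mem_parts (hU c)) (hdis _ _ hab.1)
      (hdis _ _ hac.1) (hdis _ _ hbc.1) hab.2.1 hac.2.1 hbc.2.1 hab.2.2 hac.2.2 hbc.2.2
  let I : Finset (Fin P.parts.card × Fin P.parts.card) := univ.filter fun p =>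
    p.1 ≠ p.2 ∧ ¬G.IsUniform (min (δ ^ 2 / 16) (σ ^ 2)) (U p.1) (U p.2)
  have hI : (I.card : ℝ) ≤ σ ^ 2 * (Fintype.card (Fin P.parts.card) : ℝ) ^ 2 := by
    have a1 : I.card ≤ (P.nonUniforms G (min (δ ^ 2 / 16) (σ ^ 2))).card := by
      refine card_le_card_of_injOn (fun p => (U p.1, U p.2)) (fun p hp => ?_) fun p _ q _ h => ?_
      · have := (mem_filter.1 hp).2
        exact mem_coe.2 (Finpartition.mk_mem_nonUniforms _ _ |>.2
          ⟨hU _, hU _, fun h => this.1 (hinj h), this.2⟩)
      · exact Prod.ext (hinj (congrArg Prod.fst h)) (hinj (congrArg Prod.snd h))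
    have a2 : ((P.parts.card * (P.parts.card - 1) : ℕ) : ℝ) ≤ (P.parts.card : ℝ) ^ 2 := by
      have : P.parts.card * (P.parts.card - 1) ≤ P.parts.card ^ 2 := by
        rw [sq]
        exact Nat.mul_le_mul_left _ (Nat.sub_le _ _)
      exact_mod_cast this
    have a3 := h4
    unfold Finpartition.IsUniform at a3
    rw [Fintype.card_fin, mul_comm]
    exact le_trans (by exact_mod_cast a1)
      (a3.trans (mul_le_mul a2 (min_le_right _ _) hε.le (by positivity)))
  obtain ⟨O, hO1, hO2⟩ := hOri _ M I σ hM hσ hI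
  refine ⟨P.parts.card, part, O, h2, h3, fun i => ?_, fun i => by simpa using hO2 i, fun i j hij => ?_⟩
  · rw [hfib]
    have a1 := h1.card_part_le_average_add_one (hU i)
    rw [card_univ, Fintype.card_fin] at a1
    have a2 := Nat.div_mul_le_self n P.parts.card
    calc (U i).card * P.parts.card ≤ (n / P.parts.card + 1) * P.parts.card := Nat.mul_le_mul_right _ a1
      _ ≤ n + P.parts.card := by rw [add_mul, one_mul]; omega
  · by_cases hc : M.Adj i j ∨ (i, j) ∈ I
    · rcases hO1 i j hc with h | h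
      · exact Or.inl h
      · exact Or.inr (Or.inl h)
    refine Or.inr (Or.inr ?_)
    rw [not_or] at hc
    have b1 : G.IsUniform (min (δ ^ 2 / 16) (σ ^ 2)) (U i) (U j) := by
      by_contra h
      exact hc.2 (mem_filter.2 ⟨mem_univ _, hij, h⟩)
    have b2 : ¬(δ ≤ (G.edgeDensity (U i) (U j) : ℝ) ∧ (G.edgeDensity (U i) (U j) : ℝ) ≤ 1 - δ) :=
      fun h => hc.1 ⟨hij, b1.mono (min_le_left _ _), h⟩
    rw [G.edgeDensity_comm] at b2
    have b3 := Pre.sum_nb G (U i) (U j)
    have b4 : (0 : ℝ) ≤ ((U j).card : ℝ) * (U i).card := by positivity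
    rw [hfib, hfib]
    by_cases h : δ ≤ (G.edgeDensity (U j) (U i) : ℝ)
    · refine Or.inr ?_
      have b5 : 1 - δ < (G.edgeDensity (U j) (U i) : ℝ) := not_le.1 fun h' => b2 ⟨h, h'⟩
      simp only [Pre.nb_nn]
      rw [sum_sub_distrib, sum_const, nsmul_eq_mul, b3]
      nlinarith [mul_le_mul_of_nonneg_right b5.le b4]
    · refine Or.inl ?_
      rw [b3]
      nlinarith [mul_le_mul_of_nonneg_right (not_le.1 h).le b4]

end Pool.Agent.Lib.MP_fe8c60_co.Sh
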