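import Pool.Agent.Lib.MP_fe8c60_co.Sh.St

set_option autoImplicit false

namespace Pool.Agent.Lib.MP_fe8c60_co.Sh

open Finset

theorem Ram.grow (n : ℕ) (G : SimpleGraph (Fin n)) (a : Fin n) (t : ℕ) (hG : CF G) :
    ∀ (j : ℕ) (B : Finset (Fin n)), (∀ b ∈ B, G.Adj a b) →
      (∀ Q ⊆ B, G.IsClique (Q : Set (Fin n)) → Q.card ≠ t) → j * t < B.card →
      ∃ Q ⊆ B, G.IsClique (Q : Set (Fin n)) ∧ Q.card = j + 1 := by
  classical
  intro j
  induction j with
  | zero =>
    intro B _ _ h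
    obtain ⟨x, hx⟩ := card_pos.1 (by omega : 0 < B.card)
    exact ⟨{x}, by simpa using hx, by simp, by simp⟩
  | succ j ih =>
    intro B hB hno h
    obtain ⟨x, hx⟩ := card_pos.1 (by omega : 0 < B.card)
    let N := B.filter fun y => G.Adj x y
    let M := (B.erase x).filter fun y => ¬G.Adj x y
    have hMc : G.IsClique (M : Set (Fin n)) := by
      intro y hy z hz hyz
      simp only [M, coe_filter, mem_erase, Set.mem_ofPred_eq] at hy hz
      rcases hG a x y z (hB x hx) (hB y hy.1.2) (hB z hz.1.2) hy.1.1.symm hz.1.1.symm hyz with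
        h1 | h1 | h1
      · exact absurd h1 hy.2
      · exact absurd h1 hz.2
      · exact h1
    have hMB : M ⊆ B := (filter_subset _ _).trans (erase_subset _ _)
    have hMt : M.card < t := by
      by_contra hc
      obtain ⟨Q, hQ, hQt⟩ := exists_subset_card_eq (s := M) (n := t) (by omega)
      exact hno Q (hQ.trans hMB) (hMc.subset (by exact_mod_cast hQ)) hQt
    have hsub : B ⊆ insert x (N ∪ M) := by
      intro y hy
      by_cases hyx : y = x
      · simp [hyx]
      · by_cases hadj : G.Adj x y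
        · simp [N, hy, hadj]
        · simp [M, hy, hadj, hyx]
    have hc := (card_le_card hsub).trans (card_insert_le _ _)
    have hc2 := card_union_le N M
    have hN : j * t < N.card := by
      rw [add_mul, one_mul] at h
      omega
    obtain ⟨Q, hQN, hQc, hQj⟩ := ih N (fun b hb => hB b (filter_subset _ _ hb))
      (fun Q hQ => hno Q (hQ.trans (filter_subset _ _))) hN
    have hxQ : x ∉ Q := fun hxq => by
      have := (mem_filter.1 (hQN hxq)).2
      exact G.irrefl this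
    refine ⟨insert x Q, ?_, ?_, by rw [card_insert_of_notMem hxQ, hQj]⟩
    · exact insert_subset hx (hQN.trans (filter_subset _ _))
    · rw [coe_insert]
      exact hQc.insert fun y hy _ => (mem_filter.1 (hQN hy)).2

theorem Ram.one (n : ℕ) (G : SimpleGraph (Fin n)) (a : Fin n) (B : Finset (Fin n)) (t : ℕ)
    (hG : CF G) (hB : ∀ b ∈ B, G.Adj a b) (ht : 1 ≤ t)
    (hno : ∀ Q ⊆ B, G.IsClique (Q : Set (Fin n)) → Q.card ≠ t) : B.card ≤ t ^ 2 := by
  by_contra hc
  obtain ⟨j, rfl⟩ : ∃ j, t = j + 1 := ⟨t - 1, by omega⟩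
  obtain ⟨Q, hQ, hQc, hQj⟩ := Ram.grow n G a (j + 1) hG j B hB hno (by nlinarith)
  exact hno Q hQ hQc hQj

theorem ram_st (hP : PackSt) : RamSt := by
  classical
  intro n G a B t hG hB ht
  refine ⟨Ram.one n G a B t hG hB ht, ?_⟩
  obtain ⟨𝒬, h1, h2, h3⟩ := hP.1 n G B t ht
  set R := B \ 𝒬.biUnion id with hR
  have hRc : R.card ≤ t ^ 2 :=
    Ram.one n G a R t hG (fun b hb => hB b (sdiff_subset hb)) ht h3
  refine ⟨𝒬 ∪ R.image fun x => ({x} : Finset (Fin n)), ?_, ?_, ?_, ?_⟩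
  · intro Q hQ
    rcases mem_union.1 hQ with hQ | hQ
    · exact ⟨(h1 Q hQ).1, (h1 Q hQ).2.1⟩
    · obtain ⟨x, hx, rfl⟩ := mem_image.1 hQ
      exact ⟨by simpa using sdiff_subset hx, by simp⟩
  · intro b hb
    by_cases hbR : b ∈ R
    · exact ⟨{b}, mem_union_right _ (mem_image_of_mem _ hbR), mem_singleton_self b⟩
    · have : b ∈ 𝒬.biUnion id := by
        by_contra hc
        exact hbR (mem_sdiff.2 ⟨hb, hc⟩)
      obtain ⟨Q, hQ, hbQ⟩ := mem_biUnion.1 this
      exact ⟨Q, mem_union_left _ hQ, hbQ⟩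
  · intro b
    rw [card_le_one]
    intro Q hQ Q' hQ'
    obtain ⟨hQ, hbQ⟩ := mem_filter.1 hQ
    obtain ⟨hQ', hbQ'⟩ := mem_filter.1 hQ'
    have key : ∀ P ∈ 𝒬, b ∈ P → ∀ x ∈ R, b ∈ ({x} : Finset (Fin n)) → False := by
      intro P hP hbP x hx hbx
      rw [mem_singleton] at hbx
      subst hbx
      exact (mem_sdiff.1 hx).2 (mem_biUnion.2 ⟨P, hP, hbP⟩)
    rcases mem_union.1 hQ with hQ | hQ
    · rcases mem_union.1 hQ' with hQ' | hQ'
      · by_contra hne
        exact disjoint_left.1 (h2 Q hQ Q' hQ' hne) hbQ hbQ'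
      · obtain ⟨x, hx, rfl⟩ := mem_image.1 hQ'
        exact (key Q hQ hbQ x hx hbQ').elim
    · obtain ⟨x, hx, rfl⟩ := mem_image.1 hQ
      rcases mem_union.1 hQ' with hQ' | hQ'
      · exact (key Q' hQ' hbQ' x hx hbQ).elim
      · obtain ⟨y, hy, rfl⟩ := mem_image.1 hQ'
        rw [mem_singleton] at hbQ hbQ'
        rw [← hbQ, ← hbQ']
  · have hq : 𝒬.card * t ≤ B.card := by
      have e1 : (𝒬.biUnion id).card = ∑ Q ∈ 𝒬, Q.card :=
        card_biUnion (fun Q hQ Q' hQ' hne => h2 Q hQ Q' hQ' hne)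
      have e2 : ∑ Q ∈ 𝒬, Q.card = 𝒬.card * t := by
        rw [sum_congr rfl (fun Q hQ => (h1 Q hQ).2.2), sum_const, smul_eq_mul]
      rw [← e2, ← e1]
      exact card_le_card (biUnion_subset.2 fun Q hQ => (h1 Q hQ).1)
    have hu := card_union_le 𝒬 (R.image fun x => ({x} : Finset (Fin n)))
    have hi : (R.image fun x => ({x} : Finset (Fin n))).card ≤ t ^ 2 := card_image_le.trans hRc
    calc _ ≤ (𝒬.card + t ^ 2) * t := Nat.mul_le_mul_right _ (by omega)
      _ = 𝒬.card * t + t ^ 3 := by ring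
      _ ≤ _ := by omega

end Pool.Agent.Lib.MP_fe8c60_co.Sh
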