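import Pool.Agent.Lib.MP_fe8c60_co.Sh.St

/-! Classes with a designation, from the regularity partition. -/

set_option autoImplicit false

namespace Pool.Agent.Lib.MP_fe8c60_co.Sh

open Finset

namespace Structx

/-- the smaller of the numbers of neighbours and non-neighbours -/
noncomputable def mm {n : ℕ} (G : SimpleGraph (Fin n)) (b : Fin n) (U : Finset (Fin n)) : ℝ :=
  ((min (nb G b U).card (nn G b U).card : ℕ) : ℝ)

theorem mm_nonneg {n : ℕ} (G : SimpleGraph (Fin n)) (b : Fin n) (U : Finset (Fin n)) :
    0 ≤ mm G b U := Nat.cast_nonneg _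

theorem mm_mono {n : ℕ} (G : SimpleGraph (Fin n)) (b : Fin n) {U W : Finset (Fin n)} (h : U ⊆ W) :
    mm G b U ≤ mm G b W := by
  unfold mm
  have h1 : (nb G b U).card ≤ (nb G b W).card := by
    classical
    unfold nb
    convert card_le_card (filter_subset_filter (fun x => G.Adj b x) h)
  have h2 : (nn G b U).card ≤ (nn G b W).card := by
    classical
    unfold nn
    convert card_le_card (filter_subset_filter (fun x => ¬G.Adj b x) h)
  exact_mod_cast min_le_min h1 h2

theorem mm_empty {n : ℕ} (G : SimpleGraph (Fin n)) (b : Fin n) : mm G b ∅ = 0 := by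
  simp [mm, nb]

theorem mm_le_nb {n : ℕ} (G : SimpleGraph (Fin n)) (b : Fin n) (U : Finset (Fin n)) :
    mm G b U ≤ (nb G b U).card := by
  unfold mm
  exact_mod_cast min_le_left _ _

theorem mm_le_nn {n : ℕ} (G : SimpleGraph (Fin n)) (b : Fin n) (U : Finset (Fin n)) :
    mm G b U ≤ (nn G b U).card := by
  unfold mm
  exact_mod_cast min_le_right _ _

open Classical in
theorem transport {n k : ℕ} (G : SimpleGraph (Fin n)) (η : ℝ) (ι : Type) [Fintype ι]
    [DecidableEq ι]
    (hk : Fintype.card ι ≤ k) (cls : Fin n → ι) (D : ι → ι → Prop) (hD : ∀ i j, D i j ∨ D j i)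
    (h : ∀ b, ∃ J : Finset ι,
      (∑ i ∈ J, ((univ.filter fun v => cls v = i).card : ℝ)) ≤ (1 / 4 + η) * n ∧
      ∀ S : Finset ι, (∀ i ∈ S, i ∉ J ∧ D (cls b) i) →
        ∑ i ∈ S, mm G b (univ.filter fun v => cls v = i) ≤ η * n) : Struct G k η := by
  obtain ⟨f⟩ : Nonempty (ι ↪ Fin k) := Function.Embedding.nonempty_of_card_le (by simpa using hk)
  have hf : ∀ a, fib (fun v => f (cls v)) (f a) = univ.filter fun v => cls v = a := by
    intro a
    ext v
    simp [fib]
  refine ⟨fun v => f (cls v), fun j i => decide (∀ a c, f a = j → f c = i → D a c), ?_, ?_⟩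
  · intro i j
    by_contra hc
    simp only [decide_eq_true_eq, not_or, not_forall] at hc
    obtain ⟨⟨a, c, ha, hc', h1⟩, ⟨a', c', ha', hc'', h2⟩⟩ := hc
    have e1 : a = c' := f.injective (ha.trans hc''.symm)
    have e2 : c = a' := f.injective (hc'.trans ha'.symm)
    subst e1 e2
    exact (hD a c).elim h1 h2
  · intro b
    obtain ⟨J, h1, h2⟩ := h b
    refine ⟨J.map f, ?_, ?_⟩
    · rw [sum_map]
      simpa only [hf] using h1
    · refine le_trans ?_ (h2 (univ.filter (fun i => i ∉ J ∧ D (cls b) i))
        fun i hi => (mem_filter.1 hi).2)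
      have e : ∑ i ∈ univ.filter (fun i => i ∉ J ∧ D (cls b) i),
          mm G b (univ.filter fun v => cls v = i) =
          ∑ i ∈ (univ.filter (fun i => i ∉ J ∧ D (cls b) i)).map f,
            mm G b (fib (fun v => f (cls v)) i) := by
        rw [sum_map]
        simp only [hf]
      rw [e]
      change ∑ i ∈ _, mm G b (fib (fun v => f (cls v)) i) ≤ _
      rw [← sum_filter_ne_zero]
      refine sum_le_sum_of_subset_of_nonneg ?_ fun i _ _ => mm_nonneg _ _ _
      intro i hi
      simp only [mem_filter, mem_univ, true_and, decide_eq_true_eq] at hi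
      obtain ⟨⟨hi1, hi2⟩, hi3⟩ := hi
      have hne : (fib (fun v => f (cls v)) i).Nonempty := by
        rw [nonempty_iff_ne_empty]
        intro h0
        exact hi3 (by rw [h0, mm_empty])
      obtain ⟨v, hv⟩ := hne
      have hv' : f (cls v) = i := by simpa [fib] using hv
      rw [mem_map]
      refine ⟨cls v, ?_, hv'⟩
      simp only [mem_filter, mem_univ, true_and]
      refine ⟨fun hJ => hi1 (mem_map.2 ⟨cls v, hJ, hv'⟩), hi2 _ _ rfl hv'⟩

theorem sum_fib {n k : ℕ} (part : Fin n → Fin k) : ∑ i, ((fib part i).card : ℝ) = n := by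
  have := card_eq_sum_card_fiberwise (f := part) (s := univ) (t := univ) (fun _ _ => mem_univ _)
  simp only [card_univ, Fintype.card_fin] at this
  unfold fib
  exact_mod_cast this.symm

end Structx

open Structx in
theorem struct_st (hP : PreSt) : StructSt := by
  classical
  intro η hη
  obtain ⟨l, hl⟩ := exists_nat_ge (8 / η)
  have hδ : 0 < min (1 / 2 : ℝ) ((η / 4) ^ 2) := lt_min (by norm_num) (by positivity)
  obtain ⟨k, hk⟩ := hP (min (1 / 2) ((η / 4) ^ 2)) (η / 8) (l + 1) hδ (min_le_left _ _)
    (by positivity)
  set δ : ℝ := min (1 / 2 : ℝ) ((η / 4) ^ 2) with hδdef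
  have hδ2 : δ ≤ (η / 4) ^ 2 := min_le_right _ _
  obtain ⟨n1, hn1⟩ := exists_nat_ge (((1 / 4 + η / 4) * k + 2) / (η / 4))
  refine ⟨k + 1, max (l + 1) n1, fun n hn G hG => ?_⟩
  obtain ⟨k0, part, O, hlk, hkk, hsz, hO, hext⟩ := hk n (le_trans (le_max_left _ _) hn) G hG
  have hn0 : (0 : ℝ) < n := by
    have : l + 1 ≤ n := le_trans (le_max_left _ _) hn
    exact_mod_cast (by omega : 0 < n)
  have hk0 : (0 : ℝ) < k0 := by exact_mod_cast (by omega : 0 < k0)
  let ext : Fin k0 → Fin k0 → Prop := fun j i =>
    (∑ b ∈ fib part j, ((nb G b (fib part i)).card : ℝ) ≤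
      δ * (fib part i).card * (fib part j).card) ∨
    (∑ b ∈ fib part j, ((nn G b (fib part i)).card : ℝ) ≤
      δ * (fib part i).card * (fib part j).card)
  let cost : Fin n → ℝ := fun b => ∑ i ∈ univ.filter (ext (part b)), mm G b (fib part i)
  have hc0 : ∀ b, 0 ≤ cost b := fun b => sum_nonneg fun i _ => mm_nonneg _ _ _
  have hsum : ∑ b, cost b ≤ δ * n * n := by
    rw [← sum_fiberwise (s := univ) (g := part)]
    have h1 : ∀ j, ∑ b ∈ univ.filter (fun b => part b = j), cost b ≤
        δ * n * (fib part j).card := by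
      intro j
      have e : ∑ b ∈ univ.filter (fun b => part b = j), cost b =
          ∑ b ∈ fib part j, ∑ i ∈ univ.filter (ext j), mm G b (fib part i) := by
        refine sum_congr rfl fun b hb => ?_
        have hb' : part b = j := by simpa [fib] using hb
        simp only [cost, hb']
      rw [e, sum_comm]
      calc ∑ i ∈ univ.filter (ext j), ∑ b ∈ fib part j, mm G b (fib part i)
          ≤ ∑ i ∈ univ.filter (ext j), δ * (fib part i).card * (fib part j).card := by
            refine sum_le_sum fun i hi => ?_
            rcases (mem_filter.1 hi).2 with h | h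
            · exact le_trans (sum_le_sum fun b _ => mm_le_nb _ _ _) h
            · exact le_trans (sum_le_sum fun b _ => mm_le_nn _ _ _) h
        _ ≤ ∑ i, δ * (fib part i).card * (fib part j).card :=
            sum_le_sum_of_subset_of_nonneg (subset_univ _) fun i _ _ => by positivity
        _ = δ * n * (fib part j).card := by
            rw [← sum_mul, ← mul_sum, sum_fib]
    calc _ ≤ ∑ j, δ * n * ((fib part j).card : ℝ) := sum_le_sum fun j _ => h1 j
      _ = δ * n * n := by rw [← mul_sum, sum_fib]
  let E : Finset (Fin n) := univ.filter fun b => η / 4 * n < cost b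
  have hE : (E.card : ℝ) ≤ η / 4 * n := by
    have h1 : (E.card : ℝ) * (η / 4 * n) ≤ ∑ b, cost b := by
      calc (E.card : ℝ) * (η / 4 * n) = ∑ _b ∈ E, η / 4 * n := by simp
        _ ≤ ∑ b ∈ E, cost b := sum_le_sum fun b hb => (mem_filter.1 hb).2.le
        _ ≤ ∑ b, cost b := sum_le_sum_of_subset_of_nonneg (subset_univ _) fun b _ _ => hc0 b
    have h2 : δ * n * n ≤ (η / 4 * n) * (η / 4 * n) := by
      have : δ * (n * n) ≤ (η / 4) ^ 2 * (n * n) := mul_le_mul_of_nonneg_right hδ2 (by positivity)
      nlinarith
    exact le_of_mul_le_mul_right (h1.trans (hsum.trans h2)) (by positivity)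
  let cls : Fin n → Option (Fin k0) := fun b => if b ∈ E then none else some (part b)
  let D : Option (Fin k0) → Option (Fin k0) → Prop := fun j i =>
    ∀ c, i = some c → ∃ a, j = some a ∧ (c = a ∨ c ∈ O a ∨ ext a c)
  have hnone : (univ.filter fun v => cls v = none) = E := by
    ext v
    by_cases hv : v ∈ E <;> simp [cls, hv]
  have hsome : ∀ c, (univ.filter fun v => cls v = some c) ⊆ fib part c := by
    intro c v hv
    by_cases h : v ∈ E
    · simp [cls, h] at hv
    · simpa [cls, h, fib] using hv
  have hfib : ∀ c, ((fib part c).card : ℝ) ≤ n / k0 + 1 := by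
    intro c
    have h1 : ((fib part c).card : ℝ) * k0 ≤ n + k0 := by exact_mod_cast hsz c
    have h2 : (n : ℝ) / k0 + 1 = (n + k0) / k0 := by field_simp
    rw [h2, le_div_iff₀ hk0]
    exact h1
  refine transport G η (Option (Fin k0)) (by simp; omega) cls D ?_ ?_
  · intro i j
    rcases i with _ | i
    · exact Or.inr fun c hc => by simp at hc
    rcases j with _ | j
    · exact Or.inl fun c hc => by simp at hc
    by_cases hij : i = j
    · exact Or.inl fun c hc => ⟨i, rfl, Or.inl (by rw [hij]; exact (Option.some.inj hc).symm)⟩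
    rcases hext i j hij with h | h | h
    · exact Or.inl fun c hc => ⟨i, rfl, Or.inr (Or.inl (by rw [← Option.some.inj hc]; exact h))⟩
    · exact Or.inr fun c hc => ⟨j, rfl, Or.inr (Or.inl (by rw [← Option.some.inj hc]; exact h))⟩
    · exact Or.inr fun c hc => ⟨j, rfl, Or.inr (Or.inr (by rw [← Option.some.inj hc]; exact h))⟩
  · intro b
    by_cases hb : b ∈ E
    · refine ⟨{none}, ?_, ?_⟩
      · rw [sum_singleton]
        rw [hnone]
        exact hE.trans (by nlinarith)
      · intro S hS
        refine le_trans (le_of_eq (sum_eq_zero fun i hi => ?_)) (by positivity)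
        exfalso
        obtain ⟨h1, h2⟩ := hS i hi
        rw [mem_singleton] at h1
        obtain ⟨c, rfl⟩ := Option.ne_none_iff_exists'.1 h1
        obtain ⟨a, ha, -⟩ := h2 c rfl
        simp [cls, hb] at ha
    · have hcb : cls b = some (part b) := by simp [cls, hb]
      refine ⟨insertNone (insert (part b) (O (part b))), ?_, ?_⟩
      · rw [sum_insertNone]
        have h1 : ∑ c ∈ insert (part b) (O (part b)),
            ((univ.filter fun v => cls v = some c).card : ℝ) ≤
            ((1 / 4 + η / 4) * k0 + 2) * (n / k0 + 1) := by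
          calc _ ≤ ∑ _c ∈ insert (part b) (O (part b)), ((n : ℝ) / k0 + 1) :=
                sum_le_sum fun c _ => le_trans (by exact_mod_cast card_le_card (hsome c)) (hfib c)
            _ = ((insert (part b) (O (part b))).card : ℝ) * (n / k0 + 1) := by
                rw [sum_const, nsmul_eq_mul]
            _ ≤ _ := by
                refine mul_le_mul_of_nonneg_right ?_ (by positivity)
                have h2 : ((insert (part b) (O (part b))).card : ℝ) ≤ (O (part b)).card + 1 := by
                  exact_mod_cast card_insert_le _ _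
                have h3 := hO (part b)
                linarith
        have h2 : ((1 / 4 + η / 4) * k0 + 2) * ((n : ℝ) / k0 + 1) =
            (1 / 4 + η / 4) * n + 2 * (n / k0) + ((1 / 4 + η / 4) * k0 + 2) := by
          field_simp
        have h3 : 2 * ((n : ℝ) / k0) ≤ η / 4 * n := by
          have h4 : (l : ℝ) + 1 ≤ k0 := by exact_mod_cast hlk
          have h5 : 8 ≤ η * k0 := by
            rw [div_le_iff₀ hη] at hl
            nlinarith
          rw [← mul_div_assoc, div_le_iff₀ hk0]
          nlinarith
        have h6 : (1 / 4 + η / 4) * k0 + 2 ≤ η / 4 * n := by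
          have h4 : (n1 : ℝ) ≤ n := by exact_mod_cast le_trans (le_max_right _ _) hn
          have h5 : (k0 : ℝ) ≤ k := by exact_mod_cast hkk
          rw [div_le_iff₀ (by positivity)] at hn1
          nlinarith
        have h7 : ((univ.filter fun v => cls v = none).card : ℝ) ≤ η / 4 * n := by
          rw [hnone]
          exact hE
        linarith
      · intro S hS
        have h1 : cost b ≤ η / 4 * n := by
          by_contra hc
          exact hb (mem_filter.2 ⟨mem_univ _, lt_of_not_ge hc⟩)
        refine le_trans ?_ (h1.trans (by nlinarith))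
        have h2 : ∑ i ∈ (univ.filter (ext (part b))).map Function.Embedding.some,
            mm G b (univ.filter fun v => cls v = i) ≤ cost b := by
          rw [sum_map]
          exact sum_le_sum fun c _ => mm_mono _ _ (hsome c)
        refine le_trans ?_ h2
        refine sum_le_sum_of_subset_of_nonneg ?_ fun i _ _ => mm_nonneg _ _ _
        intro i hi
        obtain ⟨hi1, hi2⟩ := hS i hi
        rcases i with _ | c
        · exact absurd none_mem_insertNone hi1
        · obtain ⟨a, ha, h⟩ := hi2 c rfl
          have e : a = part b := by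
            rw [hcb] at ha
            exact (Option.some.inj ha).symm
          subst e
          rw [some_mem_insertNone, mem_insert, not_or] at hi1
          refine mem_map.2 ⟨c, mem_filter.2 ⟨mem_univ _, ?_⟩, rfl⟩
          tauto

end Pool.Agent.Lib.MP_fe8c60_co.Sh
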