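import Pool.Agent.Lib.MP_fe8c60_co.Sh.St

/-! Three uniform pairs of middle density contain a claw. -/

set_option autoImplicit false

namespace Pool.Agent.Lib.MP_fe8c60_co.Sh

open Finset

namespace Tri

variable {n : ℕ} {G : SimpleGraph (Fin n)} {δ ε : ℝ} {s t : Finset (Fin n)}

open Classical in
/-- a uniform pair of middle density -/
structure Mid (G : SimpleGraph (Fin n)) (δ ε : ℝ) (s t : Finset (Fin n)) : Prop where
  hs : s.Nonempty
  ht : t.Nonempty
  un : G.IsUniform ε s t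
  lo : δ ≤ (G.edgeDensity s t : ℝ)
  hi : (G.edgeDensity s t : ℝ) ≤ 1 - δ

open Classical in
theorem Mid.symm (h : Mid G δ ε s t) : Mid G δ ε t s :=
  ⟨h.ht, h.hs, h.un.symm, by rw [G.edgeDensity_comm]; exact h.lo,
    by rw [G.edgeDensity_comm]; exact h.hi⟩

theorem nb_add (x : Fin n) (T : Finset (Fin n)) :
    ((nb G x T).card : ℝ) + (nn G x T).card = T.card := by
  classical
  unfold nb nn
  exact_mod_cast card_filter_add_card_filter_not (s := T) (fun y => G.Adj x y)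

open Classical in
theorem inter_eq (B T : Finset (Fin n)) :
    ((G.interedges B T).card : ℝ) = ∑ x ∈ B, ((nb G x T).card : ℝ) := by
  rw [G.interedges_def, card_filter, sum_product]
  push_cast
  refine sum_congr rfl fun x _ => ?_
  rw [nb, card_filter]
  push_cast
  rfl

open Classical in
theorem dens (h : Mid G δ ε s t) {B T : Finset (Fin n)} (hB : B ⊆ s) (hT : T ⊆ t)
    (h1 : ε * s.card ≤ B.card) (h2 : ε * t.card ≤ T.card) :
    (δ - ε) * (B.card * T.card) < ∑ x ∈ B, ((nb G x T).card : ℝ) ∧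
      (δ - ε) * (B.card * T.card) < ∑ x ∈ B, ((nn G x T).card : ℝ) := by
  have e0 := h.un.pos
  have s0 : (0 : ℝ) < s.card := by exact_mod_cast h.hs.card_pos
  have t0 : (0 : ℝ) < t.card := by exact_mod_cast h.ht.card_pos
  have p : (0 : ℝ) < B.card * T.card :=
    mul_pos (lt_of_lt_of_le (by positivity) h1) (lt_of_lt_of_le (by positivity) h2)
  have u := abs_lt.mp (h.un hB hT (by linarith) (by linarith))
  have d : (G.edgeDensity B T : ℝ) * (B.card * T.card) = ∑ x ∈ B, ((nb G x T).card : ℝ) := by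
    rw [G.edgeDensity_def, ← inter_eq]
    push_cast
    exact div_mul_cancel₀ _ p.ne'
  have a : ∑ x ∈ B, ((nb G x T).card : ℝ) + ∑ x ∈ B, ((nn G x T).card : ℝ) =
      B.card * T.card := by
    rw [← sum_add_distrib, sum_congr rfl fun x _ => nb_add x T, sum_const, nsmul_eq_mul]
  have l1 := mul_lt_mul_of_pos_right
    (show δ - ε < (G.edgeDensity B T : ℝ) by linarith [h.lo, u.1]) p
  have l2 := mul_lt_mul_of_pos_right
    (show (G.edgeDensity B T : ℝ) < 1 - (δ - ε) by linarith [h.hi, u.2]) p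
  constructor <;> linarith

open Classical in
/-- vertices with few neighbours (`b = true`) or few non-neighbours (`b = false`) in `T` -/
noncomputable def bad (G : SimpleGraph (Fin n)) (d : ℝ) (s T : Finset (Fin n)) (b : Bool) :
    Finset (Fin n) :=
  s.filter fun x => ((if b then nb G x T else nn G x T).card : ℝ) ≤ d * T.card

theorem typ (h : Mid G δ ε s t) {T : Finset (Fin n)} (hT : T ⊆ t) (h2 : ε * t.card ≤ T.card)
    (b : Bool) : ((bad G (δ - ε) s T b).card : ℝ) < ε * s.card := by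
  classical
  by_contra hc
  obtain ⟨k1, k2⟩ := dens h (B := bad G (δ - ε) s T b) (filter_subset _ _) hT (not_lt.mp hc) h2
  have k : ∑ x ∈ bad G (δ - ε) s T b, ((if b then nb G x T else nn G x T).card : ℝ) ≤
      (δ - ε) * ((bad G (δ - ε) s T b).card * T.card) := by
    refine (sum_le_sum (g := fun _ => (δ - ε) * (T.card : ℝ))
      fun x hx => (mem_filter.mp hx).2).trans_eq ?_
    rw [sum_const, nsmul_eq_mul, mul_left_comm]
    rfl
  cases b
  · simp only [Bool.false_eq_true, if_false] at k; linarith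
  · simp only [if_true] at k; linarith

theorem pick {S B1 B2 B3 : Finset (Fin n)} {c : ℝ} (h1 : (B1.card : ℝ) < c)
    (h2 : (B2.card : ℝ) < c) (h3 : (B3.card : ℝ) < c) (h : 3 * c ≤ S.card) :
    ∃ x ∈ S, x ∉ B1 ∧ x ∉ B2 ∧ x ∉ B3 := by
  have k : (B1 ∪ B2 ∪ B3).card < S.card := by
    have a : (B1 ∪ B2 ∪ B3).card ≤ B1.card + B2.card + B3.card :=
      (card_union_le _ _).trans (Nat.add_le_add_right (card_union_le _ _) _)
    have a' : ((B1 ∪ B2 ∪ B3).card : ℝ) ≤ B1.card + B2.card + B3.card := by exact_mod_cast a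
    exact_mod_cast (show ((B1 ∪ B2 ∪ B3).card : ℝ) < S.card by linarith)
  obtain ⟨x, a, b⟩ := exists_mem_notMem_of_card_lt_card k
  simp only [mem_union, not_or] at b
  exact ⟨x, a, b.1.1, b.1.2, b.2⟩

theorem good_t {d : ℝ} {T : Finset (Fin n)} {x : Fin n} (hx : x ∈ s) (h : x ∉ bad G d s T true) :
    d * T.card < (nb G x T).card := by
  classical
  exact not_le.mp fun k => h (mem_filter.mpr ⟨hx, by simpa using k⟩)

theorem good_f {d : ℝ} {T : Finset (Fin n)} {x : Fin n} (hx : x ∈ s) (h : x ∉ bad G d s T false) :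
    d * T.card < (nn G x T).card := by
  classical
  exact not_le.mp fun k => h (mem_filter.mpr ⟨hx, by simpa using k⟩)

theorem mem_nb {x y : Fin n} {T : Finset (Fin n)} : y ∈ nb G x T ↔ y ∈ T ∧ G.Adj x y := by
  classical
  simp [nb]

theorem mem_nn {x y : Fin n} {T : Finset (Fin n)} : y ∈ nn G x T ↔ y ∈ T ∧ ¬ G.Adj x y := by
  classical
  simp [nn]

theorem nb_sub (x : Fin n) (T : Finset (Fin n)) : nb G x T ⊆ T := fun _ h => (mem_nb.mp h).1

theorem nn_sub (x : Fin n) (T : Finset (Fin n)) : nn G x T ⊆ T := fun _ h => (mem_nn.mp h).1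

theorem claw {V₁ V₂ V₃ : Finset (Fin n)} (hG : CF G) (d12 : Disjoint V₁ V₂) (d13 : Disjoint V₁ V₃)
    (d23 : Disjoint V₂ V₃) (m12 : Mid G δ ε V₁ V₂) (m13 : Mid G δ ε V₁ V₃)
    (m23 : Mid G δ ε V₂ V₃) (c0 : 0 < δ - ε) (c1 : δ - ε ≤ 1) (c2 : 3 * ε ≤ (δ - ε) ^ 2) :
    False := by
  classical
  have e0 := m12.un.pos
  have f0 : ∀ V : Finset (Fin n), 3 * (ε * V.card) ≤ V.card ∧ ε * V.card ≤ V.card := fun V => by
    have : (0 : ℝ) ≤ V.card := Nat.cast_nonneg _
    have : 3 * ε ≤ 1 := by nlinarith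
    constructor <;> nlinarith
  have f1 : ∀ (V : Finset (Fin n)) (a : ℝ), (δ - ε) * V.card < a →
      3 * (ε * V.card) ≤ a ∧ ε * V.card ≤ a := fun V a h => by
    have : (0 : ℝ) ≤ V.card := Nat.cast_nonneg _
    have : 3 * ε ≤ δ - ε := by nlinarith
    constructor <;> nlinarith
  have f2 : ∀ (V : Finset (Fin n)) (a b : ℝ), (δ - ε) * V.card < a → (δ - ε) * a < b →
      3 * (ε * V.card) ≤ b ∧ ε * V.card ≤ b := fun V a b h h' => by
    have v0 : (0 : ℝ) ≤ V.card := Nat.cast_nonneg _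
    have k1 := mul_lt_mul_of_pos_left h c0
    have k2 := mul_le_mul_of_nonneg_right c2 v0
    have k3 := mul_nonneg e0.le v0
    constructor <;> nlinarith
  obtain ⟨y0, y1, y2, y3, y4⟩ := pick (typ m12.symm Subset.rfl (f0 V₁).2 true)
    (typ m12.symm Subset.rfl (f0 V₁).2 false) (typ m23 Subset.rfl (f0 V₃).2 false) (f0 V₂).1
  have y5 := good_t y1 y2
  have y6 := good_f y1 y3
  have y7 := good_f y1 y4
  have tz := typ m13.symm (nb_sub y0 V₁) (f1 _ _ y5).2 true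
  obtain ⟨z0, z1, z2, z3, -⟩ := pick tz (typ m13.symm (nn_sub y0 V₁) (f1 _ _ y6).2 false) tz
    (f1 _ _ y7).1
  obtain ⟨z4, z5⟩ := mem_nn.mp z1
  have z6 := good_t z4 z2
  have z7 := good_f z4 z3
  have tx := typ m12 Subset.rfl (f0 V₂).2 true
  obtain ⟨x, x1, x2, x3, -⟩ := pick tx (typ m13 Subset.rfl (f0 V₃).2 false) tx (f2 _ _ _ y6 z7).1
  obtain ⟨x4, x5⟩ := mem_nn.mp x1
  obtain ⟨x6, x7⟩ := mem_nn.mp x4
  have x8 := good_t x6 x2
  have x9 := good_f x6 x3
  have tw := typ m12 (nb_sub x V₂) (f1 _ _ x8).2 true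
  obtain ⟨w, w1, w2, w3, -⟩ := pick tw (typ m13 (nn_sub x V₃) (f1 _ _ x9).2 false) tw
    (f2 _ _ _ y5 z6).1
  obtain ⟨w4, w5⟩ := mem_nb.mp w1
  obtain ⟨w6, w7⟩ := mem_nb.mp w4
  have w8 := good_t w6 w2
  have w9 := good_f w6 w3
  have ty := typ m23 ((nn_sub w _).trans (nn_sub x V₃)) (f2 _ _ _ x9 w9).2 true
  obtain ⟨y, a1, a2, -⟩ := pick ty ty ty (f2 _ _ _ x8 w8).1
  obtain ⟨a3, a4⟩ := mem_nb.mp a1
  obtain ⟨a5, a6⟩ := mem_nb.mp a3
  have a7 := good_t a5 a2
  obtain ⟨z, b1⟩ : (nb G y (nn G w (nn G x V₃))).Nonempty := by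
    rw [← card_pos]
    exact_mod_cast lt_of_le_of_lt (mul_nonneg c0.le (Nat.cast_nonneg _)) a7
  obtain ⟨b2, b3⟩ := mem_nb.mp b1
  obtain ⟨b4, b5⟩ := mem_nn.mp b2
  obtain ⟨b6, b7⟩ := mem_nn.mp b4
  have ne : ∀ {A B : Finset (Fin n)} {p q : Fin n}, Disjoint A B → p ∈ A → q ∈ B → p ≠ q :=
    fun h hp hq e => disjoint_left.mp h hp (e ▸ hq)
  have xw : ¬ G.Adj x w := fun h => by
    rcases hG w x y0 z0 h.symm w7.symm w5.symm (ne d12 x6 y1) (ne d13 x6 z4) (ne d23 y1 z4)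
      with k | k | k
    · exact x7 k.symm
    · exact x5 k.symm
    · exact z5 k
  rcases hG y x w z a6.symm a4.symm b3 (fun e => x7 (e ▸ w7)) (ne d13 x6 b6) (ne d13 w6 b6)
    with k | k | k
  · exact xw k
  · exact b7 k
  · exact b5 k

end Tri

theorem tri_st : TriSt := by
  intro δ h0 h1 n G V₁ V₂ V₃ hG n1 n2 n3 d12 d13 d23 u12 u13 u23 e12 e13 e23
  have k : δ ^ 2 ≤ δ / 2 := by nlinarith
  refine Tri.claw hG d12 d13 d23 ⟨n1, n2, u12, e12.1, e12.2⟩ ⟨n1, n3, u13, e13.1, e13.2⟩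
    ⟨n2, n3, u23, e23.1, e23.2⟩ (by linarith) (by nlinarith) ?_
  have k2 : δ / 2 ≤ δ - δ ^ 2 / 16 := by linarith
  have k3 := pow_le_pow_left₀ (by linarith) k2 2
  nlinarith

end Pool.Agent.Lib.MP_fe8c60_co.Sh
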