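import Pool.Agent.Lib.MP_fe8c60_co.Sh.Alt
import Pool.Agent.Lib.MP_fe8c60_co.Sh.Asm
import Pool.Agent.Lib.MP_fe8c60_co.Sh.Bin
import Pool.Agent.Lib.MP_fe8c60_co.Sh.Block
import Pool.Agent.Lib.MP_fe8c60_co.Sh.Bridge
import Pool.Agent.Lib.MP_fe8c60_co.Sh.Det
import Pool.Agent.Lib.MP_fe8c60_co.Sh.Ev
import Pool.Agent.Lib.MP_fe8c60_co.Sh.Final
import Pool.Agent.Lib.MP_fe8c60_co.Sh.Free
import Pool.Agent.Lib.MP_fe8c60_co.Sh.Geo
import Pool.Agent.Lib.MP_fe8c60_co.Sh.Group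
import Pool.Agent.Lib.MP_fe8c60_co.Sh.Left
import Pool.Agent.Lib.MP_fe8c60_co.Sh.Long
import Pool.Agent.Lib.MP_fe8c60_co.Sh.LowAsm
import Pool.Agent.Lib.MP_fe8c60_co.Sh.LowNum
import Pool.Agent.Lib.MP_fe8c60_co.Sh.Ori
import Pool.Agent.Lib.MP_fe8c60_co.Sh.Pack
import Pool.Agent.Lib.MP_fe8c60_co.Sh.Pre
import Pool.Agent.Lib.MP_fe8c60_co.Sh.Ram
import Pool.Agent.Lib.MP_fe8c60_co.Sh.Struct
import Pool.Agent.Lib.MP_fe8c60_co.Sh.Tri
import Pool.Agent.Lib.MP_fe8c60_co.Sh.UpNum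

/-! Assembly of all parts. -/

set_option autoImplicit false

namespace Pool.Agent.Lib.MP_fe8c60_co.Sh

theorem all_upper : UpperSt :=
  upper_st alt_st
    (asm_st pack_st (ram_st pack_st) (block_st pack_st (group_st (ram_st pack_st)))
      (left_st (group_st (ram_st pack_st))))
    bin_st (struct_st (pre_st tri_st ori_st)) upNum_st

theorem all_final : FinalSt :=
  final_st bridge_st geo_st all_upper det_st (lowAsm_st ev_st long_st det_st free_st) lownum_st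

end Pool.Agent.Lib.MP_fe8c60_co.Sh
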