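import Pool.Agent.Lib.MP_fe8c60_co.Sh.St

set_option autoImplicit false

namespace Pool.Agent.Lib.MP_fe8c60_co.Sh

open Finset

namespace Alt

/-- one station is put in front of a list -/
lemma step (T : List ℕ) (e d : ℕ) (p c : Prop) [Decidable p] [Decidable c] (he : e % 2 = 0)
    (hd : d % 2 = 0) (hed : e + 1 < d)
    (hT : T.IsChain (fun a b => a < b ∧ a % 2 ≠ b % 2)) (hb : ∀ x ∈ T, d < x) :
    ∃ T' : List ℕ, T'.IsChain (fun a b => a < b ∧ a % 2 ≠ b % 2) ∧
      (∀ x ∈ T', x ∈ T ∨ ((p ∨ c) ∧ (x = e ∨ x = e + 1 ∨ x = d))) ∧ (∀ x ∈ T, x ∈ T') ∧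
      (p → e ∈ T' ∧ e + 1 ∈ T') ∧ (c → e ∈ T' ∨ e + 1 ∈ T') ∧
      T'.length ≤ T.length + (if c then 1 else 0) + 3 * (if p then 1 else 0) := by
  by_cases hp : p
  · cases T with
    | nil =>
      refine ⟨[e, e + 1], ?_, ?_, ?_, ?_, ?_, ?_⟩ <;> simp [hp]
      omega
    | cons a T =>
      have ha := hb a (by simp)
      by_cases h2 : a % 2 = 0
      · refine ⟨e :: (e + 1) :: a :: T, ?_, ?_, ?_, ?_, ?_, ?_⟩
        · rw [List.isChain_cons_cons, List.isChain_cons_cons]
          exact ⟨by omega, by omega, hT⟩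
        · intro x hx
          simp only [List.mem_cons] at hx ⊢
          tauto
        · intro x hx
          exact List.mem_cons_of_mem _ (List.mem_cons_of_mem _ hx)
        · simp
        · simp
        · simp only [List.length_cons, if_pos hp]
          omega
      · refine ⟨e :: (e + 1) :: d :: a :: T, ?_, ?_, ?_, ?_, ?_, ?_⟩
        · rw [List.isChain_cons_cons, List.isChain_cons_cons, List.isChain_cons_cons]
          exact ⟨by omega, by omega, by omega, hT⟩
        · intro x hx
          simp only [List.mem_cons] at hx ⊢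
          tauto
        · intro x hx
          exact List.mem_cons_of_mem _ (List.mem_cons_of_mem _ (List.mem_cons_of_mem _ hx))
        · simp
        · simp
        · simp only [List.length_cons, if_pos hp]
          omega
  by_cases hc : c
  · cases T with
    | nil =>
      refine ⟨[e], ?_, ?_, ?_, ?_, ?_, ?_⟩ <;> simp [hp, hc]
    | cons a T =>
      have ha := hb a (by simp)
      by_cases h2 : a % 2 = 0
      · refine ⟨(e + 1) :: a :: T, ?_, ?_, ?_, fun h => absurd h hp, ?_, ?_⟩
        · rw [List.isChain_cons_cons]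
          exact ⟨by omega, hT⟩
        · intro x hx
          simp only [List.mem_cons] at hx ⊢
          tauto
        · intro x hx
          exact List.mem_cons_of_mem _ hx
        · simp
        · simp only [List.length_cons, if_pos hc]
          omega
      · refine ⟨e :: a :: T, ?_, ?_, ?_, fun h => absurd h hp, ?_, ?_⟩
        · rw [List.isChain_cons_cons]
          exact ⟨by omega, hT⟩
        · intro x hx
          simp only [List.mem_cons] at hx ⊢
          tauto
        · intro x hx
          exact List.mem_cons_of_mem _ hx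
        · simp
        · simp only [List.length_cons, if_pos hc]
          omega
  · exact ⟨T, hT, fun x hx => Or.inl hx, fun x hx => hx, fun h => absurd h hp,
      fun h => absurd h hc, by omega⟩

lemma build (n : ℕ) (𝒮 : Finset (Sta n)) : ∀ i : ℕ, ∃ S : Fin n → List ℕ,
    (∀ v, (S v).IsChain (fun a b => a < b ∧ a % 2 ≠ b % 2)) ∧
    (∀ v, ∀ x ∈ S v, (2 * n + 2) * i ≤ x) ∧ (∀ v, (S v).length ≤ cv 𝒮 v + 3 * pv 𝒮 v) ∧
    (∀ u v, u ≠ v → ∀ x, x ∈ S u → x ∈ S v → ∃ s ∈ 𝒮, u ∈ s.1 ∪ s.2 ∧ v ∈ s.1 ∪ s.2) ∧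
    ∀ s ∈ 𝒮, ∀ u ∈ s.1, ∀ v ∈ s.2, ∃ x, x ∈ S u ∧ x ∈ S v := by
  induction 𝒮 using Finset.induction_on with
  | empty => exact fun i => ⟨fun _ => [], by simp, by simp, by simp, by simp, by simp⟩
  | insert s 𝒮 hs ih =>
    intro i
    obtain ⟨S, h1, h2, h3, h4, h5⟩ := ih (i + 1)
    have he : ((2 * n + 2) * i) % 2 = 0 := by
      have : (2 * n + 2) * i = 2 * ((n + 1) * i) := by ring
      omega
    have hm : (2 * n + 2) * (i + 1) = (2 * n + 2) * i + (2 * n + 2) := by ring
    generalize (2 * n + 2) * i = e at he hm ⊢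
    rw [hm] at h2
    choose S' g1 g2 g3 g4 g5 g6 using fun v : Fin n =>
      step (S v) e (e + 2 + 2 * v.val) (v ∈ s.1) (v ∈ s.2) he (by omega) (by omega) (h1 v)
        (fun x hx => by have := h2 v x hx; have := v.isLt; omega)
    refine ⟨S', g1, fun v x hx => ?_, fun v => ?_, fun u v huv x hu hv => ?_, ?_⟩
    · rcases g2 v x hx with h | ⟨-, h⟩
      · have := h2 v x h
        omega
      · omega
    · have a1 : cv (insert s 𝒮) v = cv 𝒮 v + if v ∈ s.2 then 1 else 0 := by
        unfold cv
        rw [filter_insert]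
        split_ifs
        · exact card_insert_of_notMem fun h => hs (mem_filter.1 h).1
        · rfl
      have a2 : pv (insert s 𝒮) v = pv 𝒮 v + if v ∈ s.1 then 1 else 0 := by
        unfold pv
        rw [filter_insert]
        split_ifs
        · exact card_insert_of_notMem fun h => hs (mem_filter.1 h).1
        · rfl
      have := g6 v
      have := h3 v
      omega
    · have hu' := u.isLt
      have hv' := v.isLt
      have hne : u.val ≠ v.val := fun h => huv (Fin.ext h)
      rcases g2 u x hu with a | ⟨a, a'⟩ <;> rcases g2 v x hv with b | ⟨b, b'⟩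
      · obtain ⟨s', hs', h⟩ := h4 u v huv x a b
        exact ⟨s', mem_insert_of_mem hs', h⟩
      · have := h2 u x a
        omega
      · have := h2 v x b
        omega
      · exact ⟨s, mem_insert_self _ _, mem_union.2 a, mem_union.2 b⟩
    · intro s' hs' u hu v hv
      rcases mem_insert.1 hs' with rfl | hs'
      · rcases g5 v hv with h | h
        · exact ⟨_, (g4 u hu).1, h⟩
        · exact ⟨_, (g4 u hu).2, h⟩
      · obtain ⟨x, a, b⟩ := h5 s' hs' u hu v hv
        exact ⟨x, g3 u x a, g3 v x b⟩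

end Alt

theorem alt_st : AltSt := by
  intro n G k 𝒮 hc hcov hk
  obtain ⟨S, h1, -, h3, h4, h5⟩ := Alt.build n 𝒮 0
  refine ⟨S, fun v => ⟨h1 v, (h3 v).trans (hk v)⟩, fun u v huv => ⟨fun h => ?_, ?_⟩⟩
  · rcases hcov u v h with ⟨s, hs, a, b⟩ | ⟨s, hs, a, b⟩
    · exact h5 s hs u a v b
    · obtain ⟨x, c, d⟩ := h5 s hs v a u b
      exact ⟨x, d, c⟩
  · rintro ⟨x, a, b⟩
    obtain ⟨s, hs, c, d⟩ := h4 u v huv x a b
    exact hc s hs (mem_coe.2 c) (mem_coe.2 d) huv

end Pool.Agent.Lib.MP_fe8c60_co.Sh
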