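import Pool.Agent.Lib.MP_fe8c60_co.Defs

/-! The bend-number with grid paths and its maximum over claw-free graphs. -/

set_option autoImplicit false

namespace Pool.Agent.Lib.MP_fe8c60_co

/-- `G` has a `k`-bend EPG representation by grid paths (no repeated vertex). -/
def HasPathEPG {V : Type} (G : SimpleGraph V) (k : ℕ) : Prop :=
  ∃ (s t : V → ℤ × ℤ) (P : ∀ v, grid.Walk (s v) (t v)),
    (∀ v, (P v).IsPath ∧ bends (P v) ≤ k) ∧
      ∀ u v, u ≠ v → (G.Adj u v ↔ ∃ e, e ∈ (P u).edges ∧ e ∈ (P v).edges)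

/-- the bend-number `b(G)` -/
noncomputable def bendNumber {V : Type} (G : SimpleGraph V) : ℕ := sInf {k | HasPathEPG G k}

/-- the largest bend-number of a claw-free graph on `n` vertices -/
noncomputable def maxBend (n : ℕ) : ℕ :=
  sSup {b | ∃ G : SimpleGraph (Fin n), ClawFree G ∧ bendNumber G = b}

end Pool.Agent.Lib.MP_fe8c60_co
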