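import Pool.Agent.Lib.MP_fe8c60_co.Sh.St

/-! Stations for one group of providers. -/

set_option autoImplicit false

namespace Pool.Agent.Lib.MP_fe8c60_co.Sh

open Finset

theorem group_st (hR : RamSt) : GroupSt := by
  classical
  intro n G Γ B 𝒯 t hCF hΓ hT ht
  have hmem : ∀ b x, x ∈ nb G b Γ ↔ x ∈ Γ ∧ G.Adj b x := by
    intro b x; simp [nb]
  have hK : ∀ S : Finset (Fin n), ∃ 𝒦 : Finset (Finset (Fin n)), S.Nonempty →
      (∀ Q ∈ 𝒦, Q ⊆ B.filter (fun b => nb G b Γ = S) ∧ G.IsClique (Q : Set (Fin n))) ∧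
      (∀ b ∈ B.filter (fun b => nb G b Γ = S), ∃ Q ∈ 𝒦, b ∈ Q) ∧
      (∀ b, (𝒦.filter fun Q => b ∈ Q).card ≤ 1) ∧
      𝒦.card * t ≤ (B.filter (fun b => nb G b Γ = S)).card + t ^ 3 := by
    intro S
    by_cases hS : S.Nonempty
    · obtain ⟨a, ha⟩ := hS
      obtain ⟨𝒦, h⟩ := (hR n G a (B.filter (fun b => nb G b Γ = S)) t hCF (by
        intro b hb
        have h2 := (mem_filter.1 hb).2
        rw [← h2] at ha
        exact ((hmem b a).1 ha).2.symm) ht).2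
      exact ⟨𝒦, fun _ => h⟩
    · exact ⟨∅, fun h => absurd h hS⟩
  choose K hK using hK
  set 𝒰 : Finset (Finset (Fin n)) := (B.image fun b => nb G b Γ).filter Finset.Nonempty with hU
  have hS : ∀ s : Sta n, s ∈ 𝒰.biUnion (fun S => (K S).image fun Q => ((S, Q) : Sta n)) ↔
      s.1 ∈ 𝒰 ∧ s.2 ∈ K s.1 := by
    intro s
    simp only [mem_biUnion, mem_image]
    constructor
    · rintro ⟨S, h1, Q, h2, rfl⟩
      exact ⟨h1, h2⟩
    · rintro ⟨h1, h2⟩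
      exact ⟨s.1, h1, s.2, h2, rfl⟩
  have hne : ∀ S ∈ 𝒰, S.Nonempty := fun S h => (mem_filter.1 h).2
  have hsub : ∀ S ∈ 𝒰, S ⊆ Γ := by
    intro S h x hx
    obtain ⟨b, _, rfl⟩ := mem_image.1 (mem_filter.1 h).1
    exact ((hmem b x).1 hx).1
  refine ⟨𝒰.biUnion (fun S => (K S).image fun Q => ((S, Q) : Sta n)), ?_, ?_, ?_, ?_, ?_⟩
  · intro s hs
    obtain ⟨h1, h2⟩ := (hS s).1 hs
    obtain ⟨hQ, hcl⟩ := (hK s.1 (hne _ h1)).1 _ h2
    have hx : ∀ x ∈ s.1, ∀ y ∈ s.2, G.Adj y x := by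
      intro x hx y hy
      have h3 := (mem_filter.1 (hQ hy)).2
      rw [← h3] at hx
      exact ((hmem y x).1 hx).2
    intro x hx' y hy' hxy
    rcases mem_union.1 (mem_coe.1 hx') with h3 | h3 <;>
      rcases mem_union.1 (mem_coe.1 hy') with h4 | h4
    · exact hΓ (mem_coe.2 (hsub _ h1 h3)) (mem_coe.2 (hsub _ h1 h4)) hxy
    · exact (hx x h3 y h4).symm
    · exact hx y h4 x h3
    · exact hcl (mem_coe.2 h3) (mem_coe.2 h4) hxy
  · intro s hs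
    obtain ⟨h1, h2⟩ := (hS s).1 hs
    exact ⟨hsub _ h1, ((hK s.1 (hne _ h1)).1 _ h2).1.trans (filter_subset _ _)⟩
  · have h1 : (𝒰.biUnion (fun S => (K S).image fun Q => ((S, Q) : Sta n))).card ≤
        ∑ S ∈ 𝒰, (K S).card :=
      card_biUnion_le.trans (sum_le_sum fun S _ => card_image_le)
    have h2 : ∑ S ∈ 𝒰, (B.filter (fun b => nb G b Γ = S)).card ≤ n := by
      calc ∑ S ∈ 𝒰, (B.filter (fun b => nb G b Γ = S)).card
          ≤ ∑ S ∈ B.image (fun b => nb G b Γ), (B.filter (fun b => nb G b Γ = S)).card :=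
            sum_le_sum_of_subset (filter_subset _ _)
        _ = B.card := (card_eq_sum_card_image _ _).symm
        _ ≤ n := by simpa using card_le_univ B
    have h3 : 𝒰.card ≤ 𝒯.card := by
      apply card_le_card
      intro S h
      obtain ⟨b, hb, rfl⟩ := mem_image.1 (mem_filter.1 h).1
      exact hT b hb
    calc _ ≤ (∑ S ∈ 𝒰, (K S).card) * t := Nat.mul_le_mul_right _ h1
      _ = ∑ S ∈ 𝒰, (K S).card * t := sum_mul _ _ _
      _ ≤ ∑ S ∈ 𝒰, ((B.filter (fun b => nb G b Γ = S)).card + t ^ 3) :=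
          sum_le_sum fun S h => (hK S (hne S h)).2.2.2
      _ = ∑ S ∈ 𝒰, (B.filter (fun b => nb G b Γ = S)).card + 𝒰.card * t ^ 3 := by
          rw [sum_add_distrib, sum_const, smul_eq_mul]
      _ ≤ n + 𝒯.card * t ^ 3 := Nat.add_le_add h2 (Nat.mul_le_mul_right _ h3)
  · intro v
    unfold cv
    rw [card_le_one]
    intro s hs s' hs'
    obtain ⟨hs1, hv⟩ := mem_filter.1 hs
    obtain ⟨hs1', hv'⟩ := mem_filter.1 hs'
    obtain ⟨h1, h2⟩ := (hS s).1 hs1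
    obtain ⟨h1', h2'⟩ := (hS s').1 hs1'
    have e1 := (mem_filter.1 (((hK s.1 (hne _ h1)).1 _ h2).1 hv)).2
    have e2 := (mem_filter.1 (((hK s'.1 (hne _ h1')).1 _ h2').1 hv')).2
    have e : s.1 = s'.1 := e1.symm.trans e2
    refine Prod.ext e ?_
    rw [← e] at h2'
    exact card_le_one.1 ((hK s.1 (hne _ h1)).2.2.1 v) _ (mem_filter.2 ⟨h2, hv⟩) _
      (mem_filter.2 ⟨h2', hv'⟩)
  · intro a ha b hb hab
    have h1 : a ∈ nb G b Γ := (hmem b a).2 ⟨ha, hab.symm⟩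
    have h2 : nb G b Γ ∈ 𝒰 := mem_filter.2 ⟨mem_image_of_mem _ hb, a, h1⟩
    obtain ⟨Q, hQ, hbQ⟩ := (hK _ (hne _ h2)).2.1 b (mem_filter.2 ⟨hb, rfl⟩)
    exact ⟨(nb G b Γ, Q), (hS _).2 ⟨h2, hQ⟩, h1, hbQ⟩

end Pool.Agent.Lib.MP_fe8c60_co.Sh
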