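import Pool.Agent.Lib.MP_fe8c60_co.Sh.Defs
import Pool.Agent.Lib.MP_fe8c60_co.Proof

/-! Internal definitions and the statements of all parts. -/

set_option autoImplicit false

namespace Pool.Agent.Lib.MP_fe8c60_co.Sh

open Finset

section Defs
variable {n : ℕ}

/-- claw-free, elementary form -/
def CF (G : SimpleGraph (Fin n)) : Prop := ∀ a x y z, G.Adj a x → G.Adj a y → G.Adj a z →
  x ≠ y → x ≠ z → y ≠ z → G.Adj x y ∨ G.Adj x z ∨ G.Adj y z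

/-- increasing index lists of alternating parity -/
def AltRep (G : SimpleGraph (Fin n)) (k : ℕ) : Prop :=
  ∃ S : Fin n → List ℕ, (∀ v, (S v).IsChain (fun a b => a < b ∧ a % 2 ≠ b % 2) ∧ (S v).length ≤ k + 1) ∧
    ∀ u v, u ≠ v → (G.Adj u v ↔ ∃ x, x ∈ S u ∧ x ∈ S v)

/-- a station: providers and choosers -/
abbrev Sta (n : ℕ) := Finset (Fin n) × Finset (Fin n)

def Cliq (G : SimpleGraph (Fin n)) (𝒮 : Finset (Sta n)) : Prop :=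
  ∀ s ∈ 𝒮, G.IsClique ((s.1 ∪ s.2 : Finset (Fin n)) : Set (Fin n))

def pv (𝒮 : Finset (Sta n)) (v : Fin n) : ℕ := (𝒮.filter fun s => v ∈ s.1).card

def cv (𝒮 : Finset (Sta n)) (v : Fin n) : ℕ := (𝒮.filter fun s => v ∈ s.2).card

def Cv (𝒮 : Finset (Sta n)) (a b : Fin n) : Prop := ∃ s ∈ 𝒮, a ∈ s.1 ∧ b ∈ s.2

open Classical in
/-- neighbours of `b` in `U` -/
noncomputable def nb (G : SimpleGraph (Fin n)) (b : Fin n) (U : Finset (Fin n)) : Finset (Fin n) :=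
  U.filter fun x => G.Adj b x

open Classical in
/-- non-neighbours of `b` in `U` -/
noncomputable def nn (G : SimpleGraph (Fin n)) (b : Fin n) (U : Finset (Fin n)) : Finset (Fin n) :=
  U.filter fun x => ¬G.Adj b x

/-- a class -/
def fib {k : ℕ} (cls : Fin n → Fin k) (i : Fin k) : Finset (Fin n) := univ.filter fun v => cls v = i

/-- classes with a designation: `D j i` means that class `j` chooses on class `i` -/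
def Struct (G : SimpleGraph (Fin n)) (k : ℕ) (η : ℝ) : Prop :=
  ∃ (cls : Fin n → Fin k) (D : Fin k → Fin k → Bool), (∀ i j, D i j = true ∨ D j i = true) ∧
    ∀ b, ∃ J : Finset (Fin k), (∑ i ∈ J, ((fib cls i).card : ℝ)) ≤ (1 / 4 + η) * n ∧
      ∑ i ∈ univ.filter (fun i => i ∉ J ∧ D (cls b) i = true),
        ((min (nb G b (fib cls i)).card (nn G b (fib cls i)).card : ℕ) : ℝ) ≤ η * n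

/-- the two sides -/
def sA (n : ℕ) : Finset (Fin n) := univ.filter fun v => (v : ℕ) < n / 2

def sB (n : ℕ) : Finset (Fin n) := univ.filter fun v => ¬(v : ℕ) < n / 2

/-- the co-bipartite graph with cross edges `F` -/
def cob (F : Finset (Fin n × Fin n)) : SimpleGraph (Fin n) where
  Adj u v := u ≠ v ∧ ((u ∈ sA n ↔ v ∈ sA n) ∨ (u, v) ∈ F ∨ (v, u) ∈ F)
  symm := ⟨fun u v h => ⟨h.1.symm, by have := h.2; tauto⟩⟩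
  loopless := ⟨fun u h => h.1 rfl⟩

def KFree (F : Finset (Fin n × Fin n)) (s : ℕ) : Prop :=
  ∀ S T : Finset (Fin n), S.card = s → T.card = s → ¬S ×ˢ T ⊆ F

/-- a list of events (starts of intervals); event `i` reaches the events `i < j ≤ e i` -/
def Ev (G : SimpleGraph (Fin n)) {N : ℕ} (l : Fin N → Fin n) (e : Fin N → ℕ) : Prop :=
  (∀ u v, u ≠ v → (G.Adj u v ↔ ∃ i j : Fin N, i < j ∧ (j : ℕ) ≤ e i ∧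
    ((l i = u ∧ l j = v) ∨ (l i = v ∧ l j = u)))) ∧
  ∀ i j : Fin N, i < j → (j : ℕ) ≤ e i → l i ≠ l j

/-- labels of the other side reached by event `i` -/
def hit {N : ℕ} (l : Fin N → Fin n) (e : Fin N → ℕ) (i : Fin N) : Finset (Fin n) :=
  (univ.filter fun j : Fin N => i < j ∧ (j : ℕ) ≤ e i ∧ ¬(l i ∈ sA n ↔ l j ∈ sA n)).image l
end Defs

/-! ## Upper bound -/

def BridgeSt : Prop := ∀ (n : ℕ) (G : SimpleGraph (Fin n)), ClawFree G ↔ CF G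

def GeoSt : Prop := ∀ (n : ℕ) (G : SimpleGraph (Fin n)) (k : ℕ), AltRep G k → HasPathEPG G k

def AltSt : Prop := ∀ (n : ℕ) (G : SimpleGraph (Fin n)) (k : ℕ) (𝒮 : Finset (Sta n)), Cliq G 𝒮 →
  (∀ u v, G.Adj u v → Cv 𝒮 u v ∨ Cv 𝒮 v u) → (∀ v, cv 𝒮 v + 3 * pv 𝒮 v ≤ k + 1) → AltRep G k

def RamSt : Prop := ∀ (n : ℕ) (G : SimpleGraph (Fin n)) (a : Fin n) (B : Finset (Fin n)) (t : ℕ),
  CF G → (∀ b ∈ B, G.Adj a b) → 1 ≤ t →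
  ((∀ Q ⊆ B, G.IsClique (Q : Set (Fin n)) → Q.card ≠ t) → B.card ≤ t ^ 2) ∧
  ∃ 𝒦 : Finset (Finset (Fin n)), (∀ Q ∈ 𝒦, Q ⊆ B ∧ G.IsClique (Q : Set (Fin n))) ∧
    (∀ b ∈ B, ∃ Q ∈ 𝒦, b ∈ Q) ∧ (∀ b, (𝒦.filter fun Q => b ∈ Q).card ≤ 1) ∧
    𝒦.card * t ≤ B.card + t ^ 3

def PackSt : Prop :=
  (∀ (n : ℕ) (G : SimpleGraph (Fin n)) (U : Finset (Fin n)) (L : ℕ), 1 ≤ L →
    ∃ 𝒬 : Finset (Finset (Fin n)), (∀ Q ∈ 𝒬, Q ⊆ U ∧ G.IsClique (Q : Set (Fin n)) ∧ Q.card = L) ∧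
      (∀ Q ∈ 𝒬, ∀ Q' ∈ 𝒬, Q ≠ Q' → Disjoint Q Q') ∧
      ∀ Q ⊆ U \ 𝒬.biUnion id, G.IsClique (Q : Set (Fin n)) → Q.card ≠ L) ∧
  ∀ (n : ℕ) (Q : Finset (Fin n)) (K g : ℕ), Q.card = K * g →
    ∃ 𝒢 : Finset (Finset (Fin n)), 𝒢.card ≤ K ∧ (∀ Γ ∈ 𝒢, Γ ⊆ Q ∧ Γ.card ≤ g) ∧
      (∀ x ∈ Q, ∃ Γ ∈ 𝒢, x ∈ Γ) ∧ ∀ Γ ∈ 𝒢, ∀ Γ' ∈ 𝒢, Γ ≠ Γ' → Disjoint Γ Γ'

def GroupSt : Prop := ∀ (n : ℕ) (G : SimpleGraph (Fin n)) (Γ B : Finset (Fin n))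
  (𝒯 : Finset (Finset (Fin n))) (t : ℕ), CF G → G.IsClique (Γ : Set (Fin n)) →
  (∀ b ∈ B, nb G b Γ ∈ 𝒯) → 1 ≤ t →
  ∃ 𝒮 : Finset (Sta n), Cliq G 𝒮 ∧ (∀ s ∈ 𝒮, s.1 ⊆ Γ ∧ s.2 ⊆ B) ∧
    𝒮.card * t ≤ n + 𝒯.card * t ^ 3 ∧ (∀ v, cv 𝒮 v ≤ 1) ∧
    ∀ a ∈ Γ, ∀ b ∈ B, G.Adj a b → Cv 𝒮 a b

def BlockSt : Prop := ∀ (n : ℕ) (G : SimpleGraph (Fin n)) (Q B : Finset (Fin n)) (K g r t : ℕ),
  CF G → G.IsClique (Q : Set (Fin n)) → Q.card = K * g → 1 ≤ t →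
  2 * ∑ j ∈ range (r + 1), (K * g).choose j ≤ 2 ^ g →
  ∃ 𝒮 : Finset (Sta n), Cliq G 𝒮 ∧ (∀ s ∈ 𝒮, s.1 ⊆ Q ∧ s.2 ⊆ B) ∧
    (∀ v, pv 𝒮 v * t ≤ 2 * (n + 2 ^ g * t ^ 3)) ∧
    (∀ v, cv 𝒮 v ≤ if (nb G v Q).card ≤ r ∨ (nn G v Q).card ≤ r then 1 else K) ∧
    ∀ a ∈ Q, ∀ b ∈ B, G.Adj a b → Cv 𝒮 a b

def LeftSt : Prop := ∀ (n : ℕ) (G : SimpleGraph (Fin n)) (R : Finset (Fin n)) (t : ℕ), CF G → 1 ≤ t →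
  ∃ 𝒮 : Finset (Sta n), Cliq G 𝒮 ∧ (∀ s ∈ 𝒮, s.1 ⊆ R) ∧ (∀ v, pv 𝒮 v * t ≤ n + t ^ 3) ∧
    (∀ v, cv 𝒮 v ≤ (nb G v R).card) ∧ ∀ a ∈ R, ∀ b, G.Adj a b → Cv 𝒮 a b

def AsmSt : Prop := ∀ (n : ℕ) (G : SimpleGraph (Fin n)) (k K g r t : ℕ) (η : ℝ), CF G →
  Struct G k η → 1 ≤ K → 1 ≤ g → 1 ≤ r → 1 ≤ t →
  2 * ∑ j ∈ range (r + 1), (K * g).choose j ≤ 2 ^ g →
  ∃ 𝒮 : Finset (Sta n), Cliq G 𝒮 ∧ (∀ u v, G.Adj u v → Cv 𝒮 u v ∨ Cv 𝒮 v u) ∧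
    (∀ v, pv 𝒮 v * t ≤ 3 * (n + 2 ^ g * t ^ 3)) ∧
    ∀ v, (cv 𝒮 v : ℝ) ≤ k * ((K : ℝ) * g) ^ 2 + n / (K * g) + K * (η * n / r) + (1 / 4 + η) * n / g

def BinSt : Prop := ∀ K : ℕ, 1 ≤ K → ∃ θ : ℝ, 0 < θ ∧ ∃ g0 : ℕ, ∀ g ≥ g0, ∀ r : ℕ, (r : ℝ) ≤ θ * g →
  2 * ∑ j ∈ range (r + 1), (K * g).choose j ≤ 2 ^ g

open Classical in
def TriSt : Prop := ∀ δ : ℝ, 0 < δ → δ ≤ 1 / 2 → ∀ (n : ℕ) (G : SimpleGraph (Fin n))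
  (V₁ V₂ V₃ : Finset (Fin n)), CF G → V₁.Nonempty → V₂.Nonempty → V₃.Nonempty →
  Disjoint V₁ V₂ → Disjoint V₁ V₃ → Disjoint V₂ V₃ →
  G.IsUniform (δ ^ 2 / 16) V₁ V₂ → G.IsUniform (δ ^ 2 / 16) V₁ V₃ → G.IsUniform (δ ^ 2 / 16) V₂ V₃ →
  (δ ≤ (G.edgeDensity V₁ V₂ : ℝ) ∧ (G.edgeDensity V₁ V₂ : ℝ) ≤ 1 - δ) →
  (δ ≤ (G.edgeDensity V₁ V₃ : ℝ) ∧ (G.edgeDensity V₁ V₃ : ℝ) ≤ 1 - δ) →
  (δ ≤ (G.edgeDensity V₂ V₃ : ℝ) ∧ (G.edgeDensity V₂ V₃ : ℝ) ≤ 1 - δ) → False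

def OriSt : Prop := ∀ (ι : Type) [Fintype ι] [DecidableEq ι] (M : SimpleGraph ι) (I : Finset (ι × ι))
  (σ : ℝ), M.CliqueFree 3 → 0 < σ → (I.card : ℝ) ≤ σ ^ 2 * (Fintype.card ι : ℝ) ^ 2 →
  ∃ O : ι → Finset ι, (∀ i j, (M.Adj i j ∨ (i, j) ∈ I) → j ∈ O i ∨ i ∈ O j) ∧
    ∀ i, ((O i).card : ℝ) ≤ (1 / 4 + 2 * σ) * Fintype.card ι + 1

def PreSt : Prop := ∀ (δ σ : ℝ) (l : ℕ), 0 < δ → δ ≤ 1 / 2 → 0 < σ → ∃ k : ℕ, ∀ n ≥ l,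
  ∀ G : SimpleGraph (Fin n), CF G → ∃ (k0 : ℕ) (part : Fin n → Fin k0) (O : Fin k0 → Finset (Fin k0)),
    l ≤ k0 ∧ k0 ≤ k ∧ (∀ i, (fib part i).card * k0 ≤ n + k0) ∧
    (∀ i, ((O i).card : ℝ) ≤ (1 / 4 + 2 * σ) * k0 + 1) ∧
    ∀ i j, i ≠ j → j ∈ O i ∨ i ∈ O j ∨
      (∑ b ∈ fib part j, ((nb G b (fib part i)).card : ℝ) ≤ δ * (fib part i).card * (fib part j).card) ∨
      (∑ b ∈ fib part j, ((nn G b (fib part i)).card : ℝ) ≤ δ * (fib part i).card * (fib part j).card)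

def UpNumSt : Prop := ∀ ε : ℝ, 0 < ε → ∃ K : ℕ, 1 ≤ K ∧ ∀ θ : ℝ, 0 < θ → ∃ η : ℝ, 0 < η ∧
  ∀ k g0 : ℕ, ∃ n0 : ℕ, ∀ n ≥ n0, ∃ g r t : ℕ, g0 ≤ g ∧ 1 ≤ g ∧ 1 ≤ r ∧ (r : ℝ) ≤ θ * g ∧ 1 ≤ t ∧
    k * ((K : ℝ) * g) ^ 2 + n / (K * g) + K * (η * n / r) + (1 / 4 + η) * n / g +
      9 * (n + 2 ^ g * (t : ℝ) ^ 3) / t ≤ (1 / 4 + ε) * n / Real.logb 2 n

def StructSt : Prop := ∀ η : ℝ, 0 < η → ∃ k n0 : ℕ, ∀ n ≥ n0, ∀ G : SimpleGraph (Fin n), CF G →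
  Struct G k η

def UpperSt : Prop := ∀ ε : ℝ, 0 < ε → ∃ n0 : ℕ, ∀ n ≥ n0, ∀ G : SimpleGraph (Fin n), CF G →
  ∃ k : ℕ, (k : ℝ) ≤ (1 / 4 + ε) * n / Real.logb 2 n ∧ AltRep G k

/-! ## Lower bound -/

def EvSt : Prop := ∀ (n : ℕ) (G : SimpleGraph (Fin n)) (k : ℕ), HasEPG G k →
  ∃ (N : ℕ) (l : Fin N → Fin n) (e : Fin N → ℕ), N ≤ n * (k + 1) ∧ Ev G l e

def LongSt : Prop := ∀ (n N s q : ℕ) (F : Finset (Fin n × Fin n)) (l : Fin N → Fin n) (e : Fin N → ℕ),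
  F ⊆ sA n ×ˢ sB n → KFree F s → 1 ≤ s → s ≤ q → Ev (cob F) l e →
  (univ.filter fun i => 2 * q < (hit l e i).card).card ≤ 2 * s * (N / q + 1)

def DetSt : Prop :=
  (∀ (n N : ℕ) (F F' : Finset (Fin n × Fin n)) (l : Fin N → Fin n) (e e' : Fin N → ℕ),
    F ⊆ sA n ×ˢ sB n → F' ⊆ sA n ×ˢ sB n → Ev (cob F) l e → Ev (cob F') l e' →
    (∀ i, (hit l e i).card = (hit l e' i).card) → F = F') ∧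
  (∀ (n : ℕ) (F : Finset (Fin n × Fin n)), CF (cob F)) ∧
  ∀ n N w lam : ℕ, (univ.filter fun c : Fin N → Fin (n + 1) =>
    (univ.filter fun i => w < (c i : ℕ)).card ≤ lam).card ≤ 2 ^ N * (w + 1) ^ N * (n + 1) ^ lam

open Classical in
def FreeSt : Prop := ∀ n s : ℕ, 2 * n ^ (2 * s) ≤ 2 ^ (s * s) →
  2 ^ (n / 2 * (n - n / 2)) ≤ 2 * ((sA n ×ˢ sB n).powerset.filter fun F => KFree F s).card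

def LowAsmSt : Prop := ∀ n k s q : ℕ, 1 ≤ n → 1 ≤ s → s ≤ q → 2 * n ^ (2 * s) ≤ 2 ^ (s * s) →
  (∀ F ⊆ sA n ×ˢ sB n, HasEPG (cob F) k) →
  2 ^ (n / 2 * (n - n / 2)) ≤ 2 * ((n * (k + 1) + 1) * n ^ (n * (k + 1)) * 2 ^ (n * (k + 1)) *
    (2 * q + 1) ^ (n * (k + 1)) * (n + 1) ^ (2 * s * (n * (k + 1) / q + 1)))

def LowNumSt : Prop := ∀ ε : ℝ, 0 < ε → ∃ n0 : ℕ, ∀ n ≥ n0, ∃ s q : ℕ, 1 ≤ s ∧ s ≤ q ∧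
  2 * n ^ (2 * s) ≤ 2 ^ (s * s) ∧ ∀ k : ℕ,
  2 ^ (n / 2 * (n - n / 2)) ≤ 2 * ((n * (k + 1) + 1) * n ^ (n * (k + 1)) * 2 ^ (n * (k + 1)) *
    (2 * q + 1) ^ (n * (k + 1)) * (n + 1) ^ (2 * s * (n * (k + 1) / q + 1))) →
  (1 / 4 - ε) * n / Real.logb 2 n ≤ k

/-- the theorem -/
def FinalSt : Prop :=
  Filter.Tendsto (fun n : ℕ => (maxBend n : ℝ) / (n / Real.logb 2 n)) Filter.atTop (nhds (1 / 4))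

end Pool.Agent.Lib.MP_fe8c60_co.Sh
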