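import Pool.Agent.Lib.MP_fe8c60_co.Sh.St

set_option autoImplicit false

namespace Pool.Agent.Lib.MP_fe8c60_co.Sh

open Filter

namespace UpNum

theorem small (c δ : ℝ) (hc : 0 < c) (hδ : 0 < δ) (m : ℕ) :
    ∀ᶠ x : ℝ in atTop, x ^ m * Real.exp (-c * x) ≤ δ := by
  have h := tendsto_rpow_mul_exp_neg_mul_atTop_nhds_zero (m : ℝ) c hc
  have h2 := h.eventually (eventually_le_nhds hδ)
  filter_upwards [h2] with x hx
  rwa [Real.rpow_natCast] at hx

theorem main (e θ η N L : ℝ) (K k g r t : ℕ) (he : 0 < e) (he1 : e ≤ 1) (hθ : 0 < θ) (hη : 0 < η)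
    (hK : 16 ≤ e * K) (hη1 : 16 * η ≤ e) (hη2 : 32 * K * η ≤ e * θ) (hL : 1 ≤ L) (hN : 0 < N)
    (hg1 : (1 - e / 4) * L ≤ g) (hg2 : (g : ℝ) ≤ L) (hr : θ * g ≤ 2 * r)
    (ht1 : L ^ 2 ≤ t) (ht2 : (t : ℝ) ≤ 2 * L ^ 2) (hL9 : 72 ≤ e * L)
    (h5 : 288 * L ^ 5 * 2 ^ g ≤ e * N) (h3 : 8 * k * (K : ℝ) ^ 2 * L ^ 3 ≤ e * N) :
    k * ((K : ℝ) * g) ^ 2 + N / (K * g) + K * (η * N / r) + (1 / 4 + η) * N / g +
      9 * (N + 2 ^ g * (t : ℝ) ^ 3) / t ≤ (1 / 4 + e) * N / L := by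
  have hL0 : 0 < L := by linarith
  have hK0 : (0 : ℝ) < K := by
    by_contra h
    have : (K : ℝ) ≤ 0 := not_lt.1 h
    nlinarith
  have hgL : L ≤ 2 * g := by nlinarith
  have hg0 : (0 : ℝ) < g := by linarith
  have hr0 : (0 : ℝ) < r := by nlinarith [mul_pos hθ hg0]
  have ht0 : (0 : ℝ) < t := by nlinarith
  set X := N / L with hX
  have hX0 : 0 < X := div_pos hN hL0
  have hNX : N = X * L := by rw [hX]; field_simp
  have a1 : k * ((K : ℝ) * g) ^ 2 ≤ e / 8 * X := by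
    have h1 : (g : ℝ) ^ 2 ≤ L ^ 2 := pow_le_pow_left₀ hg0.le hg2 2
    have h2 : (0 : ℝ) ≤ k * (K : ℝ) ^ 2 := by positivity
    have h4 : k * ((K : ℝ) * g) ^ 2 ≤ k * (K : ℝ) ^ 2 * L ^ 2 := by
      calc k * ((K : ℝ) * g) ^ 2 = k * (K : ℝ) ^ 2 * (g : ℝ) ^ 2 := by ring
        _ ≤ _ := mul_le_mul_of_nonneg_left h1 h2
    refine h4.trans (le_of_mul_le_mul_right ?_ hL0)
    rw [hNX] at h3
    nlinarith
  have a2 : N / (K * g) ≤ e / 8 * X := by
    rw [div_le_iff₀ (by positivity), hNX]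
    have h1 : L ≤ e / 8 * (K * g) := by nlinarith
    nlinarith
  have a3 : K * (η * N / r) ≤ e / 8 * X := by
    rw [← mul_div_assoc, div_le_iff₀ hr0, hNX]
    have h1 : K * η * L ≤ e / 8 * r := by
      have h2 : 0 < K * η := mul_pos hK0 hη
      have h4 : K * η * L ≤ K * η * (2 * g) := mul_le_mul_of_nonneg_left hgL h2.le
      have h6 : 32 * K * η * g ≤ e * θ * g := mul_le_mul_of_nonneg_right hη2 hg0.le
      have h7 : e * (θ * g) ≤ e * (2 * r) := mul_le_mul_of_nonneg_left hr he.le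
      nlinarith
    nlinarith
  have a4 : (1 / 4 + η) * N / g ≤ (1 / 4 + e / 4) * X := by
    rw [div_le_iff₀ hg0, hNX]
    have h1 : (1 / 4 + η) * L ≤ (1 / 4 + e / 4) * g := by
      have h2 : (1 / 4 + e / 4) * ((1 - e / 4) * L) ≤ (1 / 4 + e / 4) * g :=
        mul_le_mul_of_nonneg_left hg1 (by linarith)
      have h4 : 1 / 4 + η ≤ (1 / 4 + e / 4) * (1 - e / 4) := by nlinarith
      nlinarith
    nlinarith
  have a5 : 9 * (N + 2 ^ g * (t : ℝ) ^ 3) / t ≤ e / 4 * X := by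
    have e1 : 9 * (N + 2 ^ g * (t : ℝ) ^ 3) / t = 9 * N / t + 9 * (2 ^ g * (t : ℝ) ^ 2) := by
      field_simp
    have b1 : 9 * N / t ≤ e / 8 * X := by
      rw [div_le_iff₀ ht0, hNX]
      have h1 : 9 * L ≤ e / 8 * t := by nlinarith
      nlinarith
    have b2 : 9 * (2 ^ g * (t : ℝ) ^ 2) ≤ e / 8 * X := by
      have h1 : (t : ℝ) ^ 2 ≤ (2 * L ^ 2) ^ 2 := pow_le_pow_left₀ ht0.le ht2 2
      have h2 : (0 : ℝ) < 2 ^ g := by positivity
      have h4 := mul_le_mul_of_nonneg_left h1 h2.le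
      refine le_trans (mul_le_mul_of_nonneg_left h4 (by norm_num)) (le_of_mul_le_mul_right ?_ hL0)
      rw [hNX] at h5
      nlinarith
    rw [e1]
    linarith
  have e2 : (1 / 4 + e) * N / L = (1 / 4 + e) * X := by rw [hX]; ring
  rw [e2]
  nlinarith

end UpNum

theorem upNum_st : UpNumSt := by
  intro ε hε
  obtain ⟨e, he, he1, heε⟩ : ∃ e : ℝ, 0 < e ∧ e ≤ 1 ∧ e ≤ ε :=
    ⟨min ε 1, lt_min hε one_pos, min_le_right _ _, min_le_left _ _⟩
  obtain ⟨K, hK⟩ := exists_nat_ge (16 / e)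
  have hK' : 16 ≤ e * K := by rwa [div_le_iff₀ he, mul_comm] at hK
  have hK0 : (0 : ℝ) < K := lt_of_lt_of_le (by positivity) hK
  refine ⟨K, by exact_mod_cast hK0, fun θ hθ => ?_⟩
  refine ⟨min (e / 16) (e * θ / (32 * K)), lt_min (by positivity) (by positivity), fun k g0 => ?_⟩
  have hη1 : 16 * min (e / 16) (e * θ / (32 * K)) ≤ e := by
    have := min_le_left (e / 16) (e * θ / (32 * K))
    linarith
  have hη2 : 32 * K * min (e / 16) (e * θ / (32 * K)) ≤ e * θ := by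
    have := min_le_right (e / 16) (e * θ / (32 * K))
    rwa [le_div_iff₀ (by positivity), mul_comm] at this
  have hl2 : 0 < Real.log 2 := Real.log_pos one_lt_two
  have hT : Tendsto (fun n : ℕ => Real.logb 2 n) atTop atTop :=
    (Real.tendsto_logb_atTop one_lt_two).comp tendsto_natCast_atTop_atTop
  have hev : ∀ᶠ L : ℝ in atTop, 72 / e ≤ L ∧ 2 * (g0 : ℝ) ≤ L ∧ 2 / θ ≤ L ∧
      L ^ 5 * Real.exp (-(e / 8 * Real.log 2) * L) ≤ e / 288 ∧
      L ^ 3 * Real.exp (-(Real.log 2) * L) ≤ e / (8 * (k + 1) * (K : ℝ) ^ 2) :=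
    (eventually_ge_atTop _).and ((eventually_ge_atTop _).and ((eventually_ge_atTop _).and
      ((UpNum.small _ _ (by positivity) (by positivity) 5).and
        (UpNum.small _ _ hl2 (by positivity) 3))))
  obtain ⟨n0, hn0⟩ := eventually_atTop.1 ((hT.eventually hev).and (eventually_gt_atTop 0))
  refine ⟨n0, fun n hn => ?_⟩
  obtain ⟨⟨h1, h2, h3, h4, h5⟩, hn0'⟩ := hn0 n hn
  have hN : (0 : ℝ) < n := by exact_mod_cast hn0'
  have hNL : (n : ℝ) = Real.exp (Real.log 2 * Real.logb 2 n) := by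
    rw [Real.logb, mul_div_cancel₀ _ hl2.ne', Real.exp_log hN]
  generalize Real.logb 2 n = L at *
  have hL9 : 72 ≤ e * L := by rwa [div_le_iff₀ he, mul_comm] at h1
  have hL : 72 ≤ L := by
    by_contra h
    have : L < 72 := not_le.1 h
    nlinarith
  have hθL : 2 ≤ θ * L := by rwa [div_le_iff₀ hθ, mul_comm] at h3
  have hx0 : 0 ≤ (1 - e / 8) * L := by nlinarith
  have hgu := Nat.floor_le hx0
  have hgl := Nat.lt_floor_add_one ((1 - e / 8) * L)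
  set g := ⌊(1 - e / 8) * L⌋₊ with hg
  have hg1 : (1 - e / 4) * L ≤ g := by nlinarith
  have hg2 : (g : ℝ) ≤ L := by nlinarith
  have hgL : L ≤ 2 * g := by nlinarith
  have hθg : 1 ≤ θ * g := by nlinarith
  have hr1 : 1 ≤ ⌊θ * g⌋₊ := Nat.le_floor (by exact_mod_cast hθg)
  have hr1' : (1 : ℝ) ≤ ⌊θ * g⌋₊ := by exact_mod_cast hr1
  have hru := Nat.floor_le (show 0 ≤ θ * g by linarith)
  have hrl := Nat.lt_floor_add_one (θ * g)
  have ht1 := Nat.le_ceil (L ^ 2)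
  have ht2 := Nat.ceil_lt_add_one (show 0 ≤ L ^ 2 by positivity)
  refine ⟨g, ⌊θ * g⌋₊, ⌈L ^ 2⌉₊, ?_, ?_, hr1, hru, ?_, ?_⟩
  · have : (g0 : ℝ) ≤ g := by linarith
    exact_mod_cast this
  · have : (1 : ℝ) ≤ g := by linarith
    exact_mod_cast this
  · have : (1 : ℝ) ≤ ⌈L ^ 2⌉₊ := by nlinarith
    exact_mod_cast this
  have h2g : (2 : ℝ) ^ g ≤ Real.exp (-(e / 8 * Real.log 2) * L) * n := by
    rw [hNL, ← Real.exp_add, ← Real.exp_log (show (0 : ℝ) < 2 ^ g by positivity), Real.log_pow]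
    apply Real.exp_le_exp.2
    nlinarith
  have c5 : 288 * L ^ 5 * 2 ^ g ≤ e * n := by
    have b1 := mul_le_mul_of_nonneg_left h2g (show 0 ≤ 288 * L ^ 5 by positivity)
    have b2 := mul_le_mul_of_nonneg_right h4 hN.le
    nlinarith
  have c3 : 8 * k * (K : ℝ) ^ 2 * L ^ 3 ≤ e * n := by
    have b0 : Real.exp (-(Real.log 2) * L) * n = 1 := by
      rw [hNL, ← Real.exp_add]
      simp
    rw [le_div_iff₀ (by positivity)] at h5
    have b2 := mul_le_mul_of_nonneg_right h5 hN.le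
    have b3 : L ^ 3 * Real.exp (-(Real.log 2) * L) * (8 * (k + 1) * (K : ℝ) ^ 2) * n =
        8 * (k + 1) * (K : ℝ) ^ 2 * L ^ 3 * (Real.exp (-(Real.log 2) * L) * n) := by ring
    rw [b3, b0] at b2
    have b4 : 0 ≤ (K : ℝ) ^ 2 * L ^ 3 := by positivity
    nlinarith
  refine (UpNum.main e θ _ n L K k g _ _ he he1 hθ (lt_min (by positivity) (by positivity)) hK' hη1
    hη2 (by linarith) hN hg1 hg2 (by linarith) ht1 (by nlinarith) hL9 c5 c3).trans ?_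
  have hL0 : 0 < L := by linarith
  gcongr

end Pool.Agent.Lib.MP_fe8c60_co.Sh
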